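import Pool.Agent.Work.MP_c71557_gt.P.Alg

set_option autoImplicit false
set_option linter.unusedVariables false

/-!
# MP_c71557_gt, module P/Bump: PL bump functions (S-M)

For `K` compact in the open set `U` there is a PL function `β ≥ 0`, `β ≥ 1` on `K`, `β = 0` outside a
compact subset of `U`.
PROOF.  For `x ∈ K` choose `r x > 0` with `closedBall x (2 r x) ⊆ U` and
`b x y = max 0 (2 - dist y x / r x)` (PL: `IsPLf.dist`), `≥ 1` on `ball x (r x)`, `0` outside
`closedBall x (2 r x)`.  Finitely many balls `ball x (r x)`, `x ∈ s`, cover `K`; take the maximum over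
`s` (`IsPLf.sup`) and `K' = ⋃ x ∈ s, closedBall x (2 r x)`.
-/

namespace C715

theorem bump (U K : Set P2) (hU : IsOpen U) (hK : IsCompact K) (hKU : K ⊆ U) :
    ∃ β : P2 → ℝ, IsPLf β ∧ (∀ x, 0 ≤ β x) ∧ (∀ x ∈ K, 1 ≤ β x) ∧
      ∃ K' : Set P2, IsCompact K' ∧ K' ⊆ U ∧ ∀ x, x ∉ K' → β x = 0 := by
  have h1 : ∀ x ∈ K, ∃ r : ℝ, 0 < r ∧ Metric.closedBall x (2 * r) ⊆ U := by
    intro x hx
    obtain ⟨ε, hε, h⟩ := Metric.isOpen_iff.1 hU x (hKU hx)
    refine ⟨ε / 4, by positivity, fun y hy => h ?_⟩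
    rw [Metric.mem_closedBall] at hy
    rw [Metric.mem_ball]
    linarith
  choose! r hr hrU using h1
  obtain ⟨s, hs, hKs⟩ := hK.elim_nhds_subcover (fun x => Metric.ball x (r x))
    (fun x hx => Metric.ball_mem_nhds x (hr x hx))
  set b : P2 → P2 → ℝ := fun x y => max 0 (2 - (r x)⁻¹ * dist y x) with hb
  refine ⟨fun y => s.fold Max.max 0 (fun i => b i y), IsPLf.sup s b (fun i _ => ?_), fun y => ?_,
    fun y hy => ?_, ⋃ x ∈ s, Metric.closedBall x (2 * r x), ?_, ?_, fun y hy => ?_⟩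
  · exact (IsPLf.const 0).max ((IsPLf.const 2).sub ((IsPLf.dist i).smul _))
  · exact Finset.le_fold_max _ |>.2 (Or.inl le_rfl)
  · obtain ⟨x, hx, hyx⟩ := Set.mem_iUnion₂.1 (hKs hy)
    refine Finset.le_fold_max _ |>.2 (Or.inr ⟨x, hx, ?_⟩)
    have hrx := hr x (hs x hx)
    refine le_max_of_le_right ?_
    have h2 : (r x)⁻¹ * dist y x ≤ 1 := by
      rw [inv_mul_le_iff₀ hrx, mul_one]
      exact (Metric.mem_ball.1 hyx).le
    linarith
  · exact s.isCompact_biUnion fun x _ => isCompact_closedBall _ _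
  · exact Set.iUnion₂_subset fun x hx => hrU x (hs x hx)
  · refine le_antisymm (Finset.fold_max_le _ |>.2 ⟨le_rfl, fun x hx => ?_⟩)
      (Finset.le_fold_max _ |>.2 (Or.inl le_rfl))
    have hrx := hr x (hs x hx)
    refine max_le le_rfl ?_
    have h2 : 2 * r x < dist y x := by
      by_contra h3
      exact hy (Set.mem_iUnion₂.2 ⟨x, hx, Metric.mem_closedBall.2 (not_lt.1 h3)⟩)
    have h3 : 2 ≤ (r x)⁻¹ * dist y x := by
      rw [le_inv_mul_iff₀ hrx]
      linarith
    linarith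

end C715
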