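import Pool.Agent.Work.MP_c71557_gt.P.Shear
import Pool.Agent.Work.MP_c71557_gt.P.Bump

set_option autoImplicit false
set_option linter.unusedVariables false

/-!
# MP_c71557_gt, module P/Shrink: homotheties on a compact subset of a convex open set (M)

`U` convex open, `K ⊆ U` compact, `q ∈ U`, `0 < μ ≤ 1`: there is `r ∈ GU U` with
`r x = q + μ (x - q)` for `x ∈ K`.

PROOF.  Let `K0 = convexHull (insert q K)`, compact and `⊆ U`; `η > 0` with
`K1 = cthickening η K0 ⊆ U`, compact (`IsCompact.exists_cthickening_subset_open`); `D > 0` with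
`‖x - q‖ ≤ D` on `K1`; `β` the bump function of `K1 ⊆ U` (`P/Bump`, zero outside `K'`), `C` its
Lipschitz constant (`IsPLf.lipschitz`).  For `0 ≤ ν` with `ν D ≤ η`, `ν < 1`, `ν D C < 1` put
`φ1 x = max (-(ν D β x)) (min (ν D β x) (-(ν (x.1 - q.1))))`,
`φ2 x = max (-(ν D β x)) (min (ν D β x) (-(ν (x.2 - q.2))))`.
They are PL, zero outside `K'`, and equal to `-ν (x.i - q.i)` on `K1`.  All three functions in the
max/min change by at most `θ |t - s|` along horizontal (vertical) segments, `θ = max ν (ν D C) < 1`, hence so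
does `φi`; `strictMono_of_slope`, `shear1`, `shear2` give `s1, s2 ∈ GU U`.  For `x ∈ K0`:
`s1 x = (q.1 + (1-ν)(x.1 - q.1), x.2)` has distance `≤ ν D ≤ η` from `x`, so it is in `K1`, and
`s2 (s1 x) = q + (1 - ν) (x - q) ∈ K0` (convexity, `q ∈ K0`).
So for all sufficiently small `ν ≥ 0` the homothety of ratio `1 - ν` is realised on `K0` by an
element of `GU U` and maps `K0` to itself.  Given `μ`, take `N` large and `1 - ν = μ^(1/N)` and the
`N`-th power.
-/

namespace C715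

private theorem clamp_slope (A B A' B' e : ℝ) (h1 : A - e ≤ A') (h2 : -A - e ≤ -A')
    (h3 : B - e ≤ B') : max (-A) (min A B) - e ≤ max (-A') (min A' B') := by
  rw [← max_sub_sub_right, ← min_sub_sub_right]
  exact max_le_max h2 (min_le_min h1 h3)

private theorem clamp_eq (A B : ℝ) (h : |B| ≤ A) : max (-A) (min A B) = B := by
  have := abs_le.1 h
  rw [min_eq_right this.2, max_eq_right this.1]

private theorem stepOne (U K0 : Set P2) (hU : IsOpen U) (hK0 : IsCompact K0) (hKU : K0 ⊆ U)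
    (q : P2) : ∃ ν0 : ℝ, 0 < ν0 ∧ ∀ ν : ℝ, 0 ≤ ν → ν ≤ ν0 →
      ∃ r ∈ GU U, ∀ x ∈ K0, r x = q + (1 - ν) • (x - q) := by
  obtain ⟨η, hη, hηU⟩ := hK0.exists_cthickening_subset_open hU hKU
  set K1 := Metric.cthickening η K0 with hK1
  have hK1c : IsCompact K1 := hK0.cthickening
  have hK01 : K0 ⊆ K1 := Metric.self_subset_cthickening _
  obtain ⟨D, hD, hDK⟩ : ∃ D : ℝ, 0 < D ∧ ∀ x ∈ K1, ‖x - q‖ ≤ D := by
    obtain ⟨D, hD⟩ := hK1c.isBounded.subset_closedBall q
    refine ⟨max D 1, by positivity, fun x hx => ?_⟩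
    have := hD hx
    rw [Metric.mem_closedBall, dist_eq_norm] at this
    exact this.trans (le_max_left _ _)
  obtain ⟨β, hβ, hβ0, hβ1, K', hK', hK'U, hβK⟩ := bump U K1 hU hK1c hηU
  obtain ⟨C, hC, hLip⟩ := hβ.lipschitz
  refine ⟨min (1 / 2) (min (η / D) (1 / (2 * D * C))), by positivity, fun ν h0 hν => ?_⟩
  have hν1 : ν ≤ 1 / 2 := hν.trans (min_le_left _ _)
  have hν2 : ν * D ≤ η := by
    have := (hν.trans (min_le_right _ _)).trans (min_le_left _ _)
    rwa [le_div_iff₀ hD] at this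
  have hν3 : ν * D * C ≤ 1 / 2 := by
    have h5 := (hν.trans (min_le_right _ _)).trans (min_le_right _ _)
    rw [le_div_iff₀ (by positivity)] at h5
    linarith
  set A : P2 → ℝ := fun x => ν * D * β x with hA
  have hAl : ∀ x y, |A x - A y| ≤ 1 / 2 * dist x y := by
    intro x y
    have e1 : A x - A y = ν * D * (β x - β y) := by
      simp only [hA]
      ring
    rw [e1, abs_mul, abs_of_nonneg (by positivity)]
    calc ν * D * |β x - β y| ≤ ν * D * (C * dist x y) :=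
          mul_le_mul_of_nonneg_left (hLip x y) (by positivity)
      _ = ν * D * C * dist x y := by ring
      _ ≤ 1 / 2 * dist x y := mul_le_mul_of_nonneg_right hν3 dist_nonneg
  have hA1 : ∀ x ∈ K1, ν * D ≤ A x := by
    intro x hx
    simp only [hA]
    have h5 : ν * D * 1 ≤ ν * D * β x := mul_le_mul_of_nonneg_left (hβ1 x hx) (by positivity)
    linarith
  have hA0 : ∀ x, x ∉ K' → A x = 0 := by
    intro x hx
    simp only [hA]
    rw [hβK x hx, mul_zero]
  have hApl : IsPLf A := hβ.smul (ν * D)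
  obtain ⟨s1, hs1, e1⟩ := shear1 (fun x => max (-A x) (min (A x) (-ν * (x.1 - q.1))))
    (hApl.neg.max (hApl.min ((IsPLf.fst.sub (IsPLf.const q.1)).smul (-ν)))) U K' hK'U hK'
    (fun x hx => by simp [hA0 x hx])
    (fun y => strictMono_of_slope _ (1 / 2) (by norm_num) fun s t hst => by
      have h5 := hAl (t, y) (s, y)
      have h6 : dist ((t, y) : P2) (s, y) = t - s := by
        rw [Prod.dist_eq]
        simp only [dist_self]
        rw [Real.dist_eq, abs_of_pos (by linarith), max_eq_left (by linarith)]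
      rw [h6, abs_le] at h5
      have h7 := clamp_slope (A (s, y)) (-ν * (s - q.1)) (A (t, y)) (-ν * (t - q.1))
        (1 / 2 * (t - s)) (by linarith [h5.1]) (by linarith [h5.2]) (by nlinarith)
      simp only
      linarith)
  obtain ⟨s2, hs2, e2⟩ := shear2 (fun x => max (-A x) (min (A x) (-ν * (x.2 - q.2))))
    (hApl.neg.max (hApl.min ((IsPLf.snd.sub (IsPLf.const q.2)).smul (-ν)))) U K' hK'U hK'
    (fun x hx => by simp [hA0 x hx])
    (fun y => strictMono_of_slope _ (1 / 2) (by norm_num) fun s t hst => by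
      have h5 := hAl (y, t) (y, s)
      have h6 : dist ((y, t) : P2) (y, s) = t - s := by
        rw [Prod.dist_eq]
        simp only [dist_self]
        rw [Real.dist_eq, abs_of_pos (by linarith), max_eq_right (by linarith)]
      rw [h6, abs_le] at h5
      have h7 := clamp_slope (A (y, s)) (-ν * (s - q.2)) (A (y, t)) (-ν * (t - q.2))
        (1 / 2 * (t - s)) (by linarith [h5.1]) (by linarith [h5.2]) (by nlinarith)
      simp only
      linarith)
  refine ⟨s2 * s1, (GU U).mul_mem hs2 hs1, fun x hx => ?_⟩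
  have g0 := hDK x (hK01 hx)
  have g1 : |x.1 - q.1| ≤ D := (norm_fst_le (x - q)).trans g0
  have f1 : s1 x = (x.1 + -ν * (x.1 - q.1), x.2) := by
    rw [e1 x, clamp_eq]
    rw [abs_mul, abs_neg, abs_of_nonneg h0]
    exact (mul_le_mul_of_nonneg_left g1 h0).trans (hA1 x (hK01 hx))
  have f2 : s1 x ∈ K1 := by
    refine Metric.mem_cthickening_of_dist_le _ x _ _ hx ?_
    rw [f1, Prod.dist_eq]
    simp only [dist_self]
    rw [Real.dist_eq]
    have h5 : x.1 + -ν * (x.1 - q.1) - x.1 = -ν * (x.1 - q.1) := by ring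
    rw [h5, abs_mul, abs_neg, abs_of_nonneg h0]
    exact max_le ((mul_le_mul_of_nonneg_left g1 h0).trans hν2) hη.le
  have g2 : |(s1 x).2 - q.2| ≤ D := (norm_snd_le (s1 x - q)).trans (hDK _ f2)
  have f3 : s2 (s1 x) = ((s1 x).1, (s1 x).2 + -ν * ((s1 x).2 - q.2)) := by
    rw [e2, clamp_eq]
    rw [abs_mul, abs_neg, abs_of_nonneg h0]
    exact (mul_le_mul_of_nonneg_left g2 h0).trans (hA1 _ f2)
  rw [Equiv.Perm.mul_apply, f3, f1]
  refine Prod.ext ?_ ?_
  · simp only [Prod.fst_add, Prod.smul_fst, Prod.fst_sub, smul_eq_mul]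
    ring
  · simp only [Prod.snd_add, Prod.smul_snd, Prod.snd_sub, smul_eq_mul]
    ring

theorem shrink (U K : Set P2) (hU : IsOpen U) (hc : Convex ℝ U) (hK : IsCompact K) (hKU : K ⊆ U)
    (q : P2) (hq : q ∈ U) (μ : ℝ) (h0 : 0 < μ) (h1 : μ ≤ 1) :
    ∃ r ∈ GU U, ∀ x ∈ K, r x = q + μ • (x - q) := by
  set K0 : Set P2 := (fun p : P2 × ℝ => q + p.2 • (p.1 - q)) '' (K ×ˢ Set.Icc (0 : ℝ) 1) with hK0
  have hK0c : IsCompact K0 := (hK.prod isCompact_Icc).image (by fun_prop)
  have hK0U : K0 ⊆ U := by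
    rintro _ ⟨p, hp, rfl⟩
    have e4 : q + p.2 • (p.1 - q) = (1 - p.2) • q + p.2 • p.1 := by
      module
    simp only
    rw [e4]
    exact hc hq (hKU hp.1) (by linarith [hp.2.2]) hp.2.1 (by ring)
  have hK0v : ∀ x ∈ K0, ∀ c : ℝ, 0 ≤ c → c ≤ 1 → q + c • (x - q) ∈ K0 := by
    rintro _ ⟨p, hp, rfl⟩ c hc0 hc1
    refine ⟨(p.1, c * p.2), ⟨hp.1, mul_nonneg hc0 hp.2.1, mul_le_one₀ hc1 hp.2.1 hp.2.2⟩, ?_⟩
    simp only
    module
  have hKK : K ⊆ K0 := fun x hx => ⟨(x, 1), ⟨hx, by norm_num, le_rfl⟩, by simp⟩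
  obtain ⟨ν0, hν0, hstep⟩ := stepOne U K0 hU hK0c hK0U q
  set ν1 := min ν0 1 with hν1
  have hν1' : 0 < ν1 := lt_min hν0 one_pos
  have hν1'' : ν1 ≤ 1 := min_le_right _ _
  obtain ⟨N, hN⟩ := exists_pow_lt_of_lt_one h0 (show 1 - ν1 < 1 by linarith)
  have hN0 : N ≠ 0 := by
    rintro rfl
    simp at hN
    linarith
  set ρ : ℝ := μ ^ ((N : ℝ)⁻¹) with hρ
  have hρN : ρ ^ N = μ := Real.rpow_inv_natCast_pow h0.le hN0
  have hρ0 : 0 ≤ ρ := Real.rpow_nonneg h0.le _
  have hρ1 : ρ ≤ 1 := by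
    by_contra h2
    rw [not_le] at h2
    have := one_lt_pow₀ h2 hN0
    linarith
  have hρ2 : 1 - ν1 ≤ ρ := by
    by_contra h2
    rw [not_le] at h2
    have := pow_le_pow_left₀ hρ0 h2.le N
    linarith
  obtain ⟨s, hs, hsx⟩ := hstep (1 - ρ) (by linarith) (by
    have := min_le_left ν0 1
    linarith)
  rw [sub_sub_cancel] at hsx
  have key : ∀ k : ℕ, ∀ x ∈ K0, (s ^ k) x = q + (ρ ^ k) • (x - q) ∧ (s ^ k) x ∈ K0 := by
    intro k
    induction k with
    | zero =>
      intro x hx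
      refine ⟨by simp, by simpa using hx⟩
    | succ k ih =>
      intro x hx
      obtain ⟨e1, e2⟩ := ih x hx
      have e3 : (s ^ (k + 1)) x = q + (ρ ^ (k + 1)) • (x - q) := by
        rw [pow_succ', Equiv.Perm.mul_apply, hsx _ e2, e1, add_sub_cancel_left, smul_smul, pow_succ']
      refine ⟨e3, ?_⟩
      rw [e3]
      exact hK0v x hx _ (pow_nonneg hρ0 _) (pow_le_one₀ hρ0 hρ1)
  refine ⟨s ^ N, (GU U).pow_mem hs N, fun x hx => ?_⟩
  rw [(key N x (hKK hx)).1, hρN]

/-- a compact set goes into a small ball -/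
theorem shrink_ball (U K : Set P2) (hU : IsOpen U) (hc : Convex ℝ U) (hK : IsCompact K)
    (hKU : K ⊆ U) (q : P2) (hq : q ∈ U) (s : ℝ) (hs : 0 < s) :
    ∃ r ∈ GU U, ∀ x ∈ K, r x ∈ Metric.ball q s := by
  obtain ⟨D, hD, hDK⟩ : ∃ D : ℝ, 0 < D ∧ ∀ x ∈ K, ‖x - q‖ ≤ D := by
    obtain ⟨D, hD⟩ := hK.isBounded.subset_closedBall q
    refine ⟨max D 1, by positivity, fun x hx => ?_⟩
    have := hD hx
    rw [Metric.mem_closedBall, dist_eq_norm] at this
    exact this.trans (le_max_left _ _)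
  have hμ : 0 < min 1 (s / (2 * D)) := by positivity
  obtain ⟨r, hr, hrx⟩ := shrink U K hU hc hK hKU q hq (min 1 (s / (2 * D))) hμ (min_le_left _ _)
  refine ⟨r, hr, fun x hx => ?_⟩
  rw [hrx x hx, Metric.mem_ball, dist_eq_norm, add_sub_cancel_left, norm_smul, Real.norm_eq_abs,
    abs_of_pos hμ]
  calc min 1 (s / (2 * D)) * ‖x - q‖ ≤ (s / (2 * D)) * D :=
        mul_le_mul (min_le_right _ _) (hDK x hx) (norm_nonneg _) (by positivity)
    _ = s / 2 := by field_simp
    _ < s := by linarith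

end C715
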