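import Pool.Agent.Work.MP_c71557_gt.P.Push
import Pool.Agent.Work.MP_c71557_gt.P.Shrink
import Pool.Agent.Work.MP_c71557_gt.H.ConjIncl

set_option autoImplicit false
set_option linter.unusedVariables false

/-!
# MP_c71557_gt, module P/Frg: properties of the groups `E S` generated by fragments (S-M)

* `Frag_Nr`: `f` is the identity off `h '' K`, a compact (closed) set disjoint from `S`
  (`h '' K ⊆ h '' U`); its complement is an open set containing `S`.
* `E_le_Nr`: closure.
* `Frag_conj`: `g⁻¹ f g` with `h' = g⁻¹ h`, same `U`, `K`: `(g⁻¹ h) U` meets `S` in `x` implies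
  `g x ∈ h (U) ∩ S'`.  `E_conj`: closure induction (conjugation is a homomorphism).
* `Frag_nbhd`: choose a convex open `U'` with `K ⊆ U'`, `closure U'` compact and `⊆ U` (a thickening of
  `convexHull K`; if `K = ∅` take `U' = ∅`); `N` the complement of `h '' (closure U')`, open, contains `S`.
  If `S' ⊆ k '' N` then `(k h) '' U'` is disjoint from `S'`, and `k f k⁻¹` is the identity off
  `(k h) '' K`.
* `E_nbhd`: closure induction; intersect the neighbourhoods.
* `E_surj`: `conjIncl_surj` with `push`: `F ⊆ E a.set` finite, `N` the intersection of the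
  neighbourhoods of `E_nbhd`; `k ∈ E a.set` with `b.set ⊆ k '' N`.
* `Sq_push_into`: every square can be mapped into every other by an element of `Gc` (`shrink_ball` with
  `U = univ` to a small ball, then `shrink_ball` is also applied to move: choose `q` the centre of `b`).
-/

namespace C715

open CategoryTheory ActCat

open scoped Topology

/-- a convex open set between a compact set and a convex open set -/
private theorem frg_between (U K : Set P2) (hU : IsOpen U) (hc : Convex ℝ U) (hK : IsCompact K)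
    (hKU : K ⊆ U) : ∃ U' : Set P2, IsOpen U' ∧ Convex ℝ U' ∧ K ⊆ U' ∧ IsCompact (closure U') ∧
      closure U' ⊆ U := by
  classical
  have h1 : ∀ x ∈ K, ∃ u : Finset P2, x ∈ interior (convexHull ℝ (u : Set P2)) ∧
      convexHull ℝ (u : Set P2) ⊆ U := by
    intro x hx
    obtain ⟨u, h2, h3⟩ := (convex_singleton (𝕜 := ℝ) x).exists_subset_interior_convexHull_finset_of_isCompact
      isCompact_singleton (t := U) (hU.mem_nhdsSet.2 (Set.singleton_subset_iff.2 (hKU hx)))
    exact ⟨u, h2 rfl, h3⟩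
  choose! u hu1 hu2 using h1
  obtain ⟨t, ht1, ht2⟩ := hK.elim_nhds_subcover (fun x => interior (convexHull ℝ (u x : Set P2)))
    (fun x hx => isOpen_interior.mem_nhds (hu1 x hx))
  set v : Set P2 := ⋃ x ∈ t, (u x : Set P2) with hv
  have hvf : v.Finite := Set.Finite.biUnion t.finite_toSet fun x _ => (u x).finite_toSet
  have hcomp : IsCompact (convexHull ℝ v) := hvf.isCompact_convexHull ℝ
  have hsub : convexHull ℝ v ⊆ U := by
    refine convexHull_min (Set.iUnion₂_subset fun x hx => ?_) hc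
    exact (subset_convexHull ℝ _).trans (hu2 x (ht1 x hx))
  have hcl : closure (interior (convexHull ℝ v)) ⊆ convexHull ℝ v :=
    closure_minimal interior_subset hcomp.isClosed
  refine ⟨interior (convexHull ℝ v), isOpen_interior, (convex_convexHull ℝ v).interior, ?_,
    hcomp.of_isClosed_subset isClosed_closure hcl, hcl.trans hsub⟩
  intro x hx
  obtain ⟨y, hy, hxy⟩ := Set.mem_iUnion₂.1 (ht2 hx)
  refine interior_mono (convexHull_mono ?_) hxy
  exact Set.subset_biUnion_of_mem (u := fun x => (u x : Set P2)) hy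

theorem Frag_Nr {S : Set P2} {f : Equiv.Perm P2} (h : Frag S f) : f ∈ Nr S := by
  obtain ⟨hf, k, hk, U, K, hU, hc, hK, hKU, h1, h2⟩ := h
  refine ⟨hf, ?_⟩
  have h3 : IsOpen ((k '' K)ᶜ) := (hK.image (Gc_cont hk)).isClosed.isOpen_compl
  have h4 : S ⊆ (k '' K)ᶜ := by
    intro x hx hx'
    exact Set.disjoint_left.1 h2 (Set.image_mono hKU hx') hx
  filter_upwards [h3.mem_nhdsSet.2 h4] with x hx
  exact h1 x hx

theorem E_le_Nr (S : Set P2) : E S ≤ Nr S := (Subgroup.closure_le _).2 fun _ h => Frag_Nr h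

theorem Frag_conj {S S' : Set P2} {g f : Equiv.Perm P2} (hg : g ∈ Gc) (hS : Set.MapsTo g S S')
    (hf : Frag S' f) : Frag S (g⁻¹ * f * g) := by
  obtain ⟨hf, k, hk, U, K, hU, hc, hK, hKU, h1, h2⟩ := hf
  refine ⟨Gc.mul_mem (Gc.mul_mem (Gc.inv_mem hg) hf) hg, g⁻¹ * k, Gc.mul_mem (Gc.inv_mem hg) hk,
    U, K, hU, hc, hK, hKU, fun x hx => ?_, ?_⟩
  · have h3 : g x ∉ k '' K := by
      rintro ⟨y, hy, e⟩
      apply hx
      refine ⟨y, hy, ?_⟩
      rw [Equiv.Perm.mul_apply, e]
      exact g.symm_apply_apply x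
    rw [Equiv.Perm.mul_apply, Equiv.Perm.mul_apply, h1 _ h3]
    exact g.symm_apply_apply x
  · rw [Set.disjoint_left]
    rintro _ ⟨y, hy, rfl⟩ hx
    refine Set.disjoint_left.1 h2 ⟨y, hy, rfl⟩ ?_
    have h3 := hS hx
    rw [Equiv.Perm.mul_apply] at h3
    have h4 : g (g⁻¹ (k y)) = k y := g.apply_symm_apply _
    rwa [h4] at h3

theorem E_conj {S S' : Set P2} {g n : Equiv.Perm P2} (hg : g ∈ Gc) (hS : Set.MapsTo g S S')
    (hn : n ∈ E S') : g⁻¹ * n * g ∈ E S := by
  have h1 : E S' ≤ (E S).comap (MulAut.conj g⁻¹).toMonoidHom := by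
    refine (Subgroup.closure_le _).2 fun f hf => ?_
    rw [SetLike.mem_coe, Subgroup.mem_comap]
    have h2 := (Frag_conj hg hS hf).mem
    simpa using h2
  have h3 := h1 hn
  rw [Subgroup.mem_comap] at h3
  simpa using h3

theorem E_nbhd {S : Set P2} (hS : IsCompact S) {f : Equiv.Perm P2} (h : f ∈ E S) :
    ∃ N : Set P2, IsOpen N ∧ S ⊆ N ∧
      ∀ (k : Equiv.Perm P2) (S' : Set P2), k ∈ Gc → S' ⊆ k '' N → k * f * k⁻¹ ∈ E S' := by
  refine Subgroup.closure_induction (p := fun f _ => ∃ N : Set P2, IsOpen N ∧ S ⊆ N ∧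
      ∀ (k : Equiv.Perm P2) (S' : Set P2), k ∈ Gc → S' ⊆ k '' N → k * f * k⁻¹ ∈ E S')
    ?_ ?_ ?_ ?_ h
  · rintro f ⟨hf, k0, hk0, U, K, hU, hc, hK, hKU, h1, h2⟩
    obtain ⟨U', hU', hc', hKU', hcomp, hcl⟩ := frg_between U K hU hc hK hKU
    refine ⟨(k0 '' closure U')ᶜ, (hcomp.image (Gc_cont hk0)).isClosed.isOpen_compl, ?_, ?_⟩
    · intro x hx hx'
      exact Set.disjoint_left.1 h2 (Set.image_mono hcl hx') hx
    · intro k S' hk hS'
      refine Frag.mem ⟨Gc.mul_mem (Gc.mul_mem hk hf) (Gc.inv_mem hk), k * k0, Gc.mul_mem hk hk0,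
        U', K, hU', hc', hK, hKU', fun x hx => ?_, ?_⟩
      · have h3 : k⁻¹ x ∉ k0 '' K := by
          rintro ⟨y, hy, e⟩
          apply hx
          refine ⟨y, hy, ?_⟩
          rw [Equiv.Perm.mul_apply, e]
          exact k.apply_symm_apply x
        rw [Equiv.Perm.mul_apply, Equiv.Perm.mul_apply, h1 _ h3]
        exact k.apply_symm_apply x
      · rw [Set.disjoint_left]
        rintro _ ⟨y, hy, rfl⟩ hx
        obtain ⟨z, hz, e⟩ := hS' hx
        rw [Equiv.Perm.mul_apply] at e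
        have e' := k.injective e
        rw [e'] at hz
        exact hz ⟨y, subset_closure hy, rfl⟩
  · refine ⟨Set.univ, isOpen_univ, Set.subset_univ _, fun k S' _ _ => ?_⟩
    rw [mul_one, mul_inv_cancel]
    exact (E S').one_mem
  · rintro f g _ _ ⟨N, hN, hSN, h1⟩ ⟨N', hN', hSN', h2⟩
    refine ⟨N ∩ N', hN.inter hN', Set.subset_inter hSN hSN', fun k S' hk hS' => ?_⟩
    have h3 : k * (f * g) * k⁻¹ = (k * f * k⁻¹) * (k * g * k⁻¹) := by group
    rw [h3]
    exact (E S').mul_mem (h1 k S' hk (hS'.trans (Set.image_mono Set.inter_subset_left)))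
      (h2 k S' hk (hS'.trans (Set.image_mono Set.inter_subset_right)))
  · rintro f _ ⟨N, hN, hSN, h1⟩
    refine ⟨N, hN, hSN, fun k S' hk hS' => ?_⟩
    have h3 : k * f⁻¹ * k⁻¹ = (k * f * k⁻¹)⁻¹ := by group
    rw [h3]
    exact (E S').inv_mem (h1 k S' hk hS')

theorem E_anti {S S' : Set P2} (h : S ⊆ S') : E S' ≤ E S := by
  refine Subgroup.closure_mono ?_
  rintro f ⟨hf, k, hk, U, K, hU, hc, hK, hKU, h1, h2⟩
  exact ⟨hf, k, hk, U, K, hU, hc, hK, hKU, h1, h2.mono_right h⟩

theorem E_surj (a b : Sq) (h : a.set ⊆ b.set) (n : ℕ) :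
    Function.Surjective (HCmap (sgIncl (E_anti h)) n) := by
  refine conjIncl_surj (E_anti h) (fun F hF hFL => ?_) n
  have hcomp : IsCompact a.set := isCompact_closedBall _ _
  have h1 : ∀ f ∈ F, ∃ N : Set P2, IsOpen N ∧ a.set ⊆ N ∧
      ∀ (k : Equiv.Perm P2) (S' : Set P2), k ∈ Gc → S' ⊆ k '' N → k * f * k⁻¹ ∈ E S' :=
    fun f hf => E_nbhd hcomp (hFL hf)
  choose! N hN1 hN2 hN3 using h1
  obtain ⟨k, hk, hk'⟩ := push a b (⋂ f ∈ F, N f) (hF.isOpen_biInter hN1)
    (Set.subset_iInter₂ hN2) h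
  refine ⟨k, hk, fun f hf => hN3 f hf k b.set (E_le_Gc _ hk) (hk'.trans (Set.image_mono ?_))⟩
  exact Set.biInter_subset_of_mem hf

/-- elements with compact support in a convex open set disjoint from `S` are fragments -/
theorem GU_le_E (U S : Set P2) (hU : IsOpen U) (hc : Convex ℝ U) (h : Disjoint U S) :
    GU U ≤ E S := by
  rintro g ⟨hg, K, hKU, hK, h1⟩
  refine Frag.mem ⟨hg, 1, Gc.one_mem, U, K, hU, hc, hK, hKU, fun x hx => h1 x ?_, ?_⟩
  · intro hx'
    exact hx ⟨x, hx', rfl⟩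
  · have h2 : (1 : Equiv.Perm P2) '' U = U := by
      rw [Equiv.Perm.coe_one, Set.image_id]
    rw [h2]
    exact h

theorem Sq_into (a b : Sq) : ∃ g ∈ Gc, Set.MapsTo g a.set b.set := by
  obtain ⟨r, hr, h1⟩ := shrink_ball Set.univ a.set isOpen_univ convex_univ
    (isCompact_closedBall _ _) (Set.subset_univ _) b.1.1 (Set.mem_univ _) b.1.2 b.2
  exact ⟨r, GU_le _ hr, fun x hx => Metric.ball_subset_closedBall (h1 x hx)⟩

/-- every element of `Gc` has its support in some square containing a given one -/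
theorem Sq_supp (a : Sq) (F : Set (Equiv.Perm P2)) (hF : F.Finite) (h : F ⊆ Gc) :
    ∃ b : Sq, a.set ⊆ b.set ∧ ∀ f ∈ F, ∀ x, x ∉ b.set → f x = x := by
  have h1 : ∀ f ∈ F, ∃ R : ℝ, ∀ x : P2, R ≤ ‖x‖ → f x = x := fun f hf => (h hf).2
  choose! R hR using h1
  obtain ⟨B, hB⟩ := (hF.image R).bddAbove
  refine ⟨⟨(0, max B (max (‖a.1.1‖ + a.1.2) 1)), lt_max_of_lt_right (lt_max_of_lt_right one_pos)⟩,
    ?_, fun f hf x hx => hR f hf x ?_⟩
  · intro x hx
    have h2 : dist x a.1.1 ≤ a.1.2 := hx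
    refine Metric.mem_closedBall.2 ?_
    rw [dist_zero_right]
    refine le_trans ?_ ((le_max_left _ _).trans (le_max_right _ _))
    rw [dist_eq_norm] at h2
    have h3 : ‖x‖ ≤ ‖x - a.1.1‖ + ‖a.1.1‖ := by
      simpa using norm_add_le (x - a.1.1) a.1.1
    linarith
  · have h2 : ¬ dist x 0 ≤ max B (max (‖a.1.1‖ + a.1.2) 1) := hx
    rw [dist_zero_right, not_le] at h2
    exact (hB ⟨f, hf, rfl⟩).trans ((le_max_left _ _).trans h2.le)

/-- if `g` is supported in `b` and `n` is the identity near `b` then they commute -/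
theorem comm_of_supp (b : Sq) (g n : Equiv.Perm P2) (hg : ∀ x, x ∉ b.set → g x = x)
    (hn : n ∈ Nr b.set) : g * n = n * g := by
  have h1 : ∀ x ∈ b.set, n x = x := fun x hx => (Filter.Eventually.self_of_nhdsSet hn.2) x hx
  ext1 x
  rw [Equiv.Perm.mul_apply, Equiv.Perm.mul_apply]
  by_cases hx : x ∈ b.set
  · have h2 : g x ∈ b.set := by
      by_contra h3
      have h4 := g.injective (hg _ h3)
      rw [h4] at h3
      exact h3 hx
    rw [h1 x hx, h1 _ h2]
  · have h2 : n x ∉ b.set := by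
      intro h3
      have h4 := n.injective (h1 _ h3)
      rw [h4] at h3
      exact hx h3
    rw [hg x hx, hg _ h2]

end C715
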