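import Pool.Agent.Work.MP_c71557_gt.P.Defs
import Pool.Agent.Work.MP_c71557_gt.H.Defs6

set_option autoImplicit false
set_option linter.unusedVariables false

/-!
# MP_c71557_gt, block P: subgroups of `Gc`, squares, fragments

`GU U`: elements of `Gc` supported in a compact subset of `U`.  `Nr S`: elements of `Gc` which are the
identity near `S`.  `Frag S f`: `f ∈ Gc` is supported in `h (K)`, `K` compact in the convex open `U`,
`h ∈ Gc`, `h (U)` disjoint from `S`.  `E S`: generated by the fragments.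
-/

namespace C715

open CategoryTheory

open scoped Topology

/-- elements of `Gc` supported in a compact subset of `U` -/
def GU (U : Set P2) : Subgroup (Equiv.Perm P2) where
  carrier := {g | g ∈ Gc ∧ ∃ K : Set P2, K ⊆ U ∧ IsCompact K ∧ ∀ x, x ∉ K → g x = x}
  mul_mem' := by
    rintro g h ⟨hg, K, hKU, hK, h1⟩ ⟨hh, L, hLU, hL, h2⟩
    refine ⟨Gc.mul_mem hg hh, K ∪ L, Set.union_subset hKU hLU, hK.union hL, fun x hx => ?_⟩
    rw [Equiv.Perm.mul_apply, h2 x (fun h => hx (Or.inr h)), h1 x (fun h => hx (Or.inl h))]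
  one_mem' := ⟨Gc.one_mem, ∅, Set.empty_subset _, isCompact_empty, fun _ _ => rfl⟩
  inv_mem' := by
    rintro g ⟨hg, K, hKU, hK, h1⟩
    refine ⟨Gc.inv_mem hg, K, hKU, hK, fun x hx => ?_⟩
    rw [Equiv.Perm.inv_eq_iff_eq, h1 x hx]

theorem GU_le (U : Set P2) : GU U ≤ Gc := fun _ h => h.1

theorem GU_mono {U V : Set P2} (h : U ⊆ V) : GU U ≤ GU V :=
  fun _ ⟨hg, K, hKU, hK, h1⟩ => ⟨hg, K, hKU.trans h, hK, h1⟩

theorem GU_univ : GU Set.univ = Gc := by
  refine le_antisymm (GU_le _) fun g hg => ⟨hg, ?_⟩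
  obtain ⟨R, hR⟩ := hg.2
  refine ⟨Metric.closedBall 0 R, Set.subset_univ _, isCompact_closedBall _ _, fun x hx => hR x ?_⟩
  rw [Metric.mem_closedBall, dist_zero_right, not_le] at hx
  exact hx.le

/-- elements of `Gc` are continuous -/
theorem Gc_cont {g : Equiv.Perm P2} (h : g ∈ Gc) : Continuous g := h.1.1.cont

/-- elements of `Gc` are homeomorphisms -/
theorem Gc_cont_symm {g : Equiv.Perm P2} (h : g ∈ Gc) : Continuous g.symm := h.1.2.cont

theorem tendsto_nhdsSet_of_mapsTo {g : P2 → P2} (hg : Continuous g) {S T : Set P2}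
    (h : Set.MapsTo g S T) : Filter.Tendsto g (𝓝ˢ S) (𝓝ˢ T) := by
  intro W hW
  rw [mem_nhdsSet_iff_exists] at hW
  obtain ⟨V, hV, hTV, hVW⟩ := hW
  refine Filter.mem_map.2 (mem_nhdsSet_iff_exists.2
    ⟨g ⁻¹' V, hV.preimage hg, fun x hx => hTV (h hx), fun x hx => hVW hx⟩)

/-- elements of `Gc` which are the identity near `S` -/
def Nr (S : Set P2) : Subgroup (Equiv.Perm P2) where
  carrier := {g | g ∈ Gc ∧ ∀ᶠ x in 𝓝ˢ S, g x = x}
  mul_mem' := by
    rintro g h ⟨hg, h1⟩ ⟨hh, h2⟩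
    refine ⟨Gc.mul_mem hg hh, ?_⟩
    filter_upwards [h1, h2] with x e1 e2
    rw [Equiv.Perm.mul_apply, e2, e1]
  one_mem' := ⟨Gc.one_mem, Filter.Eventually.of_forall fun _ => rfl⟩
  inv_mem' := by
    rintro g ⟨hg, h1⟩
    refine ⟨Gc.inv_mem hg, ?_⟩
    filter_upwards [h1] with x e1
    rw [Equiv.Perm.inv_eq_iff_eq, e1]

theorem Nr_le (S : Set P2) : Nr S ≤ Gc := fun _ h => h.1

theorem Nr_conj {S S' : Set P2} {g n : Equiv.Perm P2} (hg : g ∈ Gc) (hS : Set.MapsTo g S S')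
    (hn : n ∈ Nr S') : g⁻¹ * n * g ∈ Nr S := by
  refine ⟨Gc.mul_mem (Gc.mul_mem (Gc.inv_mem hg) hn.1) hg, ?_⟩
  filter_upwards [(tendsto_nhdsSet_of_mapsTo (Gc_cont hg) hS).eventually hn.2] with x e1
  rw [Equiv.Perm.mul_apply, Equiv.Perm.mul_apply, e1]
  exact g.symm_apply_apply x

/-- fragments off `S` -/
def Frag (S : Set P2) (f : Equiv.Perm P2) : Prop :=
  f ∈ Gc ∧ ∃ h ∈ Gc, ∃ U K : Set P2, IsOpen U ∧ Convex ℝ U ∧ IsCompact K ∧ K ⊆ U ∧
    (∀ x, x ∉ h '' K → f x = x) ∧ Disjoint (h '' U) S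

/-- the group generated by the fragments off `S` -/
def E (S : Set P2) : Subgroup (Equiv.Perm P2) := Subgroup.closure {f | Frag S f}

theorem Frag.mem {S : Set P2} {f : Equiv.Perm P2} (h : Frag S f) : f ∈ E S :=
  Subgroup.subset_closure h

theorem E_le_Gc (S : Set P2) : E S ≤ Gc := (Subgroup.closure_le _).2 fun _ h => h.1

/-- closed squares -/
abbrev Sq : Type := {a : P2 × ℝ // 0 < a.2}

/-- the underlying set of a square -/
def Sq.set (a : Sq) : Set P2 := Metric.closedBall a.1.1 a.1.2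

/-- squares, elements of `Gc` -/
def DG : ActCat (Equiv.Perm P2) where
  Ob := Sq
  Adm a g b := g ∈ Gc ∧ Set.MapsTo g a.set b.set
  N _ := ⊥
  one a := ⟨Gc.one_mem, fun _ h => h⟩
  mul := fun {a b c g h} hg hh => ⟨Gc.mul_mem hh.1 hg.1, fun x hx => hh.2 (hg.2 hx)⟩
  nAdm := fun {a n} hn => by
    rw [Subgroup.mem_bot] at hn
    subst hn
    exact ⟨Gc.one_mem, fun _ h => h⟩
  conj := fun {a b g n} hg hn => by
    rw [Subgroup.mem_bot] at hn ⊢
    subst hn
    group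

/-- properties of the groups of germs with winding number zero -/
structure IsWind (A0 : Set P2 → Subgroup (Equiv.Perm P2)) : Prop where
  le : ∀ a : Sq, A0 a.set ≤ Nr a.set
  conj : ∀ (a b : Sq) (g n : Equiv.Perm P2), g ∈ Gc → Set.MapsTo g a.set b.set → n ∈ A0 b.set →
    g⁻¹ * n * g ∈ A0 a.set
  frag : ∀ (a : Sq) (f : Equiv.Perm P2), Frag a.set f → f ∈ A0 a.set
  up : ∀ (a b : Sq) (n : Equiv.Perm P2), a.set ⊆ b.set → n ∈ Nr b.set → n ∈ A0 a.set →
    n ∈ A0 b.set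

theorem IsWind.adm {A0 : Set P2 → Subgroup (Equiv.Perm P2)} (h : IsWind A0) {a : Sq}
    {n : Equiv.Perm P2} (hn : n ∈ A0 a.set) : DG.Adm a n a := by
  have h1 := h.le a hn
  refine ⟨h1.1, fun x hx => ?_⟩
  have h2 : n x = x := (Filter.Eventually.self_of_nhdsSet h1.2) x hx
  rw [h2]
  exact hx

/-- squares, germs with winding number zero -/
abbrev V0 (A0 : Set P2 → Subgroup (Equiv.Perm P2)) (h : IsWind A0) : ActCat (Equiv.Perm P2) :=
  DG.enl (fun a => A0 a.set) (fun hn => h.adm hn) (fun hg hn => h.conj _ _ _ _ hg.1 hg.2 hn)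

end C715
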