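import Pool.Agent.Work.MP_c71557_gt.P.Alg
import Pool.Agent.Work.MP_c71557_gt.P.Defs2

set_option autoImplicit false
set_option linter.unusedVariables false

/-!
# MP_c71557_gt, module P/Inv: the inverse of a PL homeomorphism is PL (M)

* `PLH_of`: `g : Perm P2` piecewise affine with continuous inverse; then `g⁻¹` is piecewise affine.
PROOF.  Let `S`, `S'` be the finite sets of affine functions of the two components; for
`(m, n) ∈ S × S'` put `F m n = {x | g x = (m.ev x, n.ev x)}`, closed; these sets cover the plane.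
Call `(m, n)` regular if `m.a * n.b - m.b * n.a ≠ 0`.  CLAIM: the regular `F m n` cover the plane.
Otherwise the complement `W` of their (closed) union is a nonempty open set covered by the finitely
many singular closed sets; one of them, `F m n`, has an interior point `x` (Baire; or: a finite union of
closed sets with empty interior has empty interior), i.e. `g = (m.ev, n.ev)` on a ball around
`x`; `(m, n)` singular gives `v ≠ 0` with `m.lin v = n.lin v = 0` (`L3.lin`), so
`g (x + t v) = g x` for small `t > 0`, contradiction with injectivity.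
So for all `y`, with `x = g⁻¹ y`, some regular `(m, n)` has `y = (m.ev x, n.ev x)`, hence
`x = (m'.ev y, n'.ev y)` with the inverse affine map `(m', n')` of `(m, n)` (Cramer).
* `Gc_of`: compact support: the inverse is continuous: `g` is continuous, bijective, and proper
(`g = id` outside a ball; `g` maps closed sets to closed sets: `C = (C ∩ ball) ∪ (C \ open ball)`, the
first is compact, the second is fixed pointwise).
-/

namespace C715

private noncomputable def iv1 (m n : L3) : L3 :=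
  ⟨n.b / (m.a * n.b - m.b * n.a), -m.b / (m.a * n.b - m.b * n.a),
    (m.b * n.c - n.b * m.c) / (m.a * n.b - m.b * n.a)⟩

private noncomputable def iv2 (m n : L3) : L3 :=
  ⟨-n.a / (m.a * n.b - m.b * n.a), m.a / (m.a * n.b - m.b * n.a),
    (n.a * m.c - m.a * n.c) / (m.a * n.b - m.b * n.a)⟩

private theorem iv_spec (m n : L3) (h : m.a * n.b - m.b * n.a ≠ 0) (x : P2) :
    (iv1 m n).ev (m.ev x, n.ev x) = x.1 ∧ (iv2 m n).ev (m.ev x, n.ev x) = x.2 := by
  constructor
  · simp only [L3.ev, iv1]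
    set D := m.a * n.b - m.b * n.a with hD
    have h2 : n.b / D * (m.a * x.1 + m.b * x.2 + m.c) + -m.b / D * (n.a * x.1 + n.b * x.2 + n.c) +
        (m.b * n.c - n.b * m.c) / D = D * x.1 / D := by
      rw [hD]
      ring
    rw [h2, mul_div_cancel_left₀ _ h]
  · simp only [L3.ev, iv2]
    set D := m.a * n.b - m.b * n.a with hD
    have h2 : -n.a / D * (m.a * x.1 + m.b * x.2 + m.c) + m.a / D * (n.a * x.1 + n.b * x.2 + n.c) +
        (n.a * m.c - m.a * n.c) / D = D * x.2 / D := by
      rw [hD]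
      ring
    rw [h2, mul_div_cancel_left₀ _ h]

private theorem L3.ev_cont (l : L3) : Continuous l.ev := by
  unfold L3.ev
  fun_prop

private theorem int_fin {ι : Type} (T : Set ι) (hT : T.Finite) (F : ι → Set P2)
    (hc : ∀ t, IsClosed (F t)) (hi : ∀ t ∈ T, interior (F t) = ∅) :
    interior (⋃ t ∈ T, F t) = ∅ := by
  induction T, hT using Set.Finite.induction_on with
  | empty => simp
  | @insert a s ha hs ih =>
    rw [Set.biUnion_insert]
    rw [interior_union_isClosed_of_interior_empty (hc a) (ih fun t ht => hi t (Or.inr ht))]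
    exact hi a (Or.inl rfl)

private theorem ker_ex (m n : L3) (h : m.a * n.b - m.b * n.a = 0) :
    ∃ v : P2, v ≠ 0 ∧ m.a * v.1 + m.b * v.2 = 0 ∧ n.a * v.1 + n.b * v.2 = 0 := by
  by_cases h1 : ((m.b, -m.a) : P2) = 0
  · rw [Prod.mk_eq_zero] at h1
    obtain ⟨e1, e2⟩ := h1
    have e3 : m.a = 0 := neg_eq_zero.1 e2
    by_cases h2 : ((n.b, -n.a) : P2) = 0
    · rw [Prod.mk_eq_zero] at h2
      obtain ⟨e4, e5⟩ := h2
      have e6 : n.a = 0 := neg_eq_zero.1 e5
      refine ⟨(1, 0), by simp, ?_, ?_⟩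
      · simp [e1, e3]
      · simp [e4, e6]
    · refine ⟨_, h2, ?_, ?_⟩
      · simp [e1, e3]
      · simp only
        ring
  · refine ⟨_, h1, ?_, ?_⟩
    · simp only
      ring
    · simp only
      linarith

private theorem sing_int (g : P2 → P2) (hg : Function.Injective g) (m n : L3)
    (h : m.a * n.b - m.b * n.a = 0) : interior {x | g x = (m.ev x, n.ev x)} = ∅ := by
  rw [Set.eq_empty_iff_forall_notMem]
  intro x hx
  obtain ⟨v, hv, h1, h2⟩ := ker_ex m n h
  have hx' : ∀ᶠ y in nhds x, g y = (m.ev y, n.ev y) := mem_interior_iff_mem_nhds.1 hx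
  have hc : Filter.Tendsto (fun t : ℝ => x + t • v) (nhds 0) (nhds x) := by
    have : Continuous (fun t : ℝ => x + t • v) := by fun_prop
    have h3 := this.tendsto 0
    simpa using h3
  have h4 : ∀ᶠ t in nhds (0 : ℝ), g (x + t • v) = (m.ev (x + t • v), n.ev (x + t • v)) :=
    hc.eventually hx'
  have h5 : ∀ᶠ t in nhdsWithin (0 : ℝ) (Set.Ioi 0),
      g (x + t • v) = (m.ev (x + t • v), n.ev (x + t • v)) := h4.filter_mono nhdsWithin_le_nhds
  obtain ⟨t, ht, ht0⟩ := (h5.and self_mem_nhdsWithin).exists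
  have ht0' : (0 : ℝ) < t := ht0
  have e1 : m.ev (x + t • v) = m.ev x := by
    simp only [L3.ev, Prod.fst_add, Prod.snd_add, Prod.smul_fst, Prod.smul_snd, smul_eq_mul]
    linear_combination t * h1
  have e2 : n.ev (x + t • v) = n.ev x := by
    simp only [L3.ev, Prod.fst_add, Prod.snd_add, Prod.smul_fst, Prod.smul_snd, smul_eq_mul]
    linear_combination t * h2
  have e3 : g x = (m.ev x, n.ev x) := hx'.self_of_nhds
  rw [e1, e2, ← e3] at ht
  have e4 := hg ht
  have e5 : t • v = 0 := by simpa using e4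
  rcases smul_eq_zero.1 e5 with h6 | h6
  · exact ht0'.ne' h6
  · exact hv h6

theorem PLH_of (g : Equiv.Perm P2) (hg : IsPL g) (hc : Continuous g.symm) : g ∈ PLH := by
  refine ⟨hg, ?_⟩
  have hgc := hg.cont
  obtain ⟨⟨_, S, hS, h1⟩, ⟨_, S', hS', h2⟩⟩ := hg
  set F : L3 × L3 → Set P2 := fun t => {x | g x = (t.1.ev x, t.2.ev x)} with hF
  have hFc : ∀ t, IsClosed (F t) := fun t =>
    isClosed_eq hgc ((L3.ev_cont t.1).prodMk (L3.ev_cont t.2))
  have key : ∀ x, ∃ t ∈ S ×ˢ S', t.1.a * t.2.b - t.1.b * t.2.a ≠ 0 ∧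
      g x = (t.1.ev x, t.2.ev x) := by
    by_contra hcon
    push Not at hcon
    obtain ⟨x0, hx0⟩ := hcon
    set R : Set (L3 × L3) := {t | t ∈ S ×ˢ S' ∧ t.1.a * t.2.b - t.1.b * t.2.a ≠ 0} with hR
    set Q : Set (L3 × L3) := {t | t ∈ S ×ˢ S' ∧ t.1.a * t.2.b - t.1.b * t.2.a = 0} with hQ
    have hRf : R.Finite := (hS.prod hS').subset fun t ht => ht.1
    have hQf : Q.Finite := (hS.prod hS').subset fun t ht => ht.1
    have hRc : IsClosed (⋃ t ∈ R, F t) := hRf.isClosed_biUnion fun t _ => hFc t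
    have hQi : interior (⋃ t ∈ Q, F t) = ∅ :=
      int_fin Q hQf F hFc fun t ht => sing_int g g.injective t.1 t.2 ht.2
    have hsub : (⋃ t ∈ R, F t)ᶜ ⊆ ⋃ t ∈ Q, F t := by
      intro x hx
      obtain ⟨m, hm, e1⟩ := h1 x
      obtain ⟨n, hn, e2⟩ := h2 x
      have e3 : x ∈ F (m, n) := Prod.ext e1 e2
      by_cases hd : m.a * n.b - m.b * n.a = 0
      · exact Set.mem_biUnion (show (m, n) ∈ Q from ⟨⟨hm, hn⟩, hd⟩) e3
      · exact absurd (Set.mem_biUnion (show (m, n) ∈ R from ⟨⟨hm, hn⟩, hd⟩) e3) hx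
    have h3 : (⋃ t ∈ R, F t)ᶜ ⊆ interior (⋃ t ∈ Q, F t) :=
      interior_maximal hsub hRc.isOpen_compl
    rw [hQi] at h3
    refine h3 (show x0 ∈ (⋃ t ∈ R, F t)ᶜ from ?_)
    intro hx
    obtain ⟨t, ht, hxt⟩ := Set.mem_iUnion₂.1 hx
    exact hx0 t ht.1 ht.2 hxt
  constructor
  · refine ⟨continuous_fst.comp hc, (fun t : L3 × L3 => iv1 t.1 t.2) '' (S ×ˢ S'),
      (hS.prod hS').image _, fun y => ?_⟩
    obtain ⟨t, ht, hd, e⟩ := key (g.symm y)
    refine ⟨_, ⟨t, ht, rfl⟩, ?_⟩
    rw [Equiv.apply_symm_apply] at e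
    have := (iv_spec t.1 t.2 hd (g.symm y)).1
    rw [← e] at this
    exact this.symm
  · refine ⟨continuous_snd.comp hc, (fun t : L3 × L3 => iv2 t.1 t.2) '' (S ×ˢ S'),
      (hS.prod hS').image _, fun y => ?_⟩
    obtain ⟨t, ht, hd, e⟩ := key (g.symm y)
    refine ⟨_, ⟨t, ht, rfl⟩, ?_⟩
    rw [Equiv.apply_symm_apply] at e
    have := (iv_spec t.1 t.2 hd (g.symm y)).2
    rw [← e] at this
    exact this.symm

theorem symm_cont_of_bdd (g : Equiv.Perm P2) (hg : Continuous g) (R : ℝ)
    (h : ∀ x : P2, R ≤ ‖x‖ → g x = x) : Continuous g.symm := by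
  rw [continuous_iff_isClosed]
  intro C hC
  rw [← Equiv.image_eq_preimage_symm]
  have h1 : C = (C ∩ Metric.closedBall 0 R) ∪ (C ∩ {x | R ≤ ‖x‖}) := by
    ext x
    constructor
    · intro hx
      rcases le_total ‖x‖ R with h2 | h2
      · exact Or.inl ⟨hx, by simpa using h2⟩
      · exact Or.inr ⟨hx, h2⟩
    · rintro (hx | hx)
      · exact hx.1
      · exact hx.1
  rw [h1, Set.image_union]
  refine IsClosed.union ?_ ?_
  · exact (((isCompact_closedBall (0 : P2) R).inter_left hC).image hg).isClosed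
  · have h2 : g '' (C ∩ {x | R ≤ ‖x‖}) = C ∩ {x | R ≤ ‖x‖} := by
      ext x
      constructor
      · rintro ⟨y, hy, rfl⟩
        rw [h y hy.2]
        exact hy
      · intro hx
        exact ⟨x, hx, h x hx.2⟩
    rw [h2]
    exact hC.inter (isClosed_le continuous_const continuous_norm)

theorem Gc_of (g : Equiv.Perm P2) (hg : IsPL g) (R : ℝ) (h : ∀ x : P2, R ≤ ‖x‖ → g x = x) :
    g ∈ Gc :=
  ⟨PLH_of g hg (symm_cont_of_bdd g hg.cont R h), R, h⟩

/-- the same with a compact set -/
theorem GU_of (g : Equiv.Perm P2) (hg : IsPL g) (U K : Set P2) (hKU : K ⊆ U) (hK : IsCompact K)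
    (h : ∀ x, x ∉ K → g x = x) : g ∈ GU U := by
  obtain ⟨R, hR⟩ := hK.isBounded.subset_ball (0 : P2)
  refine ⟨Gc_of g hg R fun x hx => h x fun hxK => ?_, K, hKU, hK, h⟩
  have h1 := hR hxK
  rw [Metric.mem_ball, dist_zero_right] at h1
  exact absurd hx (not_le.2 h1)

end C715
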