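import Pool.Agent.Work.MP_c71557_gt.P.Shrink
import Pool.Agent.Work.MP_c71557_gt.H.ConjIncl

set_option autoImplicit false
set_option linter.unusedVariables false

/-!
# MP_c71557_gt, module P/Incl: `GU U → GU V` is a homology isomorphism (S-M)

`U ⊆ V` nonempty convex open sets.  `conjIncl_hiso`: let `F0 ⊆ GU U`, `F ⊆ GU V` be finite; `K0 ⊆ U`
compact such that all `f ∈ F0` are the identity off `K0`, `K1 ⊆ V` compact with the same property
for `F`; `q ∈ U`; `s > 0` with `closedBall q s ⊆ U`; `0 < μ ≤ 1` with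
`q + μ (x - q) ∈ closedBall q s` for all `x ∈ K1`.  `shrink` gives `k ∈ GU V` equal to
`h x = q + μ (x - q)` on `K0 ∪ K1` and `k' ∈ GU U` equal to `h` on `K0`.  Put `g = k'⁻¹ k ∈ GU V`.
* `g` commutes with `f ∈ F0`: `k f k⁻¹ = k' f k'⁻¹`: both are the identity off `h (K0)`, and at
  `h x`, `x ∈ K0`, both are `h (f x)` (`f x ∈ K0`, because `f` is a bijection which is the identity off
  `K0`).
* for `f ∈ F`, `k f k⁻¹` is the identity off `k (K1) = h (K1) ⊆ closedBall q s`, so it is in `GU U`, and so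
  is `g f g⁻¹`.
-/

namespace C715

open CategoryTheory ActCat

theorem GU_conj (U V : Set P2) (k : Equiv.Perm P2) (hk : k ∈ Gc) (h : ∀ x ∈ U, k x ∈ V)
    (f : Equiv.Perm P2) (hf : f ∈ GU U) : k * f * k⁻¹ ∈ GU V := by
  obtain ⟨hf, K, hKU, hK, h1⟩ := hf
  refine ⟨Gc.mul_mem (Gc.mul_mem hk hf) (Gc.inv_mem hk), k '' K, ?_,
    hK.image (Gc_cont hk), fun x hx => ?_⟩
  · rintro _ ⟨x, hx, rfl⟩
    exact h x (hKU hx)
  · rw [Equiv.Perm.mul_apply, Equiv.Perm.mul_apply, h1 _ fun h2 => hx ⟨_, h2, ?_⟩]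
    · exact k.apply_symm_apply x
    · exact k.apply_symm_apply x

private theorem supp_fin (U : Set P2) (F : Set (Equiv.Perm P2)) (hF : F.Finite) (h : F ⊆ GU U) :
    ∃ K : Set P2, K ⊆ U ∧ IsCompact K ∧ ∀ f ∈ F, ∀ x, x ∉ K → f x = x := by
  choose! K hKU hK h1 using fun f hf => (h hf : f ∈ GU U).2
  refine ⟨⋃ f ∈ F, K f, Set.iUnion₂_subset hKU, hF.isCompact_biUnion hK, fun f hf x hx => ?_⟩
  exact h1 f hf x fun h2 => hx (Set.mem_biUnion hf h2)

private theorem aux (U V : Set P2) (hU : IsOpen U) (hUc : Convex ℝ U) (hUn : U.Nonempty)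
    (hV : IsOpen V) (hVc : Convex ℝ V) (h : U ⊆ V) (F0 F : Set (Equiv.Perm P2))
    (hF0 : F0.Finite) (hF : F.Finite) (h0 : F0 ⊆ GU U) (h1 : F ⊆ GU V) :
    ∃ g ∈ GU V, (∀ f ∈ F0, g * f = f * g) ∧ ∀ f ∈ F, g * f * g⁻¹ ∈ GU U := by
  obtain ⟨K0, hK0U, hK0, e0⟩ := supp_fin U F0 hF0 h0
  obtain ⟨K1, hK1V, hK1, e1⟩ := supp_fin V F hF h1
  obtain ⟨q, hq⟩ := hUn
  obtain ⟨s, hs, hsU⟩ : ∃ s : ℝ, 0 < s ∧ Metric.closedBall q s ⊆ U := by
    obtain ⟨ε, hε, h2⟩ := Metric.isOpen_iff.1 hU q hq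
    exact ⟨ε / 2, by positivity, (Metric.closedBall_subset_ball (by linarith)).trans h2⟩
  obtain ⟨D, hD0, hD⟩ : ∃ D : ℝ, 0 < D ∧ ∀ x ∈ K1, ‖x - q‖ ≤ D := by
    obtain ⟨D, hD⟩ := hK1.isBounded.subset_closedBall q
    refine ⟨max D 1, lt_of_lt_of_le one_pos (le_max_right _ _), fun x hx => ?_⟩
    rw [← dist_eq_norm]
    exact (Metric.mem_closedBall.1 (hD hx)).trans (le_max_left _ _)
  obtain ⟨μ, hμ0, hμ1, hμs⟩ : ∃ μ : ℝ, 0 < μ ∧ μ ≤ 1 ∧ μ * D ≤ s := by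
    refine ⟨min 1 (s / D), lt_min one_pos (div_pos hs hD0), min_le_left _ _, ?_⟩
    calc min 1 (s / D) * D ≤ s / D * D :=
          mul_le_mul_of_nonneg_right (min_le_right _ _) hD0.le
      _ = s := div_mul_cancel₀ s hD0.ne'
  obtain ⟨k, hk, hkx⟩ := shrink V (K0 ∪ K1) hV hVc (hK0.union hK1)
    (Set.union_subset (hK0U.trans h) hK1V) q (h hq) μ hμ0 hμ1
  obtain ⟨k', hk', hkx'⟩ := shrink U K0 hU hUc hK0 hK0U q hq μ hμ0 hμ1
  have hkk : ∀ x ∈ K0, k x = k' x := fun x hx => by rw [hkx x (Or.inl hx), hkx' x hx]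
  refine ⟨k'⁻¹ * k, (GU V).mul_mem ((GU V).inv_mem (GU_mono h hk')) hk, fun f hf => ?_,
    fun f hf => ?_⟩
  · ext1 x
    show k'.symm (k (f x)) = f (k'.symm (k x))
    by_cases hx : x ∈ K0
    · have hfx : f x ∈ K0 := by
        by_contra hn
        have h2 := e0 f hf (f x) hn
        have h3 := f.injective h2
        rw [h3] at hn
        exact hn hx
      rw [hkk _ hfx, hkk x hx, Equiv.symm_apply_apply, Equiv.symm_apply_apply]
    · rw [e0 f hf x hx]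
      refine (e0 f hf _ fun hz => ?_).symm
      have h2 := hkk _ hz
      rw [Equiv.apply_symm_apply] at h2
      have h3 := k.injective h2
      rw [h3] at hz
      exact hx hz
  · have h2 : k * f * k⁻¹ ∈ GU U := by
      refine ⟨Gc.mul_mem (Gc.mul_mem hk.1 (h1 hf).1) (Gc.inv_mem hk.1),
        Metric.closedBall q s, hsU, isCompact_closedBall _ _, fun x hx => ?_⟩
      show k (f (k.symm x)) = x
      rw [e1 f hf _ fun h3 => hx ?_]
      · exact k.apply_symm_apply x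
      · have h4 := hkx _ (Or.inr h3)
        rw [Equiv.apply_symm_apply] at h4
        rw [h4, Metric.mem_closedBall, dist_eq_norm, add_sub_cancel_left, norm_smul,
          Real.norm_of_nonneg hμ0.le]
        exact (mul_le_mul_of_nonneg_left (hD _ h3) hμ0.le).trans hμs
    have h5 : k'⁻¹ * k * f * (k'⁻¹ * k)⁻¹ = k'⁻¹ * (k * f * k⁻¹) * k' := by group
    rw [h5]
    exact (GU U).mul_mem ((GU U).mul_mem ((GU U).inv_mem hk') h2) hk'

theorem GU_hiso (U V : Set P2) (hU : IsOpen U) (hUc : Convex ℝ U) (hUn : U.Nonempty)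
    (hV : IsOpen V) (hVc : Convex ℝ V) (h : U ⊆ V) : HIso (sgIncl (GU_mono h)) :=
  conjIncl_hiso (GU_mono h) fun F0 F hF0 hF h0 h1 =>
    aux U V hU hUc hUn hV hVc h F0 F hF0 hF h0 h1

/-- in particular for `V` the whole plane -/
theorem GU_Gc_hiso (U : Set P2) (hU : IsOpen U) (hUc : Convex ℝ U) (hUn : U.Nonempty) :
    HIso (sgIncl (GU_le U)) := by
  refine conjIncl_hiso (GU_le U) fun F0 F hF0 hF h0 h1 => ?_
  rw [← GU_univ] at h1 ⊢
  exact aux U Set.univ hU hUc hUn isOpen_univ convex_univ (Set.subset_univ _) F0 F hF0 hF h0 h1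

end C715
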