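import Pool.Agent.Work.MP_c71557_gt.P.Inv

set_option autoImplicit false
set_option linter.unusedVariables false

/-!
# MP_c71557_gt, module P/Shear: horizontal and vertical displacements (S-M)

`φ` PL with support in the compact set `K`, `t ↦ t + φ (t, y)` strictly increasing for every `y`: then
`(x, y) ↦ (x + φ (x, y), y)` is an element of `GU U` for `K ⊆ U`.
PROOF.  For fixed `y`, `t ↦ t + φ (t, y)` is a continuous strictly increasing function which is
`t` for `|t|` large, so it is a bijection `ℝ → ℝ` (intermediate values).  So the map of the plane is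
a bijection; build the `Equiv` (`Equiv.ofBijective`), it is PL (`P/Alg`), apply `GU_of`.
`shear2` is the same with the coordinates exchanged (repeat, or conjugate by the swap).
-/

namespace C715

theorem shear1 (φ : P2 → ℝ) (hφ : IsPLf φ) (U K : Set P2) (hKU : K ⊆ U) (hK : IsCompact K)
    (h0 : ∀ x, x ∉ K → φ x = 0) (hm : ∀ y : ℝ, StrictMono (fun t : ℝ => t + φ (t, y))) :
    ∃ g ∈ GU U, ∀ x : P2, g x = (x.1 + φ x, x.2) := by
  obtain ⟨R, hR⟩ : ∃ R : ℝ, ∀ x ∈ K, ‖x‖ ≤ R := hK.isBounded.exists_norm_le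
  have hc : Continuous φ := hφ.1
  have hsurj : ∀ (y u : ℝ), ∃ t : ℝ, t + φ (t, y) = u := by
    intro y u
    set T : ℝ := max |u| R + 1 with hT
    have hTu : |u| < T := lt_of_le_of_lt (le_max_left _ _) (lt_add_one _)
    have hTR : R < T := lt_of_le_of_lt (le_max_right _ _) (lt_add_one _)
    have hT0 : 0 < T := lt_of_le_of_lt (abs_nonneg u) hTu
    have hz : ∀ t : ℝ, |t| = T → φ (t, y) = 0 := by
      intro t ht
      refine h0 _ fun hk => ?_
      have h1 := (norm_fst_le ((t, y) : P2)).trans (hR _ hk)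
      have h2 : ‖t‖ = T := ht
      have h3 : ‖((t, y) : P2).1‖ = ‖t‖ := rfl
      rw [h3, h2] at h1
      exact absurd hTR (not_lt.2 h1)
    have hc1 : Continuous (fun t : ℝ => t + φ (t, y)) := by
      have : Continuous (fun t : ℝ => ((t, y) : P2)) := by fun_prop
      exact continuous_id.add (hc.comp this)
    have hiv := intermediate_value_Icc (a := -T) (b := T) (by linarith) hc1.continuousOn
    have hmem : u ∈ Set.Icc ((fun t : ℝ => t + φ (t, y)) (-T)) ((fun t : ℝ => t + φ (t, y)) T) := by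
      have e1 : φ (-T, y) = 0 := hz (-T) (by rw [abs_neg, abs_of_pos hT0])
      have e2 : φ (T, y) = 0 := hz T (abs_of_pos hT0)
      simp only [e1, e2, add_zero]
      rw [abs_lt] at hTu
      exact ⟨hTu.1.le, hTu.2.le⟩
    obtain ⟨t, _, ht⟩ := hiv hmem
    exact ⟨t, ht⟩
  have hbij : Function.Bijective (fun x : P2 => ((x.1 + φ x, x.2) : P2)) := by
    constructor
    · rintro ⟨a, b⟩ ⟨c, d⟩ h
      simp only [Prod.mk.injEq] at h
      obtain ⟨h1, h2⟩ := h
      subst h2
      have := (hm b).injective h1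
      rw [this]
    · rintro ⟨u, y⟩
      obtain ⟨t, ht⟩ := hsurj y u
      exact ⟨(t, y), by simp only [ht]⟩
  refine ⟨Equiv.ofBijective _ hbij, ?_, fun x => rfl⟩
  refine GU_of _ ⟨?_, ?_⟩ U K hKU hK fun x hx => ?_
  · exact IsPLf.fst.add hφ
  · exact IsPLf.snd
  · show ((x.1 + φ x, x.2) : P2) = x
    rw [h0 x hx, add_zero]

theorem shear2 (φ : P2 → ℝ) (hφ : IsPLf φ) (U K : Set P2) (hKU : K ⊆ U) (hK : IsCompact K)
    (h0 : ∀ x, x ∉ K → φ x = 0) (hm : ∀ y : ℝ, StrictMono (fun t : ℝ => t + φ (y, t))) :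
    ∃ g ∈ GU U, ∀ x : P2, g x = (x.1, x.2 + φ x) := by
  obtain ⟨R, hR⟩ : ∃ R : ℝ, ∀ x ∈ K, ‖x‖ ≤ R := hK.isBounded.exists_norm_le
  have hc : Continuous φ := hφ.1
  have hsurj : ∀ (y u : ℝ), ∃ t : ℝ, t + φ (y, t) = u := by
    intro y u
    set T : ℝ := max |u| R + 1 with hT
    have hTu : |u| < T := lt_of_le_of_lt (le_max_left _ _) (lt_add_one _)
    have hTR : R < T := lt_of_le_of_lt (le_max_right _ _) (lt_add_one _)
    have hT0 : 0 < T := lt_of_le_of_lt (abs_nonneg u) hTu
    have hz : ∀ t : ℝ, |t| = T → φ (y, t) = 0 := by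
      intro t ht
      refine h0 _ fun hk => ?_
      have h1 := (norm_snd_le ((y, t) : P2)).trans (hR _ hk)
      have h2 : ‖t‖ = T := ht
      have h3 : ‖((y, t) : P2).2‖ = ‖t‖ := rfl
      rw [h3, h2] at h1
      exact absurd hTR (not_lt.2 h1)
    have hc1 : Continuous (fun t : ℝ => t + φ (y, t)) := by
      have : Continuous (fun t : ℝ => ((y, t) : P2)) := by fun_prop
      exact continuous_id.add (hc.comp this)
    have hiv := intermediate_value_Icc (a := -T) (b := T) (by linarith) hc1.continuousOn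
    have hmem : u ∈ Set.Icc ((fun t : ℝ => t + φ (y, t)) (-T)) ((fun t : ℝ => t + φ (y, t)) T) := by
      have e1 : φ (y, -T) = 0 := hz (-T) (by rw [abs_neg, abs_of_pos hT0])
      have e2 : φ (y, T) = 0 := hz T (abs_of_pos hT0)
      simp only [e1, e2, add_zero]
      rw [abs_lt] at hTu
      exact ⟨hTu.1.le, hTu.2.le⟩
    obtain ⟨t, _, ht⟩ := hiv hmem
    exact ⟨t, ht⟩
  have hbij : Function.Bijective (fun x : P2 => ((x.1, x.2 + φ x) : P2)) := by
    constructor
    · rintro ⟨a, b⟩ ⟨c, d⟩ h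
      simp only [Prod.mk.injEq] at h
      obtain ⟨h2, h1⟩ := h
      subst h2
      have := (hm a).injective h1
      rw [this]
    · rintro ⟨y, u⟩
      obtain ⟨t, ht⟩ := hsurj y u
      exact ⟨(y, t), by simp only [ht]⟩
  refine ⟨Equiv.ofBijective _ hbij, ?_, fun x => rfl⟩
  refine GU_of _ ⟨?_, ?_⟩ U K hKU hK fun x hx => ?_
  · exact IsPLf.fst
  · exact IsPLf.snd.add hφ
  · show ((x.1, x.2 + φ x) : P2) = x
    rw [h0 x hx, add_zero]

/-- criterion for monotonicity -/
theorem strictMono_of_slope (f : ℝ → ℝ) (θ : ℝ) (hθ : θ < 1)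
    (h : ∀ s t, s < t → -(θ * (t - s)) ≤ f t - f s) : StrictMono (fun t => t + f t) := by
  intro s t hst
  have h1 := h s t hst
  have h2 : 0 < (1 - θ) * (t - s) := mul_pos (by linarith) (by linarith)
  show s + f s < t + f t
  linarith

end C715
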