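import Pool.Agent.Work.MP_c71557_gt.P.Fs

set_option autoImplicit false
set_option linter.unusedVariables false

/-!
# MP_c71557_gt, block P: the comparison map `theta` (definitions, all proved)

`theta : barC (K.pF 0) → S.Ch`, `σ ⊗ m ↦ [gen m (β_0, …, β_n)]`, `β_i : σ_0 → σ_i` the arrows of `σ`.
-/

namespace C715

open CategoryTheory

namespace FlagSys

variable {Γ Λ Fl : Type} [Group Γ] [Group Λ] [MulAction Γ Fl] [MulAction Λ Fl]
  (S : FlagSys Γ Λ Fl)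

/-- insertion of the germs of group elements -/
noncomputable def ins {n : ℕ} (s : Fin n → Γ) : FV Λ Fl 0 →ₗ[ℚ] FV Λ Fl n :=
  LinearMap.pi fun φ =>
    (Finsupp.lmapDomain ℚ ℚ (fun (_ : Fin 0 → Λ) (i : Fin n) => S.γ (s i) φ)).comp
      (LinearMap.proj φ)

theorem ins_apply {n : ℕ} (s : Fin n → Γ) (f : FV Λ Fl 0) (φ : Fl) :
    S.ins s f φ = Finsupp.mapDomain (fun (_ : Fin 0 → Λ) (i : Fin n) => S.γ (s i) φ) (f φ) := rfl

theorem ins_gen {n : ℕ} (s : Fin n → Γ) (m : Fl → ℚ) (t : Fin 0 → Γ) :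
    S.ins s (S.gen m t) = S.gen m s := funext fun φ => by
  rw [ins_apply, gen_apply, gen_apply, Finsupp.mapDomain_single]

theorem Pin_ins (W : Set Fl) {n : ℕ} (s : Fin n → Γ) :
    S.Pin W 0 ≤ (S.Pin W n).comap (S.ins s) := by
  refine Submodule.span_le.2 ?_
  rintro f ⟨m, hm, hW, t, rfl⟩
  rw [SetLike.mem_coe, Submodule.mem_comap, ins_gen]
  exact S.gen_mem_Pin hm hW _

theorem res_ins {k n : ℕ} (e : Fin k → Fin n) (s : Fin n → Γ) (f : FV Λ Fl 0) :
    FV.res e (S.ins s f) = S.ins (s ∘ e) f := funext fun φ => by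
  rw [FV.res_apply, ins_apply, ins_apply, ← Finsupp.mapDomain_comp]
  rfl

theorem tr_ins (g : Γ) {n : ℕ} (s : Fin n → Γ) (f : FV Λ Fl 0) :
    S.tr g (S.ins s f) = S.ins (fun i => s i * g⁻¹) (S.tr g f) := funext fun φ => by
  rw [tr_apply, ins_apply, ins_apply, tr_apply, ← Finsupp.mapDomain_comp,
    ← Finsupp.mapDomain_comp]
  congr 1
  funext t i
  exact (S.mul _ _ _).symm

/-- only the germs matter -/
theorem ins_congr {W : Set Fl} {n : ℕ} {s s' : Fin n → Γ}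
    (h : ∀ i, ∀ φ ∈ W, S.γ (s i) φ = S.γ (s' i) φ) {f : FV Λ Fl 0} (hf : f ∈ S.Pin W 0) :
    S.ins s f = S.ins s' f := by
  induction hf using Submodule.span_induction with
  | mem f hf =>
    obtain ⟨m, hm, hW, t, rfl⟩ := hf
    rw [ins_gen, ins_gen]
    funext φ
    rw [gen_apply, gen_apply]
    by_cases h1 : m φ = 0
    · rw [h1, Finsupp.single_zero, Finsupp.single_zero]
    · congr 1
      funext i
      exact h i φ (hW φ h1)
  | zero => rw [map_zero, map_zero]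
  | add x y _ _ hx hy => rw [map_add, map_add, hx, hy]
  | smul c x _ hx => rw [map_smul, map_smul, hx]

end FlagSys

namespace CellSys

variable {Γ Λ Fl : Type} [Group Γ] [Group Λ] [MulAction Γ Fl] [MulAction Λ Fl]
  {S : FlagSys Γ Λ Fl} {A : ActCat Γ} (K : CellSys S A)

/-- representative of an arrow -/
noncomputable def rep {a b : A.Obj} (u : a ⟶ b) : Γ := (ActCat.hom_surj u).choose

theorem rep_adm {a b : A.Obj} (u : a ⟶ b) : A.Adm a.o (rep u) b.o :=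
  (ActCat.hom_surj u).choose_spec.choose

theorem rep_hom {a b : A.Obj} (u : a ⟶ b) : u = A.hom (rep u) (rep_adm u) :=
  (ActCat.hom_surj u).choose_spec.choose_spec

/-- the germs of two representatives agree on the support -/
theorem rep_γ {a b : A.Obj} (u : a ⟶ b) (g : Γ) (hg : A.Adm a.o g b.o) (h : u = A.hom g hg)
    {φ : Fl} (hφ : φ ∈ K.supp a.o) : S.γ (rep u) φ = S.γ g φ := by
  rw [S.γ_eq_iff]
  refine K.triv ?_ φ hφ
  have h1 := (rep_hom u).symm.trans h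
  exact ActCat.hom_eq.1 h1

/-- the chain map `theta` in one degree -/
noncomputable def thf (n : ℕ) (σ : Sx A.Obj n) :
    (K.pF 0).M (σ.o 0) →ₗ[ℚ] (↥(S.P (n + 1)) ⧸ S.coin (n + 1)) :=
  (K.toCo (σ.o 0).o (n + 1)).comp
    ((S.ins (fun i => rep (σ.m 0 i (Fin.zero_le i)))).restrict (S.Pin_ins (K.supp (σ.o 0).o) _))

theorem thf_pre {m n : ℕ} (e : Fin (m + 1) →o Fin (n + 1)) (σ : Sx A.Obj n)
    (y : (K.pF 0).M (σ.o 0)) :
    K.thf m (pre e σ) ((K.pF 0).map (σ.m 0 (e 0) (Fin.zero_le _)) y) =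
      S.sC.map e (K.thf n σ y) := by
  -- write `g = rep (σ.m 0 (e 0))`
  have hg := rep_hom (σ.m 0 (e 0) (Fin.zero_le _))
  set g := rep (σ.m 0 (e 0) (Fin.zero_le _)) with hgdef
  have hadm := rep_adm (σ.m 0 (e 0) (Fin.zero_le _))
  rw [← hgdef] at hadm
  -- the element `x` of `Pin (supp σ_0) (m + 1)` with `tr g x` on the left
  let x : ↥(S.Pin (K.supp (σ.o 0).o) (m + 1)) :=
    ⟨S.ins (fun i => rep (σ.m 0 (e i) (Fin.zero_le _))) y.1, S.Pin_ins _ _ y.2⟩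
  have h1 : S.sC.map e (K.thf n σ y) = K.toCo (σ.o 0).o (m + 1) x := by
    change Submodule.Quotient.mk _ = Submodule.Quotient.mk _
    congr 1
    refine Subtype.ext ?_
    change FV.res e (S.ins _ y.1) = S.ins _ y.1
    rw [S.res_ins]
    rfl
  rw [h1, ← K.toCo_map (σ.m 0 (e 0) (Fin.zero_le _)) x]
  change K.toCo _ _ _ = K.toCo _ _ _
  congr 1
  refine Subtype.ext ?_
  have h2 : (((K.pF (m + 1)).map (σ.m 0 (e 0) (Fin.zero_le _)) x).1 : FV Λ Fl (m + 1)) =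
      S.tr g x.1 := by
    rw [hg]
    rfl
  have h3 : (((K.pF 0).map (σ.m 0 (e 0) (Fin.zero_le _)) y).1 : FV Λ Fl 0) = S.tr g y.1 := by
    rw [hg]
    rfl
  change S.ins _ (((K.pF 0).map (σ.m 0 (e 0) (Fin.zero_le _)) y).1) =
    (((K.pF (m + 1)).map (σ.m 0 (e 0) (Fin.zero_le _)) x).1 : FV Λ Fl (m + 1))
  rw [h2, h3]
  change S.ins _ (S.tr g y.1) = S.tr g (S.ins _ y.1)
  rw [S.tr_ins]
  have hmem : S.tr g y.1 ∈ S.Pin {φ | g⁻¹ • φ ∈ K.supp (σ.o 0).o} 0 := by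
    refine S.Pin_tr g (W := K.supp (σ.o 0).o) (fun φ hφ => ?_) y.2
    rw [Set.mem_ofPred_eq, inv_smul_smul]
    exact hφ
  refine S.ins_congr (fun i φ hφ => ?_) hmem
  have hφ' : g⁻¹ • φ ∈ K.supp (σ.o 0).o := hφ
  obtain ⟨ψ, hψ, rfl⟩ : ∃ ψ, ψ ∈ K.supp (σ.o 0).o ∧ φ = g • ψ :=
    ⟨g⁻¹ • φ, hφ', (smul_inv_smul g φ).symm⟩
  set u := rep ((pre e σ).m 0 i (Fin.zero_le i)) with hu
  have hu1 := rep_hom ((pre e σ).m 0 i (Fin.zero_le i))
  have hu2 := rep_adm ((pre e σ).m 0 i (Fin.zero_le i))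
  rw [← hu] at hu2
  -- `u g` represents `σ.m 0 (e i)`
  have h4 : σ.m 0 (e i) (Fin.zero_le _) = A.hom (u * g) (A.mul hadm hu2) := by
    have h5 := σ.m_comp 0 (e 0) (e i) (Fin.zero_le _) (e.monotone (Fin.zero_le i))
    rw [← h5, hg]
    have h6 : σ.m (e 0) (e i) (e.monotone (Fin.zero_le i)) = A.hom u hu2 := hu1
    rw [h6]
    exact ActCat.hom_comp hadm hu2
  have h7 := K.rep_γ _ _ _ h4 hψ
  have h8 : S.γ (rep (σ.m 0 (e i) (Fin.zero_le _)) * g⁻¹) (g • ψ) =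
      S.γ (rep (σ.m 0 (e i) (Fin.zero_le _))) ψ * (S.γ g ψ)⁻¹ := by
    rw [S.mul, inv_smul_smul, S.γ_inv]
  rw [h8, h7, S.mul, mul_inv_cancel_right]

/-- the comparison map -/
noncomputable def theta : Cx.Hom (barC (K.pF 0)) S.Ch :=
  SMod.Hom.cx
  { f := fun n => bdesc (K.pF 0) fun σ => K.thf n σ
    comm := by
      intro m n e x
      induction x using bar_ind with
      | h0 => simp only [map_zero]
      | h1 σ y =>
        rw [barMap_bof, bdesc_bof, bdesc_bof]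
        exact K.thf_pre e σ y
      | h2 x y hx hy => simp only [map_add, hx, hy] }

theorem theta_bof (n : ℕ) (σ : Sx A.Obj n) (y : (K.pF 0).M (σ.o 0)) :
    K.theta.f n (bof (K.pF 0) σ y) = K.thf n σ y := bdesc_bof _ _ _ _

end CellSys
end C715
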