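import Pool.Agent.Work.MP_c71557_gt.P.Defs

set_option autoImplicit false
set_option linter.unusedVariables false

/-!
# MP_c71557_gt, module P/Alg: algebra of piecewise affine functions (S)

`IsPLf φ`: `φ : P2 → ℝ` continuous and there is a finite set `S` of affine functions such that at every
point `φ` equals a member of `S`.

PROOFS.  For `add`, `max`, ... take the set of all sums of members, the union, ... (`max (l x) (l' x)` is
one of `l x`, `l' x`).  `glue`: the union of the finite sets of the members of the finite family.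
`sup`: induction on the finset with `max`.  `lipschitz` : let `C` bound the Lipschitz constants
(`|l.a| + |l.b|`, sup norm) of the members of `S`.  Fix `x, y` and `f t = φ (x + t (y - x))`,
`L = C ‖y - x‖`.  At every `t` there is a neighbourhood on which `|f s - f t| ≤ L |s - t|`: the finitely
many `l ∈ S` with `l (x + t (y-x)) ≠ f t` are different from `f` near `t` by continuity; for `s` near
`t` the active member `l` at `s` satisfies `l = f` at `t` too, so `f s - f t = l s - l t`.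
A function `f : ℝ → ℝ` with this local property at every point of `[0,1]` satisfies
`|f 1 - f 0| ≤ L` (for each `L' > L` the set of `t ∈ [0,1]` with `|f t - f 0| ≤ L' t` is closed,
contains `0`, and with `t < 1` contains a right neighbourhood of `t`; Mathlib
`image_norm_le_of_liminf_right_slope_norm_lt_deriv_boundary`, or `IsClosed.Icc_subset_of_forall_mem_nhdsWithin`).
-/

namespace C715

theorem IsPLf.ev (l : L3) : IsPLf l.ev := by
  refine ⟨?_, {l}, Set.finite_singleton _, fun x => ⟨l, rfl, rfl⟩⟩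
  unfold L3.ev
  fun_prop

theorem IsPLf.const (c : ℝ) : IsPLf (fun _ => c) := by
  have h := IsPLf.ev ⟨0, 0, c⟩
  have e : (fun _ : P2 => c) = L3.ev ⟨0, 0, c⟩ := by
    funext x
    simp [L3.ev]
  rw [e]
  exact h

theorem IsPLf.fst : IsPLf (fun x : P2 => x.1) := by
  exact IsPL.id.1

theorem IsPLf.snd : IsPLf (fun x : P2 => x.2) := by
  exact IsPL.id.2

theorem IsPLf.add {φ ψ : P2 → ℝ} (h : IsPLf φ) (h' : IsPLf ψ) : IsPLf (fun x => φ x + ψ x) := by
  obtain ⟨c, S, hS, h1⟩ := h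
  obtain ⟨c', S', hS', h1'⟩ := h'
  refine ⟨c.add c', (fun t : L3 × L3 => (⟨t.1.a + t.2.a, t.1.b + t.2.b, t.1.c + t.2.c⟩ : L3)) ''
    (S ×ˢ S'), (hS.prod hS').image _, fun x => ?_⟩
  obtain ⟨l, hl, e⟩ := h1 x
  obtain ⟨l', hl', e'⟩ := h1' x
  refine ⟨_, ⟨(l, l'), ⟨hl, hl'⟩, rfl⟩, ?_⟩
  beta_reduce
  rw [e, e']
  simp only [L3.ev]
  ring

theorem IsPLf.smul {φ : P2 → ℝ} (c : ℝ) (h : IsPLf φ) : IsPLf (fun x => c * φ x) := by
  obtain ⟨hc, S, hS, h1⟩ := h
  refine ⟨continuous_const.mul hc, (fun t : L3 => (⟨c * t.a, c * t.b, c * t.c⟩ : L3)) '' S,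
    hS.image _, fun x => ?_⟩
  obtain ⟨l, hl, e⟩ := h1 x
  refine ⟨_, ⟨l, hl, rfl⟩, ?_⟩
  beta_reduce
  rw [e]
  simp only [L3.ev]
  ring

theorem IsPLf.neg {φ : P2 → ℝ} (h : IsPLf φ) : IsPLf (fun x => -φ x) := by
  have e : (fun x => -φ x) = fun x => (-1) * φ x := by
    funext x
    ring
  rw [e]
  exact h.smul (-1)

theorem IsPLf.sub {φ ψ : P2 → ℝ} (h : IsPLf φ) (h' : IsPLf ψ) : IsPLf (fun x => φ x - ψ x) := by
  have e : (fun x => φ x - ψ x) = fun x => φ x + -ψ x := by
    funext x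
    ring
  rw [e]
  exact h.add h'.neg

theorem IsPLf.max {φ ψ : P2 → ℝ} (h : IsPLf φ) (h' : IsPLf ψ) :
    IsPLf (fun x => Max.max (φ x) (ψ x)) := by
  obtain ⟨c, S, hS, h1⟩ := h
  obtain ⟨c', S', hS', h1'⟩ := h'
  refine ⟨c.max c', S ∪ S', hS.union hS', fun x => ?_⟩
  rcases max_choice (φ x) (ψ x) with hm | hm
  · obtain ⟨l, hl, e⟩ := h1 x
    exact ⟨l, Or.inl hl, hm.trans e⟩
  · obtain ⟨l, hl, e⟩ := h1' x
    exact ⟨l, Or.inr hl, hm.trans e⟩

theorem IsPLf.min {φ ψ : P2 → ℝ} (h : IsPLf φ) (h' : IsPLf ψ) :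
    IsPLf (fun x => Min.min (φ x) (ψ x)) := by
  obtain ⟨c, S, hS, h1⟩ := h
  obtain ⟨c', S', hS', h1'⟩ := h'
  refine ⟨c.min c', S ∪ S', hS.union hS', fun x => ?_⟩
  rcases min_choice (φ x) (ψ x) with hm | hm
  · obtain ⟨l, hl, e⟩ := h1 x
    exact ⟨l, Or.inl hl, hm.trans e⟩
  · obtain ⟨l, hl, e⟩ := h1' x
    exact ⟨l, Or.inr hl, hm.trans e⟩

theorem IsPLf.abs {φ : P2 → ℝ} (h : IsPLf φ) : IsPLf (fun x => |φ x|) := by
  exact h.max h.neg

/-- distance (sup norm) to a point -/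
theorem IsPLf.dist (p : P2) : IsPLf (fun x => Dist.dist x p) := by
  have e : (fun x : P2 => Dist.dist x p) = fun x => Max.max |x.1 - p.1| |x.2 - p.2| := by
    funext x
    rw [Prod.dist_eq, Real.dist_eq, Real.dist_eq]
  rw [e]
  exact (IsPLf.fst.sub (IsPLf.const p.1)).abs.max (IsPLf.snd.sub (IsPLf.const p.2)).abs

/-- a continuous function which selects from a finite family of PL functions is PL -/
theorem IsPLf.glue {φ : P2 → ℝ} (hφ : Continuous φ) (F : Set (P2 → ℝ)) (hF : F.Finite)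
    (h : ∀ ψ ∈ F, IsPLf ψ) (hs : ∀ x, ∃ ψ ∈ F, φ x = ψ x) : IsPLf φ := by
  choose! S hS h1 using fun ψ hψ => (h ψ hψ).2
  refine ⟨hφ, ⋃ ψ ∈ F, S ψ, hF.biUnion hS, fun x => ?_⟩
  obtain ⟨ψ, hψ, e⟩ := hs x
  obtain ⟨l, hl, e'⟩ := h1 ψ hψ x
  exact ⟨l, Set.mem_biUnion hψ hl, e.trans e'⟩

/-- weaker input: each member only selects from finitely many affine functions -/
theorem IsPLf.glue' {φ : P2 → ℝ} (hφ : Continuous φ) (F : Set (P2 → ℝ)) (hF : F.Finite)
    (h : ∀ ψ ∈ F, ∃ S : Set L3, S.Finite ∧ ∀ x, φ x = ψ x → ∃ l ∈ S, φ x = l.ev x)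
    (hs : ∀ x, ∃ ψ ∈ F, φ x = ψ x) : IsPLf φ := by
  choose! S hS h1 using h
  refine ⟨hφ, ⋃ ψ ∈ F, S ψ, hF.biUnion hS, fun x => ?_⟩
  obtain ⟨ψ, hψ, e⟩ := hs x
  obtain ⟨l, hl, e'⟩ := h1 ψ hψ x e
  exact ⟨l, Set.mem_biUnion hψ hl, e'⟩

/-- finite maxima of nonnegative PL functions -/
theorem IsPLf.sup {ι : Type} (s : Finset ι) (b : ι → P2 → ℝ) (h : ∀ i ∈ s, IsPLf (b i)) :
    IsPLf (fun x => s.fold Max.max 0 (fun i => b i x)) := by
  classical
  induction s using Finset.induction_on with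
  | empty =>
    have e : (fun x => (∅ : Finset ι).fold Max.max 0 (fun i => b i x)) = fun _ : P2 => (0 : ℝ) := by
      funext x
      simp
    rw [e]
    exact IsPLf.const 0
  | insert a s ha ih =>
    have e : (fun x => (insert a s).fold Max.max 0 (fun i => b i x)) =
        fun x => Max.max (b a x) (s.fold Max.max 0 (fun i => b i x)) := by
      funext x
      rw [Finset.fold_insert ha]
    rw [e]
    exact (h a (Finset.mem_insert_self a s)).max
      (ih fun i hi => h i (Finset.mem_insert_of_mem hi))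

/-- finite sums -/
theorem IsPLf.sum {ι : Type} (s : Finset ι) (b : ι → P2 → ℝ) (h : ∀ i ∈ s, IsPLf (b i)) :
    IsPLf (fun x => ∑ i ∈ s, b i x) := by
  classical
  induction s using Finset.induction_on with
  | empty =>
    have e : (fun x => ∑ i ∈ (∅ : Finset ι), b i x) = fun _ : P2 => (0 : ℝ) := by
      funext x
      simp
    rw [e]
    exact IsPLf.const 0
  | insert a s ha ih =>
    have e : (fun x => ∑ i ∈ insert a s, b i x) = fun x => b a x + ∑ i ∈ s, b i x := by
      funext x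
      rw [Finset.sum_insert ha]
    rw [e]
    exact (h a (Finset.mem_insert_self a s)).add
      (ih fun i hi => h i (Finset.mem_insert_of_mem hi))

/-- PL functions are Lipschitz -/
theorem IsPLf.lipschitz {φ : P2 → ℝ} (h : IsPLf φ) :
    ∃ C : ℝ, 0 < C ∧ ∀ x y, |φ x - φ y| ≤ C * Dist.dist x y := by
  obtain ⟨hc, S, hS, h1⟩ := h
  obtain ⟨C, hC, hSC⟩ : ∃ C : ℝ, 0 < C ∧ ∀ l ∈ S, |l.a| + |l.b| ≤ C := by
    refine ⟨1 + ∑ l ∈ hS.toFinset, (|l.a| + |l.b|), ?_, fun l hl => ?_⟩
    · have : 0 ≤ ∑ l ∈ hS.toFinset, (|l.a| + |l.b|) := Finset.sum_nonneg fun _ _ => by positivity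
      linarith
    · have := Finset.single_le_sum (f := fun l : L3 => |l.a| + |l.b|)
        (fun l _ => by positivity) (hS.mem_toFinset.2 hl)
      linarith
  refine ⟨C, hC, fun x y => ?_⟩
  -- one sided statement
  have key : ∀ x y : P2, φ y - φ x ≤ C * Dist.dist x y := by
    intro x y
    set v : P2 := y - x with hv
    set γ : ℝ → P2 := fun t => x + t • v with hγ
    have hγc : Continuous γ := by
      rw [hγ]
      fun_prop
    set L : ℝ := C * ‖v‖ with hL
    have hlin : ∀ l ∈ S, ∀ s t : ℝ, t ≤ s → l.ev (γ s) - l.ev (γ t) ≤ L * (s - t) := by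
      intro l hl s t hst
      have e1 : l.ev (γ s) - l.ev (γ t) = (l.a * v.1 + l.b * v.2) * (s - t) := by
        simp only [L3.ev, hγ, Prod.fst_add, Prod.snd_add, Prod.smul_fst, Prod.smul_snd, smul_eq_mul]
        ring
      rw [e1]
      refine mul_le_mul_of_nonneg_right ?_ (sub_nonneg.2 hst)
      have n1 : |v.1| ≤ ‖v‖ := norm_fst_le v
      have n2 : |v.2| ≤ ‖v‖ := norm_snd_le v
      have a1 : l.a * v.1 ≤ |l.a| * ‖v‖ := by
        calc l.a * v.1 ≤ |l.a * v.1| := le_abs_self _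
          _ = |l.a| * |v.1| := abs_mul _ _
          _ ≤ |l.a| * ‖v‖ := mul_le_mul_of_nonneg_left n1 (abs_nonneg _)
      have a2 : l.b * v.2 ≤ |l.b| * ‖v‖ := by
        calc l.b * v.2 ≤ |l.b * v.2| := le_abs_self _
          _ = |l.b| * |v.2| := abs_mul _ _
          _ ≤ |l.b| * ‖v‖ := mul_le_mul_of_nonneg_left n2 (abs_nonneg _)
      calc l.a * v.1 + l.b * v.2 ≤ (|l.a| + |l.b|) * ‖v‖ := by linarith
        _ ≤ C * ‖v‖ := mul_le_mul_of_nonneg_right (hSC l hl) (norm_nonneg _)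
    have hloc : ∀ t : ℝ, ∀ᶠ s in nhds t, t ≤ s → φ (γ s) - φ (γ t) ≤ L * (s - t) := by
      intro t
      have h2 : ∀ᶠ s in nhds t, ∀ l ∈ S, l.ev (γ t) ≠ φ (γ t) → l.ev (γ s) ≠ φ (γ s) := by
        rw [Filter.eventually_all_finite hS]
        intro l hl
        by_cases hlt : l.ev (γ t) = φ (γ t)
        · exact Filter.Eventually.of_forall fun s h => absurd hlt h
        · have c1 : Continuous (fun s => l.ev (γ s)) := (IsPLf.ev l).1.comp hγc
          have c2 : Continuous (fun s => φ (γ s)) := hc.comp hγc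
          have h3 : ∀ᶠ s in nhds t, l.ev (γ s) ≠ φ (γ s) :=
            (isOpen_ne_fun c1 c2).mem_nhds hlt
          filter_upwards [h3] with s hs _ using hs
      filter_upwards [h2] with s hs hts
      obtain ⟨l, hl, e⟩ := h1 (γ s)
      have e2 : l.ev (γ t) = φ (γ t) := by
        by_contra hne
        exact hs l hl hne e.symm
      rw [e, ← e2]
      exact hlin l hl s t hts
    have hcl : Set.Icc (0 : ℝ) 1 ⊆ {t | φ (γ t) - φ (γ 0) ≤ L * t} := by
      refine IsClosed.Icc_subset_of_forall_exists_gt ?_ ?_ ?_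
      · refine IsClosed.inter ?_ isClosed_Icc
        exact isClosed_le ((hc.comp hγc).sub continuous_const) (continuous_const.mul continuous_id)
      · simp
      · rintro t ⟨ht, ht1⟩ z hz
        have h4 := (hloc t).filter_mono (nhdsWithin_le_nhds (s := Set.Ioi t))
        have h5 : ∀ᶠ s in nhdsWithin t (Set.Ioi t), s ∈ Set.Ioc t z := Ioc_mem_nhdsGT hz
        obtain ⟨s, hs, hs'⟩ := (h4.and h5).exists
        refine ⟨s, ?_, hs'⟩
        have h6 := hs hs'.1.le
        have h7 : φ (γ t) - φ (γ 0) ≤ L * t := ht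
        show φ (γ s) - φ (γ 0) ≤ L * s
        linarith
    have h8 := hcl (Set.right_mem_Icc.2 zero_le_one)
    have g1 : γ 1 = y := by
      simp only [hγ, hv]
      rw [one_smul]
      abel
    have g0 : γ 0 = x := by
      simp only [hγ]
      rw [zero_smul, add_zero]
    have h9 : φ (γ 1) - φ (γ 0) ≤ L * 1 := h8
    rw [g1, g0, mul_one, hL, hv] at h9
    rw [dist_comm, dist_eq_norm]
    exact h9
  rw [abs_le]
  constructor
  · have := key x y
    linarith
  · have := key y x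
    rw [dist_comm] at this
    exact this

/-- invertible linear-affine maps are PL homeomorphisms: `x ↦ (m.ev x, n.ev x)`, inverse
`x ↦ (m'.ev x, n'.ev x)` -/
theorem PLH_aff (g : Equiv.Perm P2) (m n m' n' : L3) (h : ∀ x, g x = (m.ev x, n.ev x))
    (h' : ∀ x, g.symm x = (m'.ev x, n'.ev x)) : g ∈ PLH := by
  have e : ∀ (f : P2 → P2) (m n : L3), (∀ x, f x = (m.ev x, n.ev x)) → IsPL f := by
    intro f m n hf
    have e1 : (fun x => (f x).1) = m.ev := by
      funext x
      rw [hf]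
    have e2 : (fun x => (f x).2) = n.ev := by
      funext x
      rw [hf]
    refine ⟨?_, ?_⟩
    · rw [e1]
      exact IsPLf.ev m
    · rw [e2]
      exact IsPLf.ev n
  exact ⟨e _ m n h, e _ m' n' h'⟩

end C715
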