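import Pool.Agent.Work.MP_c71557_gt.H.Act

set_option autoImplicit false
set_option linter.unusedVariables false

/-!
# MP_c71557_gt, block P: piecewise linear maps of the plane

`IsPLf φ`: `φ : ℝ² → ℝ` is continuous and selects from finitely many affine functions.
-/

namespace C715

/-- the plane -/
abbrev P2 : Type := ℝ × ℝ

/-- affine function `x ↦ a x.1 + b x.2 + c` -/
@[ext] structure L3 where
  a : ℝ
  b : ℝ
  c : ℝ

/-- value of an affine function -/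
def L3.ev (l : L3) (x : P2) : ℝ := l.a * x.1 + l.b * x.2 + l.c

/-- linear part of an affine function -/
def L3.lin (l : L3) (v : P2) : ℝ := l.a * v.1 + l.b * v.2

/-- piecewise affine functions -/
def IsPLf (φ : P2 → ℝ) : Prop :=
  Continuous φ ∧ ∃ S : Set L3, S.Finite ∧ ∀ x, ∃ l ∈ S, φ x = l.ev x

/-- piecewise affine maps -/
def IsPL (f : P2 → P2) : Prop := IsPLf (fun x => (f x).1) ∧ IsPLf (fun x => (f x).2)

/-- composition of an affine function with an affine map -/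
def L3.sub (l m n : L3) : L3 :=
  ⟨l.a * m.a + l.b * n.a, l.a * m.b + l.b * n.b, l.a * m.c + l.b * n.c + l.c⟩

theorem L3.ev_sub (l m n : L3) (x : P2) : (l.sub m n).ev x = l.ev (m.ev x, n.ev x) := by
  simp only [L3.ev, L3.sub]
  ring

theorem IsPLf.cont {φ : P2 → ℝ} (h : IsPLf φ) : Continuous φ := h.1

theorem IsPL.cont {f : P2 → P2} (h : IsPL f) : Continuous f := by
  have : f = fun x => ((f x).1, (f x).2) := rfl
  rw [this]
  exact h.1.1.prodMk h.2.1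

theorem IsPLf.comp {φ : P2 → ℝ} {f : P2 → P2} (h : IsPLf φ) (hf : IsPL f) :
    IsPLf (fun x => φ (f x)) := by
  obtain ⟨c, S, hS, h1⟩ := h
  have hc := hf.cont
  obtain ⟨⟨_, M, hM, h2⟩, ⟨_, N, hN, h3⟩⟩ := hf
  refine ⟨c.comp hc, (fun t : L3 × L3 × L3 => t.1.sub t.2.1 t.2.2) '' (S ×ˢ M ×ˢ N),
    (hS.prod (hM.prod hN)).image _, fun x => ?_⟩
  obtain ⟨l, hl, e1⟩ := h1 (f x)
  obtain ⟨m, hm, e2⟩ := h2 x
  obtain ⟨n, hn, e3⟩ := h3 x
  refine ⟨l.sub m n, ⟨(l, m, n), ⟨hl, hm, hn⟩, rfl⟩, ?_⟩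
  rw [L3.ev_sub, ← e2, ← e3]
  exact e1

theorem IsPL.comp {f g : P2 → P2} (hf : IsPL f) (hg : IsPL g) : IsPL (fun x => f (g x)) :=
  ⟨hf.1.comp hg, hf.2.comp hg⟩

theorem IsPL.id : IsPL (fun x => x) :=
  ⟨⟨continuous_fst, {⟨1, 0, 0⟩}, Set.finite_singleton _, fun x => ⟨_, rfl, by simp [L3.ev]⟩⟩,
    ⟨continuous_snd, {⟨0, 1, 0⟩}, Set.finite_singleton _, fun x => ⟨_, rfl, by simp [L3.ev]⟩⟩⟩

/-- piecewise linear homeomorphisms of the plane -/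
def PLH : Subgroup (Equiv.Perm P2) where
  carrier := {g | IsPL g ∧ IsPL g.symm}
  mul_mem' := by
    rintro g h ⟨hg, hg'⟩ ⟨hh, hh'⟩
    exact ⟨hg.comp hh, hh'.comp hg'⟩
  one_mem' := ⟨IsPL.id, IsPL.id⟩
  inv_mem' := by
    rintro g ⟨hg, hg'⟩
    exact ⟨hg', hg⟩

/-- compactly supported piecewise linear homeomorphisms of the plane -/
def Gc : Subgroup (Equiv.Perm P2) where
  carrier := {g | g ∈ PLH ∧ ∃ R : ℝ, ∀ x : P2, R ≤ ‖x‖ → g x = x}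
  mul_mem' := by
    rintro g h ⟨hg, R, h1⟩ ⟨hh, R', h2⟩
    refine ⟨PLH.mul_mem hg hh, max R R', fun x hx => ?_⟩
    rw [Equiv.Perm.mul_apply, h2 x ((le_max_right _ _).trans hx),
      h1 x ((le_max_left _ _).trans hx)]
  one_mem' := ⟨PLH.one_mem, 0, fun _ _ => rfl⟩
  inv_mem' := by
    rintro g ⟨hg, R, h1⟩
    refine ⟨PLH.inv_mem hg, R, fun x hx => ?_⟩
    rw [Equiv.Perm.inv_eq_iff_eq, h1 x hx]

theorem PLH_bdd (g : Equiv.Perm P2) (hg : g ∈ PLH) (R : ℝ) : ∃ R' : ℝ, ∀ x : P2, ‖x‖ ≤ R →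
    ‖g x‖ ≤ R' := by
  have h1 : IsCompact (Metric.closedBall (0 : P2) R) := isCompact_closedBall _ _
  have h2 : Continuous (fun x : P2 => ‖g x‖) := continuous_norm.comp hg.1.cont
  obtain ⟨R', hR'⟩ := (h1.image h2).isBounded.bddAbove
  exact ⟨R', fun x hx => hR' ⟨x, by simpa using hx, rfl⟩⟩

/-- piecewise linear homeomorphisms which on every bounded set agree with a compactly
supported one -/
def Pi : Subgroup (Equiv.Perm P2) where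
  carrier := {g | g ∈ PLH ∧ ∀ R : ℝ, ∃ g' ∈ Gc, ∀ x : P2, ‖x‖ ≤ R → g x = g' x}
  mul_mem' := by
    rintro g h ⟨hg, h1⟩ ⟨hh, h2⟩
    refine ⟨PLH.mul_mem hg hh, fun R => ?_⟩
    obtain ⟨R', hR'⟩ := PLH_bdd h hh R
    obtain ⟨h', hh', e2⟩ := h2 R
    obtain ⟨g', hg', e1⟩ := h1 R'
    refine ⟨g' * h', Gc.mul_mem hg' hh', fun x hx => ?_⟩
    rw [Equiv.Perm.mul_apply, Equiv.Perm.mul_apply, ← e2 x hx, e1 _ (hR' x hx)]
  one_mem' := ⟨PLH.one_mem, fun R => ⟨1, Gc.one_mem, fun _ _ => rfl⟩⟩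
  inv_mem' := by
    rintro g ⟨hg, h1⟩
    refine ⟨PLH.inv_mem hg, fun R => ?_⟩
    obtain ⟨R', hR'⟩ := PLH_bdd g⁻¹ (PLH.inv_mem hg) R
    obtain ⟨g', hg', e1⟩ := h1 R'
    refine ⟨g'⁻¹, Gc.inv_mem hg', fun x hx => ?_⟩
    have h2 := e1 (g⁻¹ x) (hR' x hx)
    have h3 : g (g⁻¹ x) = x := g.apply_symm_apply x
    rw [h3] at h2
    rw [eq_comm, Equiv.Perm.inv_eq_iff_eq]
    exact h2

theorem Gc_le_Pi : Gc ≤ Pi := fun g hg => ⟨hg.1, fun R => ⟨g, hg, fun _ _ => rfl⟩⟩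

/-- homogeneous elements of `Pi` -/
def Cn : Subgroup (Equiv.Perm P2) where
  carrier := {g | g ∈ Pi ∧ ∀ (t : ℝ) (x : P2), 0 < t → g (t • x) = t • g x}
  mul_mem' := by
    rintro g h ⟨hg, h1⟩ ⟨hh, h2⟩
    refine ⟨Pi.mul_mem hg hh, fun t x ht => ?_⟩
    rw [Equiv.Perm.mul_apply, Equiv.Perm.mul_apply, h2 t x ht, h1 t _ ht]
  one_mem' := ⟨Pi.one_mem, fun _ _ _ => rfl⟩
  inv_mem' := by
    rintro g ⟨hg, h1⟩
    refine ⟨Pi.inv_mem hg, fun t x ht => ?_⟩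
    rw [Equiv.Perm.inv_eq_iff_eq, h1 t _ ht]
    congr 1
    exact (g.apply_symm_apply x).symm

/-- affine permutations -/
def IsAff (g : Equiv.Perm P2) : Prop := ∃ m n : L3, ∀ x, g x = (m.ev x, n.ev x)

/-- genuine lines (co-oriented, with an equation) -/
@[ext] structure Ln where
  a : ℝ
  b : ℝ
  c : ℝ
  ne : a ≠ 0 ∨ b ≠ 0

/-- value of the equation -/
def Ln.ev (l : Ln) (x : P2) : ℝ := l.a * x.1 + l.b * x.2 + l.c

/-- linear part -/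
def Ln.lin (l : Ln) (v : P2) : ℝ := l.a * v.1 + l.b * v.2

/-- the line -/
def Ln.zero (l : Ln) : Set P2 := {x | l.ev x = 0}

/-- its positive side -/
def Ln.pos (l : Ln) : Set P2 := {x | 0 < l.ev x}

/-- its negative side -/
def Ln.neg (l : Ln) : Set P2 := {x | l.ev x < 0}

/-- same signs -/
def Same (A : Finset Ln) (x y : P2) : Prop :=
  ∀ l ∈ A, SignType.sign (l.ev x) = SignType.sign (l.ev y)

/-- the cell of `x` -/
def cell (U : Set P2) (A : Finset Ln) (x : P2) : Set P2 := {y | y ∈ U ∧ Same A x y}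

/-- `g` maps cells of `(U, A)` affinely into cells of `A'` -/
def CellMap (U : Set P2) (A : Finset Ln) (g : Equiv.Perm P2) (A' : Finset Ln) : Prop :=
  (∀ x ∈ U, ∀ y ∈ U, Same A x y → Same A' (g x) (g y)) ∧
  ∀ x ∈ U, ∃ m n : L3, ∀ y ∈ cell U A x, g y = (m.ev y, n.ev y)

/-- a geometry: a group, a class of open convex sets, a class of lines -/
structure Geo where
  G : Subgroup (Equiv.Perm P2)
  U : Set (Set P2)
  L : Set Ln

/-- the category of structured open sets -/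
def Geo.Str (𝔾 : Geo) : ActCat (Equiv.Perm P2) where
  Ob := {p : Set P2 × Finset Ln // p.1 ∈ 𝔾.U ∧ ∀ l ∈ p.2, l ∈ 𝔾.L}
  Adm p g q := g ∈ 𝔾.G ∧ (∀ x ∈ p.1.1, g x ∈ q.1.1) ∧ CellMap p.1.1 p.1.2 g q.1.2
  N p :=
    { carrier := {g | g ∈ 𝔾.G ∧ ∀ x ∈ p.1.1, g x = x}
      mul_mem' := by
        rintro g h ⟨hg, h1⟩ ⟨hh, h2⟩
        refine ⟨𝔾.G.mul_mem hg hh, fun x hx => ?_⟩
        rw [Equiv.Perm.mul_apply, h2 x hx, h1 x hx]
      one_mem' := ⟨𝔾.G.one_mem, fun _ _ => rfl⟩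
      inv_mem' := by
        rintro g ⟨hg, h1⟩
        refine ⟨𝔾.G.inv_mem hg, fun x hx => ?_⟩
        rw [Equiv.Perm.inv_eq_iff_eq, h1 x hx] }
  one p := ⟨𝔾.G.one_mem, fun _ hx => hx, fun _ _ _ _ h => h,
    fun x hx => ⟨⟨1, 0, 0⟩, ⟨0, 1, 0⟩, fun y _ => by simp [L3.ev]⟩⟩
  mul := by
    rintro p q r g h ⟨hg, h1, h2, h3⟩ ⟨hh, h4, h5, h6⟩
    refine ⟨𝔾.G.mul_mem hh hg, fun x hx => h4 _ (h1 x hx),
      fun x hx y hy e => h5 _ (h1 x hx) _ (h1 y hy) (h2 x hx y hy e), fun x hx => ?_⟩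
    obtain ⟨m, n, e1⟩ := h3 x hx
    obtain ⟨m', n', e2⟩ := h6 (g x) (h1 x hx)
    refine ⟨m'.sub m n, n'.sub m n, fun y hy => ?_⟩
    rw [L3.ev_sub, L3.ev_sub, Equiv.Perm.mul_apply,
      e2 (g y) ⟨h1 y hy.1, h2 x hx y hy.1 hy.2⟩, e1 y hy]
  nAdm := by
    rintro p n ⟨hn, h1⟩
    refine ⟨hn, fun x hx => by rw [h1 x hx]; exact hx, fun x hx y hy e => by
      rw [h1 x hx, h1 y hy]; exact e, fun x hx =>
      ⟨⟨1, 0, 0⟩, ⟨0, 1, 0⟩, fun y hy => by rw [h1 y hy.1]; simp [L3.ev]⟩⟩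
  conj := by
    rintro p q g n ⟨hg, h1, _, _⟩ ⟨hn, h2⟩
    refine ⟨𝔾.G.mul_mem (𝔾.G.mul_mem (𝔾.G.inv_mem hg) hn) hg, fun x hx => ?_⟩
    rw [Equiv.Perm.mul_apply, Equiv.Perm.mul_apply, h2 (g x) (h1 x hx)]
    exact g.symm_apply_apply x

/-- the piecewise linear geometry -/
def gPL : Geo where
  G := Pi
  U := {U | IsOpen U ∧ Convex ℝ U ∧ U.Nonempty}
  L := Set.univ

/-- the homogeneous geometry: open convex cones (with the plane), lines through the origin -/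
def gCn : Geo where
  G := Cn
  U := {U | IsOpen U ∧ Convex ℝ U ∧ U.Nonempty ∧ (∀ (t : ℝ) (x : P2), 0 < t → x ∈ U → t • x ∈ U)}
  L := {l | l.c = 0}

end C715
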