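import Pool.Agent.Work.MP_c71557_gt.H.Defs4

set_option autoImplicit false
set_option linter.unusedVariables false

/-!
# MP_c71557_gt, block P: flag systems (definitions, all proved)

`Γ` acts on the set `Fl` of flags, the germ of `g` at the flag `φ` is an element `γ g φ` of a group
`Λ` which also acts on `Fl`.  `M` is a space of functions on `Fl` (constant coefficients).
`FV Λ Fl n` = functions on `Fl` with values in `ℚ[Λ^n]`; `gen m s` = the function
`φ ↦ m φ · [γ (s_1) φ, …, γ (s_n) φ]`; `P n` = the span of these.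
-/

namespace C715

open CategoryTheory

/-- flag systems -/
structure FlagSys (Γ Λ Fl : Type) [Group Γ] [Group Λ] [MulAction Γ Fl] [MulAction Λ Fl] where
  γ : Γ → Fl → Λ
  act : ∀ (g : Γ) (φ : Fl), γ g φ • φ = g • φ
  mul : ∀ (h g : Γ) (φ : Fl), γ (h * g) φ = γ h (g • φ) * γ g φ
  M : Submodule ℚ (Fl → ℚ)
  smul_mem : ∀ (g : Γ), ∀ m ∈ M, (fun φ => m (g⁻¹ • φ)) ∈ M

/-- functions on the flags with values in `ℚ[Λ^n]` -/
abbrev FV (Λ Fl : Type) (n : ℕ) : Type := Fl → ((Fin n → Λ) →₀ ℚ)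

/-- reindexing of the coordinates -/
noncomputable def FV.res {Λ Fl : Type} {m n : ℕ} (e : Fin m → Fin n) :
    FV Λ Fl n →ₗ[ℚ] FV Λ Fl m :=
  LinearMap.pi fun φ =>
    (Finsupp.lmapDomain ℚ ℚ (fun t : Fin n → Λ => t ∘ e)).comp (LinearMap.proj φ)

theorem FV.res_apply {Λ Fl : Type} {m n : ℕ} (e : Fin m → Fin n) (f : FV Λ Fl n) (φ : Fl) :
    FV.res e f φ = Finsupp.mapDomain (fun t : Fin n → Λ => t ∘ e) (f φ) := rfl

theorem FV.res_id {Λ Fl : Type} {n : ℕ} (f : FV Λ Fl n) : FV.res (id : Fin n → Fin n) f = f :=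
  funext fun φ => Finsupp.mapDomain_id

theorem FV.res_res {Λ Fl : Type} {l m n : ℕ} (e : Fin l → Fin m) (e' : Fin m → Fin n)
    (f : FV Λ Fl n) : FV.res e (FV.res e' f) = FV.res (e' ∘ e) f := funext fun φ => by
  rw [FV.res_apply, FV.res_apply, FV.res_apply, ← Finsupp.mapDomain_comp]
  rfl

/-- translate of a scalar function -/
def tl {Γ Fl : Type} [Group Γ] [MulAction Γ Fl] (g : Γ) (m : Fl → ℚ) : Fl → ℚ :=
  fun φ => m (g⁻¹ • φ)

namespace FlagSys

variable {Γ Λ Fl : Type} [Group Γ] [Group Λ] [MulAction Γ Fl] [MulAction Λ Fl]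
  (S : FlagSys Γ Λ Fl)

theorem γ_one (φ : Fl) : S.γ 1 φ = 1 := by
  have h := S.mul 1 1 φ
  rw [one_mul, one_smul] at h
  exact left_eq_mul.1 h

theorem γ_inv (g : Γ) (φ : Fl) : S.γ g⁻¹ (g • φ) = (S.γ g φ)⁻¹ := by
  have h := S.mul g⁻¹ g φ
  rw [inv_mul_cancel, γ_one] at h
  exact eq_inv_of_mul_eq_one_left h.symm

theorem γ_eq_iff {g h : Γ} {φ : Fl} : S.γ g φ = S.γ h φ ↔ S.γ (g⁻¹ * h) φ = 1 := by
  constructor
  · intro e
    have h1 : h • φ = g • φ := by rw [← S.act, ← S.act, e]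
    rw [S.mul, h1, S.γ_inv, e, inv_mul_cancel]
  · intro e
    have h1 : (g⁻¹ * h) • φ = φ := by rw [← S.act, e, one_smul]
    have h2 := S.mul g (g⁻¹ * h) φ
    rw [mul_inv_cancel_left, h1, e, mul_one] at h2
    exact h2.symm

/-- translation by an element of the group -/
noncomputable def tr (g : Γ) {n : ℕ} : FV Λ Fl n →ₗ[ℚ] FV Λ Fl n :=
  LinearMap.pi fun φ =>
    (Finsupp.lmapDomain ℚ ℚ (fun (t : Fin n → Λ) (i : Fin n) => t i * S.γ g⁻¹ φ)).comp
      (LinearMap.proj (g⁻¹ • φ))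

theorem tr_apply (g : Γ) {n : ℕ} (f : FV Λ Fl n) (φ : Fl) :
    S.tr g f φ = Finsupp.mapDomain (fun (t : Fin n → Λ) (i : Fin n) => t i * S.γ g⁻¹ φ)
      (f (g⁻¹ • φ)) := rfl

theorem tr_one {n : ℕ} (f : FV Λ Fl n) : S.tr 1 f = f := funext fun φ => by
  rw [tr_apply, inv_one, one_smul, γ_one]
  simp only [mul_one]
  exact Finsupp.mapDomain_id

theorem tr_mul (h g : Γ) {n : ℕ} (f : FV Λ Fl n) : S.tr (h * g) f = S.tr h (S.tr g f) :=
  funext fun φ => by
    rw [tr_apply, tr_apply, tr_apply, ← Finsupp.mapDomain_comp, mul_inv_rev, S.mul, smul_smul]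
    congr 1
    funext t i
    exact (mul_assoc _ _ _).symm

theorem tr_res (g : Γ) {m n : ℕ} (e : Fin m → Fin n) (f : FV Λ Fl n) :
    S.tr g (FV.res e f) = FV.res e (S.tr g f) := funext fun φ => by
  rw [tr_apply, FV.res_apply, FV.res_apply, tr_apply, ← Finsupp.mapDomain_comp,
    ← Finsupp.mapDomain_comp]
  rfl

/-- elementary functions -/
noncomputable def gen {n : ℕ} (m : Fl → ℚ) (s : Fin n → Γ) : FV Λ Fl n :=
  fun φ => Finsupp.single (fun i => S.γ (s i) φ) (m φ)

theorem gen_apply {n : ℕ} (m : Fl → ℚ) (s : Fin n → Γ) (φ : Fl) :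
    S.gen m s φ = Finsupp.single (fun i => S.γ (s i) φ) (m φ) := rfl

theorem gen_add {n : ℕ} (m m' : Fl → ℚ) (s : Fin n → Γ) :
    S.gen (m + m') s = S.gen m s + S.gen m' s := funext fun φ => Finsupp.single_add _ _ _

theorem gen_smul {n : ℕ} (c : ℚ) (m : Fl → ℚ) (s : Fin n → Γ) :
    S.gen (c • m) s = c • S.gen m s := funext fun φ => by
  rw [Pi.smul_apply, gen_apply, gen_apply, Finsupp.smul_single]
  rfl

theorem tr_gen (g : Γ) {n : ℕ} (m : Fl → ℚ) (s : Fin n → Γ) :
    S.tr g (S.gen m s) = S.gen (tl g m) (fun i => s i * g⁻¹) := funext fun φ => by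
  rw [tr_apply, gen_apply, gen_apply, Finsupp.mapDomain_single]
  congr 1
  funext i
  rw [S.mul]

theorem res_gen {k n : ℕ} (e : Fin k → Fin n) (m : Fl → ℚ) (s : Fin n → Γ) :
    FV.res e (S.gen m s) = S.gen m (s ∘ e) := funext fun φ => by
  rw [FV.res_apply, gen_apply, gen_apply, Finsupp.mapDomain_single]
  rfl

/-- the span of the elementary functions -/
noncomputable def P (n : ℕ) : Submodule ℚ (FV Λ Fl n) :=
  Submodule.span ℚ {f | ∃ m ∈ S.M, ∃ s : Fin n → Γ, f = S.gen m s}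

/-- the same with support in `W` -/
noncomputable def Pin (W : Set Fl) (n : ℕ) : Submodule ℚ (FV Λ Fl n) :=
  Submodule.span ℚ {f | ∃ m ∈ S.M, (∀ φ, m φ ≠ 0 → φ ∈ W) ∧ ∃ s : Fin n → Γ, f = S.gen m s}

theorem gen_mem {n : ℕ} {m : Fl → ℚ} (hm : m ∈ S.M) (s : Fin n → Γ) : S.gen m s ∈ S.P n :=
  Submodule.subset_span ⟨m, hm, s, rfl⟩

theorem gen_mem_Pin {W : Set Fl} {n : ℕ} {m : Fl → ℚ} (hm : m ∈ S.M)
    (hW : ∀ φ, m φ ≠ 0 → φ ∈ W) (s : Fin n → Γ) : S.gen m s ∈ S.Pin W n :=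
  Submodule.subset_span ⟨m, hm, hW, s, rfl⟩

theorem Pin_le_P (W : Set Fl) (n : ℕ) : S.Pin W n ≤ S.P n := by
  refine Submodule.span_mono ?_
  rintro f ⟨m, hm, _, s, rfl⟩
  exact ⟨m, hm, s, rfl⟩

theorem P_res {m n : ℕ} (e : Fin m → Fin n) : S.P n ≤ (S.P m).comap (FV.res e) := by
  refine Submodule.span_le.2 ?_
  rintro f ⟨m, hm, s, rfl⟩
  rw [SetLike.mem_coe, Submodule.mem_comap, res_gen]
  exact S.gen_mem hm _

theorem P_tr (g : Γ) {n : ℕ} : S.P n ≤ (S.P n).comap (S.tr g) := by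
  refine Submodule.span_le.2 ?_
  rintro f ⟨m, hm, s, rfl⟩
  rw [SetLike.mem_coe, Submodule.mem_comap, tr_gen]
  exact S.gen_mem (S.smul_mem g m hm) _

theorem Pin_res (W : Set Fl) {m n : ℕ} (e : Fin m → Fin n) :
    S.Pin W n ≤ (S.Pin W m).comap (FV.res e) := by
  refine Submodule.span_le.2 ?_
  rintro f ⟨m, hm, hW, s, rfl⟩
  rw [SetLike.mem_coe, Submodule.mem_comap, res_gen]
  exact S.gen_mem_Pin hm hW _

theorem Pin_tr (g : Γ) {W W' : Set Fl} (h : ∀ φ ∈ W, g • φ ∈ W') {n : ℕ} :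
    S.Pin W n ≤ (S.Pin W' n).comap (S.tr g) := by
  refine Submodule.span_le.2 ?_
  rintro f ⟨m, hm, hW, s, rfl⟩
  rw [SetLike.mem_coe, Submodule.mem_comap, tr_gen]
  refine S.gen_mem_Pin (S.smul_mem g m hm) (fun φ hφ => ?_) _
  have h1 := h _ (hW (g⁻¹ • φ) hφ)
  rwa [smul_inv_smul] at h1

/-- an element with trivial germs on `W` acts trivially -/
theorem Pin_tr_eq (g : Γ) {W : Set Fl} (h : ∀ φ ∈ W, S.γ g φ = 1) {n : ℕ} (f : FV Λ Fl n)
    (hf : f ∈ S.Pin W n) : S.tr g f = f := by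
  induction hf using Submodule.span_induction with
  | mem f hf =>
    obtain ⟨m, hm, hW, s, rfl⟩ := hf
    rw [tr_gen]
    funext φ
    have hfix : ∀ ψ ∈ W, g • ψ = ψ := fun ψ hψ => by rw [← S.act, h ψ hψ, one_smul]
    rw [gen_apply, gen_apply]
    by_cases h1 : m (g⁻¹ • φ) = 0
    · have h2 : m φ = 0 := by
        by_contra h3
        have h4 := hW φ h3
        have h5 : g⁻¹ • φ = φ := by
          rw [inv_smul_eq_iff]
          exact (hfix φ h4).symm
        rw [h5] at h1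
        exact h3 h1
      change Finsupp.single _ (m (g⁻¹ • φ)) = _
      rw [h1, h2, Finsupp.single_zero, Finsupp.single_zero]
    · have h4 := hW _ h1
      have h5 : φ = g⁻¹ • φ := by
        have := hfix _ h4
        rwa [smul_inv_smul] at this
      have h6 : φ ∈ W := by
        rw [h5]
        exact h4
      change Finsupp.single _ (m (g⁻¹ • φ)) = _
      rw [← h5]
      congr 1
      funext i
      have h7 : S.γ (s i * g⁻¹) φ = S.γ (s i) φ := by
        rw [eq_comm, S.γ_eq_iff]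
        have h8 : (s i)⁻¹ * (s i * g⁻¹) = g⁻¹ := by group
        have h9 := S.γ_inv g φ
        rw [hfix φ h6, h φ h6, inv_one] at h9
        rw [h8, h9]
      exact h7
  | zero => rw [map_zero]
  | add x y _ _ hx hy => rw [map_add, hx, hy]
  | smul c x _ hx => rw [map_smul, hx]

/-- the simplicial module `n ↦ P (n + 1)` -/
noncomputable abbrev sP : SMod where
  X n := ↥(S.P (n + 1))
  map e := (FV.res e).restrict (S.P_res e)
  map_id x := Subtype.ext (FV.res_id x.1)
  map_comp e e' x := Subtype.ext (FV.res_res e e' x.1).symm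

/-- the simplicial module of functions supported in `W` -/
noncomputable abbrev sPin (W : Set Fl) : SMod where
  X n := ↥(S.Pin W (n + 1))
  map e := (FV.res e).restrict (S.Pin_res W e)
  map_id x := Subtype.ext (FV.res_id x.1)
  map_comp e e' x := Subtype.ext (FV.res_res e e' x.1).symm

/-- the relations of the coinvariants -/
noncomputable def coin (n : ℕ) : Submodule ℚ (↥(S.P n)) :=
  Submodule.span ℚ {x | ∃ (g : Γ) (y : ↥(S.P n)), x = y - (S.tr g).restrict (S.P_tr g) y}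

theorem coin_res {m n : ℕ} (e : Fin m → Fin n) :
    S.coin n ≤ (S.coin m).comap ((FV.res e).restrict (S.P_res e)) := by
  refine Submodule.span_le.2 ?_
  rintro _ ⟨g, y, rfl⟩
  rw [SetLike.mem_coe, Submodule.mem_comap, map_sub]
  refine Submodule.subset_span ⟨g, (FV.res e).restrict (S.P_res e) y, ?_⟩
  congr 1
  exact Subtype.ext (S.tr_res g e y.1).symm

/-- the simplicial module of germ chains: coinvariants of `P (n + 1)` -/
noncomputable abbrev sC : SMod where
  X n := ↥(S.P (n + 1)) ⧸ S.coin (n + 1)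
  map e := Submodule.mapQ _ _ ((FV.res e).restrict (S.P_res e)) (S.coin_res e)
  map_id x := by
    obtain ⟨x, rfl⟩ := Submodule.Quotient.mk_surjective _ x
    exact congrArg Submodule.Quotient.mk (Subtype.ext (FV.res_id x.1))
  map_comp e e' x := by
    obtain ⟨x, rfl⟩ := Submodule.Quotient.mk_surjective _ x
    exact congrArg Submodule.Quotient.mk (Subtype.ext (FV.res_res e e' x.1).symm)

/-- the complex of germ chains -/
noncomputable abbrev Ch : Cx := S.sC.cx

end FlagSys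

/-! ## coefficient systems from representations -/

/-- coefficient system `a ↦ W a`, submodules of a space with operators `ρ g` -/
abbrev ActCat.coefSub {Γ : Type} [Group Γ] (A : ActCat Γ) {V : Type} [AddCommGroup V] [Module ℚ V]
    (ρ : Γ → V →ₗ[ℚ] V) (ρ1 : ∀ v, ρ 1 v = v) (ρm : ∀ h g v, ρ (h * g) v = ρ h (ρ g v))
    (W : A.Ob → Submodule ℚ V) (hW : ∀ {a b g}, A.Adm a g b → W a ≤ (W b).comap (ρ g))
    (hN : ∀ {a n}, n ∈ A.N a → ∀ v ∈ W a, ρ n v = v) : Coef A.Obj where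
  M a := ↥(W a.o)
  map {a b} u := Quotient.lift (fun g : {g : Γ // A.Adm a.o g b.o} => (ρ g.1).restrict (hW g.2)) (by
    rintro ⟨g, hg⟩ ⟨g', hg'⟩ (e : g⁻¹ * g' ∈ A.N a.o)
    refine LinearMap.ext fun v => Subtype.ext ?_
    change ρ g v.1 = ρ g' v.1
    have h1 : g' = g * (g⁻¹ * g') := by group
    rw [h1, ρm, hN e v.1 v.2]) u
  map_id a x := Subtype.ext (ρ1 x.1)
  map_comp {a b c} u v x := by
    induction u using ActCat.ind with
    | h f hf =>
      induction v using ActCat.ind with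
      | h g hg => exact Subtype.ext (ρm g f x.1)

/-- cells of a flag system: objects with supports -/
structure CellSys {Γ Λ Fl : Type} [Group Γ] [Group Λ] [MulAction Γ Fl] [MulAction Λ Fl]
    (S : FlagSys Γ Λ Fl) (A : ActCat Γ) where
  supp : A.Ob → Set Fl
  adm : ∀ {a b g}, A.Adm a g b → ∀ φ ∈ supp a, g • φ ∈ supp b
  triv : ∀ {a n}, n ∈ A.N a → ∀ φ ∈ supp a, S.γ n φ = 1

namespace CellSys

variable {Γ Λ Fl : Type} [Group Γ] [Group Λ] [MulAction Γ Fl] [MulAction Λ Fl]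
  {S : FlagSys Γ Λ Fl} {A : ActCat Γ} (K : CellSys S A)

/-- the coefficient system `a ↦ Pin (supp a) n` -/
noncomputable abbrev pF (n : ℕ) : Coef A.Obj :=
  A.coefSub (V := FV Λ Fl n) (fun g => S.tr g) S.tr_one (fun h g v => S.tr_mul h g v)
    (fun a => S.Pin (K.supp a) n) (fun h => S.Pin_tr _ (K.adm h))
    (fun hn v hv => S.Pin_tr_eq _ (K.triv hn) v hv)

/-- reindexing as a morphism of coefficient systems -/
noncomputable def pFres {m n : ℕ} (e : Fin m → Fin n) : Coef.Hom (K.pF n) (K.pF m) where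
  f a := (FV.res e).restrict (S.Pin_res (K.supp a.o) e)
  comm {a b} u x := by
    induction u using ActCat.ind with
    | h g hg => exact Subtype.ext (S.tr_res g e x.1).symm

/-- the complex of coefficient systems `a ↦ (Pin (supp a) (q + 1))_q` -/
noncomputable abbrev pL : CoefCx A.Obj where
  F q := K.pF (q + 1)
  d q :=
    { f := fun a => (S.sPin (K.supp a.o)).alt q
      comm := by
        intro a b u x
        rw [SMod.alt_apply, SMod.alt_apply, map_sum]
        refine Finset.sum_congr rfl fun i _ => ?_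
        rw [map_smul]
        congr 1
        exact (K.pFres (dl i)).comm u x }
  dd q a x := (S.sPin (K.supp a.o)).alt_alt q x

/-- the map to the coinvariants -/
noncomputable abbrev toCo (a : A.Ob) (n : ℕ) :
    ↥(S.Pin (K.supp a) n) →ₗ[ℚ] (↥(S.P n) ⧸ S.coin n) :=
  (Submodule.mkQ (S.coin n)).comp (Submodule.inclusion (S.Pin_le_P (K.supp a) n))

theorem toCo_map {n : ℕ} {a b : A.Obj} (u : a ⟶ b) (y : (K.pF n).M a) :
    K.toCo b.o n ((K.pF n).map u y) = K.toCo a.o n y := by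
  induction u using ActCat.ind with
  | h g hg =>
    refine ((Submodule.Quotient.eq (S.coin n)).2 ?_).symm
    exact Submodule.subset_span ⟨g, Submodule.inclusion (S.Pin_le_P (K.supp a.o) n) y, rfl⟩

/-- the row augmentation to the germ chains -/
noncomputable def rowA : DCx.RowAug K.pL.hoco S.Ch where
  e q := bdesc (K.pF (q + 1)) fun σ => K.toCo (σ.o 0).o (q + 1)
  comm q x := by
    induction x using bar_ind with
    | h0 => simp only [map_zero]
    | h1 σ y =>
      have h1 : (barHom (K.pL.d q)).f 0 (bof (K.pF (q + 1 + 1)) σ y) =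
        bof (K.pF (q + 1)) σ ((S.sPin (K.supp (σ.o 0).o)).alt q y) := bdesc_bof _ _ _ _
      change bdesc _ _ ((barHom (K.pL.d q)).f 0 (bof (K.pF (q + 1 + 1)) σ y)) = _
      rw [h1, bdesc_bof, bdesc_bof, SMod.alt_apply, map_sum]
      change _ = S.sC.alt q _
      rw [SMod.alt_apply]
      refine Finset.sum_congr rfl fun i _ => ?_
      rw [map_smul]
      rfl
    | h2 x y hx hy => simp only [map_add, hx, hy]
  zero q x := by
    induction x using bar_ind with
    | h0 => simp only [map_zero]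
    | h1 σ y =>
      change bdesc _ _ ((barS (K.pF (q + 1))).alt 0 (bof (K.pF (q + 1)) σ y)) = 0
      rw [SMod.alt_apply, Fin.sum_univ_two]
      change bdesc _ _ (_ • barMap _ _ _ + _ • barMap _ _ _) = 0
      rw [barMap_bof, barMap_bof, map_add, map_smul, map_smul, bdesc_bof, bdesc_bof,
        K.toCo_map, K.toCo_map]
      rw [← add_smul]
      norm_num
    | h2 x y hx hy => simp only [map_add, hx, hy, add_zero]

/-- the column augmentation to the chains with constant coefficients `M` -/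
noncomputable def colA : DCx.ColAug K.pL.hoco (barC (K.pF 0)) where
  e p := (barHom (K.pFres (Fin.elim0 : Fin 0 → Fin 1))).f p
  comm p x := (barHom (K.pFres (Fin.elim0 : Fin 0 → Fin 1))).comm p x
  zero p x := by
    induction x using bar_ind with
    | h0 => simp only [map_zero]
    | h1 σ y =>
      have h1 : (barHom (K.pL.d 0)).f p (bof (K.pF (0 + 1 + 1)) σ y) =
        bof (K.pF (0 + 1)) σ ((S.sPin (K.supp (σ.o 0).o)).alt 0 y) := bdesc_bof _ _ _ _
      change (barHom _).f p ((barHom (K.pL.d 0)).f p (bof (K.pF (0 + 1 + 1)) σ y)) = 0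
      rw [h1, SMod.alt_apply, Fin.sum_univ_two]
      change bdesc _ _ (bof _ σ _) = 0
      rw [bdesc_bof]
      refine (congrArg (bof (K.pF 0) σ) (Subtype.ext ?_)).trans (map_zero _)
      change FV.res (Fin.elim0 : Fin 0 → Fin 1) (((-1 : ℚ) ^ ((0 : Fin 2) : ℕ)) •
        FV.res (dl 0) y.1 + ((-1 : ℚ) ^ ((1 : Fin 2) : ℕ)) • FV.res (dl 1) y.1) = 0
      rw [map_add, map_smul, map_smul, FV.res_res, FV.res_res]
      have h2 : (⇑(dl (0 : Fin 2)) ∘ (Fin.elim0 : Fin 0 → Fin 1)) =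
        (⇑(dl (1 : Fin 2)) ∘ (Fin.elim0 : Fin 0 → Fin 1)) := funext fun i => i.elim0
      rw [h2, ← add_smul]
      norm_num
    | h2 x y hx hy => simp only [map_add, hx, hy, add_zero]

/-- finite families of functions and of group elements can be refined to cells with an apex -/
def Refines : Prop :=
  ∀ (J : Set (Fl → ℚ)) (T : Set Γ), J.Finite → T.Finite → J ⊆ S.M →
    ∃ (I : Type) (_ : Fintype I) (a : I → A.Ob) (c : I → Fl → ℚ) (x : I → Fl),
      (∀ i, c i ∈ S.M) ∧ (∀ i φ, c i φ ≠ 0 → φ ∈ K.supp (a i)) ∧ (∀ i, c i (x i) ≠ 0) ∧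
      (∀ i j φ, c i φ ≠ 0 → c j φ ≠ 0 → i = j) ∧
      (∀ m ∈ J, m ∈ Submodule.span ℚ (Set.range c)) ∧
      (∀ i, ∀ u ∈ T, S.γ u (x i) = 1 → u ∈ A.N (a i)) ∧
      (∀ i (g : Γ) (b : A.Ob), (∀ φ, c i φ ≠ 0 → g • φ ∈ K.supp b) → A.Adm (a i) g b)

end CellSys

/-! ## morphisms of flag systems -/

/-- a morphism: linear maps `P n → P' n` compatible with reindexing and with the relations -/
structure FsHom {Γ Λ Fl : Type} [Group Γ] [Group Λ] [MulAction Γ Fl] [MulAction Λ Fl]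
    {Γ' Λ' Fl' : Type} [Group Γ'] [Group Λ'] [MulAction Γ' Fl'] [MulAction Λ' Fl']
    (S : FlagSys Γ Λ Fl) (S' : FlagSys Γ' Λ' Fl') where
  f : ∀ n, ↥(S.P n) →ₗ[ℚ] ↥(S'.P n)
  res : ∀ {m n : ℕ} (e : Fin m → Fin n) (x : ↥(S.P n)),
    f m ((FV.res e).restrict (S.P_res e) x) = (FV.res e).restrict (S'.P_res e) (f n x)
  coin : ∀ n, S.coin n ≤ (S'.coin n).comap (f n)

namespace FsHom

variable {Γ Λ Fl : Type} [Group Γ] [Group Λ] [MulAction Γ Fl] [MulAction Λ Fl]
  {Γ' Λ' Fl' : Type} [Group Γ'] [Group Λ'] [MulAction Γ' Fl'] [MulAction Λ' Fl']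
  {S : FlagSys Γ Λ Fl} {S' : FlagSys Γ' Λ' Fl'}

/-- the chain map of germ chains -/
noncomputable def ch (h : FsHom S S') : Cx.Hom S.Ch S'.Ch :=
  SMod.Hom.cx
  { f := fun n => Submodule.mapQ _ _ (h.f (n + 1)) (h.coin (n + 1))
    comm := by
      intro m n e x
      obtain ⟨x, rfl⟩ := Submodule.Quotient.mk_surjective _ x
      exact congrArg Submodule.Quotient.mk (h.res e x) }

end FsHom

end C715
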