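import Pool.Agent.Work.MP_c71557_gt.P.Th
import Pool.Agent.Work.MP_c71557_gt.H.Rows

set_option autoImplicit false
set_option linter.unusedVariables false

/-!
# MP_c71557_gt, module P/GTCol: the column augmentation is a quasi-isomorphism (M)

`K.colA : ColAug K.pL.hoco (barC (K.pF 0))`; use `DCx.ColAug.qis` (`H/Rows`).

CONTRACTION.  `FV.cons : FV Λ Fl n → FV Λ Fl (n + 1)`, pointwise `mapDomain (fun t => Fin.cons 1 t)`
(insert `1 ∈ Λ` as coordinate `0`).  On generators: `gen m s ↦ gen m (Fin.cons 1 s)`, because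
`γ 1 φ = 1` (`FlagSys.γ_one`).  So it maps `Pin W n` to `Pin W (n + 1)` (span induction).
For `x ∈ X n = Pin W (n + 1)` (the simplicial module `S.sPin W`, `X n = Pin W (n+1)`, faces
`res (dl i)`): `res (dl 0) (cons x) = x` and `res (dl i.succ) (cons x) = cons (res (dl i) x)` (as
functions on `Fin`: `Fin.cons 1 t ∘ succAbove 0 = t`, `Fin.cons 1 t ∘ (i.succ).succAbove =
Fin.cons 1 (t ∘ i.succAbove)`).  Hence for `n ≥ 1`, `alt n (cons x) = x - cons (alt (n-1) x)`
(`SMod.alt_apply`, `Fin.sum_univ_succ`), so `alt (n-1) x = 0` implies `x = alt n (cons x)`.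
For `n = 0`, `x ∈ Pin W 1`: `alt 0 (cons x) = x - cons (res elim0 x)`.
And `res elim0 (cons y) = y` for `y ∈ Pin W 0` (surjectivity of the augmentation).

The columns of `hoco` for fixed `p` are the direct sums over `σ ∈ Sx p` of these complexes
(`BarX (K.pF (q+1)) p = ⨁_σ Pin (supp σ_0) (q+1)`, `dv = barHom (K.pL.d q)`, componentwise
`alt q`; augmentation componentwise `K.pFres elim0`).  So the contraction is componentwise too:
`bdesc _ fun σ => (bof _ σ) ∘ cons` is a linear map `BarX (K.pF n) p → BarX (K.pF (n+1)) p`; check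
the identities on `bof σ y` (`bar_ind`).
-/

namespace C715

open CategoryTheory

/-- insertion of `1` as coordinate `0` -/
private noncomputable def gcons {Λ Fl : Type} [Group Λ] {n : ℕ} : FV Λ Fl n →ₗ[ℚ] FV Λ Fl (n + 1) :=
  LinearMap.pi fun φ =>
    (Finsupp.lmapDomain ℚ ℚ (fun t : Fin n → Λ => (Fin.cons 1 t : Fin (n + 1) → Λ))).comp
      (LinearMap.proj φ)

private theorem gcons_apply {Λ Fl : Type} [Group Λ] {n : ℕ} (f : FV Λ Fl n) (φ : Fl) :
    gcons f φ = Finsupp.mapDomain (fun t : Fin n → Λ => (Fin.cons 1 t : Fin (n + 1) → Λ)) (f φ) :=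
  rfl

private theorem gcons_gen {Γ Λ Fl : Type} [Group Γ] [Group Λ] [MulAction Γ Fl] [MulAction Λ Fl]
    (S : FlagSys Γ Λ Fl) {n : ℕ} (m : Fl → ℚ) (s : Fin n → Γ) :
    gcons (S.gen m s) = S.gen m (Fin.cons 1 s : Fin (n + 1) → Γ) := funext fun φ => by
  rw [gcons_apply, FlagSys.gen_apply, FlagSys.gen_apply, Finsupp.mapDomain_single]
  congr 1
  funext i
  refine Fin.cases ?_ (fun j => ?_) i
  · rw [Fin.cons_zero, Fin.cons_zero, S.γ_one]
  · rw [Fin.cons_succ, Fin.cons_succ]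

private theorem gcons_Pin {Γ Λ Fl : Type} [Group Γ] [Group Λ] [MulAction Γ Fl] [MulAction Λ Fl]
    (S : FlagSys Γ Λ Fl) (W : Set Fl) (n : ℕ) :
    S.Pin W n ≤ (S.Pin W (n + 1)).comap gcons := by
  refine Submodule.span_le.2 ?_
  rintro f ⟨m, hm, hW, s, rfl⟩
  rw [SetLike.mem_coe, Submodule.mem_comap, gcons_gen]
  exact S.gen_mem_Pin hm hW _

private theorem res_gcons_zero {Λ Fl : Type} [Group Λ] {n : ℕ} (f : FV Λ Fl (n + 1)) :
    FV.res (dl (0 : Fin (n + 2))) (gcons f) = f := funext fun φ => by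
  rw [FV.res_apply, gcons_apply, ← Finsupp.mapDomain_comp]
  have h : ((fun t : Fin (n + 2) → Λ => t ∘ ⇑(dl (0 : Fin (n + 2)))) ∘
      fun t : Fin (n + 1) → Λ => (Fin.cons 1 t : Fin (n + 2) → Λ)) = id := by
    funext t i
    change (Fin.cons 1 t : Fin (n + 2) → Λ) ((0 : Fin (n + 2)).succAbove i) = t i
    rw [Fin.succAbove_zero, Fin.cons_succ]
  rw [h, Finsupp.mapDomain_id]

private theorem res_gcons_succ {Λ Fl : Type} [Group Λ] {n : ℕ} (i : Fin (n + 2))
    (f : FV Λ Fl (n + 2)) :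
    FV.res (dl i.succ) (gcons f) = gcons (FV.res (dl i) f) := funext fun φ => by
  rw [FV.res_apply, gcons_apply, gcons_apply, FV.res_apply, ← Finsupp.mapDomain_comp,
    ← Finsupp.mapDomain_comp]
  congr 1
  funext t j
  change (Fin.cons 1 t : Fin (n + 3) → Λ) (i.succ.succAbove j) =
    (Fin.cons 1 (fun k => t (i.succAbove k)) : Fin (n + 2) → Λ) j
  refine Fin.cases ?_ (fun k => ?_) j
  · rw [Fin.succ_succAbove_zero, Fin.cons_zero, Fin.cons_zero]
  · rw [Fin.succ_succAbove_succ, Fin.cons_succ, Fin.cons_succ]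

private theorem res_gcons_elim {Λ Fl : Type} [Group Λ] (f : FV Λ Fl 0) :
    FV.res (Fin.elim0 : Fin 0 → Fin 1) (gcons f) = f := funext fun φ => by
  rw [FV.res_apply, gcons_apply, ← Finsupp.mapDomain_comp]
  have h : ((fun t : Fin 1 → Λ => t ∘ (Fin.elim0 : Fin 0 → Fin 1)) ∘
      fun t : Fin 0 → Λ => (Fin.cons 1 t : Fin 1 → Λ)) = id := by
    funext t i
    exact i.elim0
  rw [h, Finsupp.mapDomain_id]

private theorem res_gcons_one {Λ Fl : Type} [Group Λ] (f : FV Λ Fl 1) :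
    FV.res (dl (1 : Fin 2)) (gcons f) = gcons (FV.res (Fin.elim0 : Fin 0 → Fin 1) f) :=
  funext fun φ => by
  rw [FV.res_apply, gcons_apply, gcons_apply, FV.res_apply, ← Finsupp.mapDomain_comp,
    ← Finsupp.mapDomain_comp]
  congr 1
  funext t j
  have hj : j = 0 := Fin.ext (by have := j.2; omega)
  subst hj
  rfl

namespace CellSys

variable {Γ Λ Fl : Type} [Group Γ] [Group Λ] [MulAction Γ Fl] [MulAction Λ Fl]
  {S : FlagSys Γ Λ Fl} {A : ActCat Γ} (K : CellSys S A)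

/-- the contraction at an object -/
private noncomputable def cc (n : ℕ) (a : A.Obj) : (K.pF n).M a →ₗ[ℚ] (K.pF (n + 1)).M a :=
  (gcons (Λ := Λ) (Fl := Fl) (n := n)).restrict (gcons_Pin S (K.supp a.o) n)

/-- the contraction -/
private noncomputable def ch (n p : ℕ) : BarX (K.pF n) p →ₗ[ℚ] BarX (K.pF (n + 1)) p :=
  bdesc (K.pF n) fun σ => (bof (K.pF (n + 1)) σ).comp (K.cc n (σ.o 0))

private theorem ch_bof (n p : ℕ) (σ : Sx A.Obj p) (y : (K.pF n).M (σ.o 0)) :
    K.ch n p (bof (K.pF n) σ y) = bof (K.pF (n + 1)) σ (K.cc n (σ.o 0) y) := bdesc_bof _ _ _ _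

private theorem cc_succ (q : ℕ) (a : A.Obj) (y : (K.pF (q + 2)).M a) :
    (K.pL.d (q + 1)).f a (K.cc (q + 2) a y) = y - K.cc (q + 1) a ((K.pL.d q).f a y) := by
  change (S.sPin (K.supp a.o)).alt (q + 1) (K.cc (q + 2) a y) =
    y - K.cc (q + 1) a ((S.sPin (K.supp a.o)).alt q y)
  rw [SMod.alt_apply, SMod.alt_apply, Fin.sum_univ_succ, map_sum]
  have h0 : ((-1 : ℚ) ^ ((0 : Fin (q + 3)) : ℕ)) •
      (S.sPin (K.supp a.o)).map (dl (0 : Fin (q + 3))) (K.cc (q + 2) a y) = y := by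
    rw [Fin.val_zero, pow_zero, one_smul]
    exact Subtype.ext (res_gcons_zero y.1)
  rw [h0, sub_eq_add_neg, ← Finset.sum_neg_distrib]
  congr 1
  refine Finset.sum_congr rfl fun i _ => ?_
  rw [map_smul, Fin.val_succ, pow_succ, mul_neg_one, neg_smul]
  congr 2
  exact Subtype.ext (res_gcons_succ i y.1)

private theorem cc_zero (a : A.Obj) (y : (K.pF 1).M a) :
    (K.pL.d 0).f a (K.cc 1 a y) =
      y - K.cc 0 a ((K.pFres (Fin.elim0 : Fin 0 → Fin 1)).f a y) := by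
  change (S.sPin (K.supp a.o)).alt 0 (K.cc 1 a y) = _
  rw [SMod.alt_apply, Fin.sum_univ_two]
  have h0 : (S.sPin (K.supp a.o)).map (dl (0 : Fin 2)) (K.cc 1 a y) = y :=
    Subtype.ext (res_gcons_zero y.1)
  have h1 : (S.sPin (K.supp a.o)).map (dl (1 : Fin 2)) (K.cc 1 a y) =
      K.cc 0 a ((K.pFres (Fin.elim0 : Fin 0 → Fin 1)).f a y) :=
    Subtype.ext (res_gcons_one y.1)
  rw [h0, h1, Fin.val_zero, pow_zero, one_smul, Fin.val_one, pow_one, neg_one_smul, sub_eq_add_neg]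

private theorem dv_bof (q p : ℕ) (σ : Sx A.Obj p) (y : (K.pF (q + 2)).M (σ.o 0)) :
    K.pL.hoco.dv p q (bof (K.pF (q + 2)) σ y) = bof (K.pF (q + 1)) σ ((K.pL.d q).f (σ.o 0) y) :=
  bdesc_bof _ _ _ _

private theorem e_bof (p : ℕ) (σ : Sx A.Obj p) (y : (K.pF 1).M (σ.o 0)) :
    K.colA.e p (bof (K.pF 1) σ y) =
      bof (K.pF 0) σ ((K.pFres (Fin.elim0 : Fin 0 → Fin 1)).f (σ.o 0) y) :=
  bdesc_bof _ _ _ _

private theorem ch_succ (q p : ℕ) (x : BarX (K.pF (q + 2)) p) :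
    K.pL.hoco.dv p (q + 1) (K.ch (q + 2) p x) = x - K.ch (q + 1) p (K.pL.hoco.dv p q x) := by
  induction x using bar_ind with
  | h0 => simp only [map_zero, sub_zero]
  | h1 σ y =>
    rw [ch_bof, dv_bof, dv_bof, ch_bof]
    refine (congrArg (bof (K.pF (q + 1 + 1)) σ) (K.cc_succ q (σ.o 0) y)).trans ?_
    rw [map_sub]
  | h2 x y hx hy =>
    simp only [map_add, hx, hy]
    abel

private theorem ch_zero (p : ℕ) (x : BarX (K.pF 1) p) :
    K.pL.hoco.dv p 0 (K.ch 1 p x) = x - K.ch 0 p (K.colA.e p x) := by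
  induction x using bar_ind with
  | h0 => simp only [map_zero, sub_zero]
  | h1 σ y =>
    rw [ch_bof, dv_bof, e_bof, ch_bof]
    refine (congrArg (bof (K.pF (0 + 1)) σ) (K.cc_zero (σ.o 0) y)).trans ?_
    rw [map_sub]
  | h2 x y hx hy =>
    simp only [map_add, hx, hy]
    abel

private theorem e_ch (p : ℕ) (x : BarX (K.pF 0) p) : K.colA.e p (K.ch 0 p x) = x := by
  induction x using bar_ind with
  | h0 => simp only [map_zero]
  | h1 σ y =>
    rw [ch_bof, e_bof]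
    exact congrArg (bof (K.pF 0) σ) (Subtype.ext (res_gcons_elim y.1))
  | h2 x y hx hy => simp only [map_add, hx, hy]

theorem colA_qis : Cx.Qis K.colA.hom := by
  refine DCx.ColAug.qis K.colA (fun p x => ⟨K.ch 0 p x, K.e_ch p x⟩) (fun p x hx => ?_)
    fun p q x hx => ?_
  · refine ⟨K.ch 1 p x, ?_⟩
    rw [ch_zero, hx, map_zero, sub_zero]
  · refine ⟨K.ch (q + 2) p x, ?_⟩
    rw [ch_succ, hx, map_zero, sub_zero]

end CellSys
end C715
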