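import Pool.Agent.Work.MP_c71557_gt.P.Th
import Pool.Agent.Work.MP_c71557_gt.H.Eps1

set_option autoImplicit false
set_option linter.unusedVariables false

/-!
# MP_c71557_gt, module P/GTRow1: exactness of the rows in positive degrees (L)

Fix `n ≥ 1` germs (`n = N + 1`), `C_p = BarX (K.pF (N+1)) p = ⨁_{σ ∈ Sx p} Pin (supp σ_0) (N+1)`.
CLAIM: `z ∈ C_{p+1}`, `d z = 0` imply `z = d w`.

1. REPRESENTATION.  `z = ∑_{j ∈ J} q_j bof σ_j (gen m_j s^j)`, `J` finite, `m_j ∈ M`,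
   `supp m_j ⊆ supp (σ_j)_0`, `s^j : Fin (N+1) → Γ` (`bar_ind` and span induction; one may take all
   `q_j = 1`, as `q • m_j ∈ M`).
2. REFINEMENT.  Let `m'_j = tl (s^j_0) m_j ∈ M` (`tl g m φ = m (g⁻¹ φ)`).  For a face index `l` of
   `σ_j` let `g_{j,l} = rep ((σ_j).m 0 1)` if `l = 0` and `g_{j,l} = 1` if `l ≥ 1`; so the `l`-th face
   of `bof σ_j y` is `bof (d_l σ_j) (tr g_{j,l} y)`.  Apply `hR : K.Refines` to the finite family
   `(m'_j)` and the finite set `T` of all `s^j_0 g_{j,l}⁻¹ g_{j',l'} (s^{j'}_0)⁻¹` and all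
   `(s^j_k (s^j_0)⁻¹)⁻¹ s^{j'}_k (s^{j'}_0)⁻¹`.  Get cells `(a_i, c_i, x_i)`,
   `m'_j = ∑_i α_{ji} c_i`.  The `c_i` have disjoint supports, `m'_j(φ) = α_{ji} c_i(φ)` for
   `φ ∈ supp c_i`.  If `α_{ji} ≠ 0` and `c_i φ ≠ 0` then `m_j ((s^j_0)⁻¹ φ) ≠ 0`, so
   `(s^j_0)⁻¹ φ ∈ supp (σ_j)_0`: by the last clause of `Refines`, `Adm (a_i) (s^j_0)⁻¹ (σ_j)_0`.
3. CONTRACTION.  `w = ∑_{j} ∑_{i : α_{ji} ≠ 0} α_{ji} bof (cons a_i σ_j [(s^j_0)⁻¹])
   (gen c_i (s^j_k (s^j_0)⁻¹)_k)` (`Sx.cons` of `H/Defs2`: prepend an object).  Its face `0` is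
   `bof σ_j (tr (s^j_0)⁻¹ (gen c_i (s^j (s^j_0)⁻¹))) = bof σ_j (gen (tl (s^j_0)⁻¹ c_i) s^j)`, and
   `∑_i α_{ji} tl (s^j_0)⁻¹ c_i = m_j`: the faces `0` add up to `z`.  The face `l + 1` is
   `bof (cons a_i (d_l σ_j) [g_{j,l} (s^j_0)⁻¹]) (gen c_i (s^j (s^j_0)⁻¹))`.  So `z - d w = R`,
   `R = ∑_{j,i} α_{ji} ∑_l (-1)^l bof (cons a_i (d_l σ_j) κ_{j,l}) (gen c_i (s^j (s^j_0)⁻¹))`,
   `κ_{j,l} = [g_{j,l} (s^j_0)⁻¹] : a_i → (d_l σ_j)_0`.
4. `R = 0`.  Fix `i`, a simplex `ρ` and an arrow `κ = [k̂] : a_i → ρ_0`, `k̂ = g_{j,l} (s^j_0)⁻¹` for one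
   of the pairs involved.  We must show that
   `r = ∑_{(j,l) : d_l σ_j = ρ, κ_{j,l} = κ} (-1)^l α_{ji} gen c_i (s^j (s^j_0)⁻¹)` vanishes.
   For `φ ∈ supp c_i ⊆ supp a_i` the tuple `t_j(φ) = (γ (s^j_k (s^j_0)⁻¹) φ)_k`; `t_j(x_i) = t_{j'}(x_i)`
   implies, by the clause on `T` and `K.triv`, `t_j = t_{j'}` on all of `supp a_i`.  So
   `r(φ) / c_i(φ)` is the image of `r(x_i) / c_i(x_i)` under a map of the (finite) set of tuples,
   and it is enough that `r(x_i) = 0`.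
   The component of `d z = 0` at `ρ` is
   `∑_{(j,l) : d_l σ_j = ρ} (-1)^l tr g_{j,l} (gen m_j s^j) = 0`.  Evaluate at the flag `k̂ x_i` and
   multiply the tuples on the right by `γ k̂ x_i` (an injective `mapDomain`):
   `∑_{(j,l) : d_l σ_j = ρ} (-1)^l m_j (g_{j,l}⁻¹ k̂ x_i) [γ (s^j_k g_{j,l}⁻¹ k̂) x_i]_k = 0` in
   `ℚ[Λ^{N+1}]`.  Restrict to the tuples whose coordinate `0` is `1`: `γ (s^j_0 g_{j,l}⁻¹ k̂) x_i = 1`
   iff (clause on `T`) `s^j_0 g_{j,l}⁻¹ k̂ ∈ N (a_i)` iff `κ_{j,l} = κ` (`ActCat.hom_eq`).  For these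
   pairs `s^j_0 g_{j,l}⁻¹ k̂` fixes `x_i`, so `m_j (g_{j,l}⁻¹ k̂ x_i) = m_j ((s^j_0)⁻¹ x_i) = m'_j(x_i) =
   α_{ji} c_i(x_i)` and `γ (s^j_k g_{j,l}⁻¹ k̂) x_i = γ (s^j_k (s^j_0)⁻¹) x_i`.  So the restricted sum is
   `r(x_i)` and it vanishes.

TECHNICAL HINT: it may be convenient to do the bookkeeping of 3, 4 with linear maps out of the free
module on the finite index set `J`, or with `DirectSum` components: the component of `R` at the
simplex `cons a ρ κ`.
-/

namespace C715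

open CategoryTheory

namespace CellSys

variable {Γ Λ Fl : Type} [Group Γ] [Group Λ] [MulAction Γ Fl] [MulAction Λ Fl]
  {S : FlagSys Γ Λ Fl} {A : ActCat Γ} (K : CellSys S A)

namespace GTr

theorem map_val {n : ℕ} {a b : A.Obj} (u : a ⟶ b) (y : (K.pF n).M a) :
    (((K.pF n).map u y).1 : FV Λ Fl n) = S.tr (rep u) y.1 := by
  conv_lhs => rw [rep_hom u]
  rfl

theorem bof_congr {n p : ℕ} {σ τ : Sx A.Obj p} (h : σ = τ) (y : (K.pF n).M (σ.o 0))
    (y' : (K.pF n).M (τ.o 0)) (hy : (y.1 : FV Λ Fl n) = y'.1) :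
    bof (K.pF n) σ y = bof (K.pF n) τ y' := by
  subst h
  exact congrArg _ (Subtype.ext hy)

/-- elementary elements -/
noncomputable def gE {n : ℕ} (b : A.Obj) (m : Fl → ℚ) (hm : m ∈ S.M)
    (hs : ∀ φ, m φ ≠ 0 → φ ∈ K.supp b.o) (s : Fin n → Γ) : (K.pF n).M b :=
  (⟨S.gen m s, S.gen_mem_Pin hm hs s⟩ : ↥(S.Pin (K.supp b.o) n))

/-- raw representations -/
def Raw {n p : ℕ} (z : BarX (K.pF n) p) : Prop :=
  ∃ (J : Type) (_ : Fintype J) (σ : J → Sx A.Obj p) (m : J → Fl → ℚ) (hm : ∀ j, m j ∈ S.M)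
    (hs : ∀ j φ, m j φ ≠ 0 → φ ∈ K.supp ((σ j).o 0).o) (s : J → Fin n → Γ),
    z = ∑ j, bof (K.pF n) (σ j) (gE K ((σ j).o 0) (m j) (hm j) (hs j) (s j))

theorem Raw.zero {n p : ℕ} : Raw K (0 : BarX (K.pF n) p) :=
  ⟨Empty, inferInstance, fun e => e.elim, fun e => e.elim, fun e => e.elim, fun e => e.elim,
    fun e => e.elim, by simp⟩

theorem Raw.add {n p : ℕ} {x y : BarX (K.pF n) p} (hx : Raw K x) (hy : Raw K y) :
    Raw K (x + y) := by
  obtain ⟨J, _, σ, m, hm, hs, s, rfl⟩ := hx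
  obtain ⟨J', _, σ', m', hm', hs', s', rfl⟩ := hy
  refine ⟨J ⊕ J', inferInstance, Sum.elim σ σ', Sum.elim m m', ?_, ?_, Sum.elim s s', ?_⟩
  · rintro (j | j)
    · exact hm j
    · exact hm' j
  · rintro (j | j)
    · exact hs j
    · exact hs' j
  · rw [Fintype.sum_sum_type]
    rfl

theorem Raw.smul {n p : ℕ} {x : BarX (K.pF n) p} (c : ℚ) (hx : Raw K x) :
    Raw K (c • x) := by
  obtain ⟨J, _, σ, m, hm, hs, s, rfl⟩ := hx
  refine ⟨J, inferInstance, σ, fun j => c • m j, fun j => S.M.smul_mem c (hm j), ?_, s, ?_⟩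
  · intro j φ h
    exact hs j φ fun h' => h (by
      change c • m j φ = 0
      rw [h', smul_zero])
  · rw [Finset.smul_sum]
    refine Finset.sum_congr rfl fun j _ => ?_
    rw [← map_smul]
    refine bof_congr K rfl _ _ ?_
    exact (S.gen_smul c (m j) (s j)).symm

theorem Raw.all {n p : ℕ} (z : BarX (K.pF n) p) : Raw K z := by
  induction z using bar_ind with
  | h0 => exact Raw.zero K
  | h1 σ y =>
    obtain ⟨y, hy⟩ := y
    induction hy using Submodule.span_induction with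
    | mem f hf =>
      obtain ⟨m, hm, hW, s, rfl⟩ := hf
      refine ⟨Unit, inferInstance, fun _ => σ, fun _ => m, fun _ => hm, fun _ => hW, fun _ => s, ?_⟩
      rw [Fintype.sum_unique]
      rfl
    | zero =>
      have h1 : bof (K.pF n) σ (⟨0, Submodule.zero_mem _⟩ : ↥(S.Pin (K.supp (σ.o 0).o) n)) = 0 :=
        map_zero _
      exact h1 ▸ Raw.zero K
    | add x y hx hy ihx ihy =>
      have h1 := Raw.add K ihx ihy
      rw [← map_add] at h1
      exact h1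
    | smul c x hx ihx =>
      have h1 := Raw.smul K c ihx
      rw [← map_smul] at h1
      exact h1
  | h2 x y hx hy => exact Raw.add K hx hy

/-- refined representations -/
structure Fine {n p : ℕ} (z : BarX (K.pF (n + 1)) p) where
  I : Type
  Q : Type
  fQ : Fintype Q
  a : I → A.Ob
  c : I → Fl → ℚ
  x : I → Fl
  cM : ∀ i, c i ∈ S.M
  cs : ∀ i φ, c i φ ≠ 0 → φ ∈ K.supp (a i)
  cx : ∀ i, c i (x i) ≠ 0
  cd : ∀ i j φ, c i φ ≠ 0 → c j φ ≠ 0 → i = j
  i : Q → I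
  σ : Q → Sx A.Obj p
  h : Q → Γ
  adm : ∀ q, A.Adm (a (i q)) (h q) ((σ q).o 0).o
  s : Q → Fin (n + 1) → Γ
  s0 : ∀ q, s q 0 = 1
  α : Q → ℚ
  eq : z = ∑ q, α q • bof (K.pF (n + 1)) (σ q) ((K.pF (n + 1)).map (A.hom (h q) (adm q))
    (gE K ⟨a (i q)⟩ (c (i q)) (cM _) (cs _) (s q)))
  t1 : ∀ q q' k, i q = i q' → S.γ ((s q k)⁻¹ * s q' k) (x (i q)) = 1 →
    (s q k)⁻¹ * s q' k ∈ A.N (a (i q))
  t2 : ∀ q q' (l l' : Fin (p + 1)), i q = i q' →
    S.γ ((rep ((σ q).m 0 l (Fin.zero_le _)) * h q)⁻¹ *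
      (rep ((σ q').m 0 l' (Fin.zero_le _)) * h q')) (x (i q)) = 1 →
    (rep ((σ q).m 0 l (Fin.zero_le _)) * h q)⁻¹ *
      (rep ((σ q').m 0 l' (Fin.zero_le _)) * h q') ∈ A.N (a (i q))

theorem fine_ex (hR : K.Refines) {n p : ℕ} (z : BarX (K.pF (n + 1)) p) :
    Nonempty (Fine K z) := by
  classical
  obtain ⟨J, _, σ, m, hm, hs, s, hz⟩ := Raw.all K z
  let T : Set Γ :=
    (Set.range fun u : J × J × Fin (n + 1) =>
      (s u.1 u.2.2 * (s u.1 0)⁻¹)⁻¹ * (s u.2.1 u.2.2 * (s u.2.1 0)⁻¹)) ∪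
    (Set.range fun u : J × J × Fin (p + 1) × Fin (p + 1) =>
      (rep ((σ u.1).m 0 u.2.2.1 (Fin.zero_le _)) * (s u.1 0)⁻¹)⁻¹ *
        (rep ((σ u.2.1).m 0 u.2.2.2 (Fin.zero_le _)) * (s u.2.1 0)⁻¹))
  have hT : T.Finite := (Set.finite_range _).union (Set.finite_range _)
  obtain ⟨I, _, a, c, x, hcM, hcs, hcx, hcd, hJ, hTN, hAdm⟩ := hR
    (Set.range fun j => tl (s j 0) (m j)) T (Set.finite_range _) hT (by
      rintro _ ⟨j, rfl⟩
      exact S.smul_mem _ _ (hm j))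
  have hspan : ∀ j, ∃ α : I → ℚ, ∑ i, α i • c i = tl (s j 0) (m j) := fun j =>
    (Submodule.mem_span_range_iff_exists_fun ℚ).1 (hJ _ ⟨j, rfl⟩)
  choose α hα using hspan
  have hval : ∀ j i φ, c i φ ≠ 0 → tl (s j 0) (m j) φ = α j i * c i φ := by
    intro j i φ h
    rw [← hα j, Finset.sum_apply, Finset.sum_eq_single i]
    · rfl
    · intro i' _ hi'
      rw [Pi.smul_apply]
      by_cases h' : c i' φ = 0
      · rw [h', smul_zero]
      · exact absurd (hcd i' i φ h' h) hi'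
    · intro hi
      exact absurd (Finset.mem_univ i) hi
  have hadm : ∀ j i, α j i ≠ 0 → A.Adm (a i) (s j 0)⁻¹ ((σ j).o 0).o := by
    intro j i h
    apply hAdm
    intro φ hφ
    apply hs j
    have h1 := hval j i φ hφ
    change m j ((s j 0)⁻¹ • φ) = _ at h1
    rw [h1]
    exact mul_ne_zero h hφ
  refine ⟨⟨I, Σ j : J, {i : I // α j i ≠ 0}, inferInstance, a, c, x, hcM, hcs, hcx, hcd,
    fun q => q.2.1, fun q => σ q.1, fun q => (s q.1 0)⁻¹, fun q => hadm q.1 q.2.1 q.2.2,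
    fun q k => s q.1 k * (s q.1 0)⁻¹, fun q => mul_inv_cancel _, fun q => α q.1 q.2.1,
    ?_, ?_, ?_⟩⟩
  · rw [hz, Fintype.sum_sigma]
    refine Finset.sum_congr rfl fun j _ => ?_
    have h1 : gE K ((σ j).o 0) (m j) (hm j) (hs j) (s j) =
        ∑ i : {i : I // α j i ≠ 0}, α j i.1 • (K.pF (n + 1)).map
          (A.hom (s j 0)⁻¹ (hadm j i.1 i.2)) (gE K ⟨a i.1⟩ (c i.1) (hcM _) (hcs _)
            (fun k => s j k * (s j 0)⁻¹)) := by
      refine Subtype.ext ?_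
      have h2 : ((∑ i : {i : I // α j i ≠ 0}, α j i.1 • (K.pF (n + 1)).map
          (A.hom (s j 0)⁻¹ (hadm j i.1 i.2)) (gE K ⟨a i.1⟩ (c i.1) (hcM _) (hcs _)
            (fun k => s j k * (s j 0)⁻¹)) : ↥(S.Pin (K.supp ((σ j).o 0).o) (n + 1))) :
            FV Λ Fl (n + 1)) = ∑ i : {i : I // α j i ≠ 0}, α j i.1 •
            S.gen (tl (s j 0)⁻¹ (c i.1)) (s j) := by
        rw [AddSubmonoidClass.coe_finsetSum]
        refine Finset.sum_congr rfl fun i _ => ?_
        change α j i.1 • S.tr (s j 0)⁻¹ (S.gen (c i.1) (fun k => s j k * (s j 0)⁻¹)) = _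
        rw [S.tr_gen]
        congr 2
        funext k
        group
      refine Eq.trans ?_ h2.symm
      change S.gen (m j) (s j) = _
      have h3 : ∀ t : Finset {i : I // α j i ≠ 0}, ∑ i ∈ t, α j i.1 •
          S.gen (tl (s j 0)⁻¹ (c i.1)) (s j) =
          S.gen (∑ i ∈ t, α j i.1 • tl (s j 0)⁻¹ (c i.1)) (s j) := by
        intro t
        induction t using Finset.induction_on with
        | empty =>
          rw [Finset.sum_empty, Finset.sum_empty]
          funext φ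
          exact (Finsupp.single_zero _).symm
        | insert i t hi ih =>
          rw [Finset.sum_insert hi, Finset.sum_insert hi, ih, S.gen_add, S.gen_smul]
      rw [h3]
      congr 1
      funext φ
      have h4 : m j φ = tl (s j 0) (m j) (s j 0 • φ) := by
        change _ = m j ((s j 0)⁻¹ • s j 0 • φ)
        rw [inv_smul_smul]
      rw [h4, ← hα j, Finset.sum_apply, Finset.sum_apply]
      have h5 : ∑ i : I, (α j i • c i) (s j 0 • φ) =
          ∑ i ∈ Finset.univ.filter (fun i => α j i ≠ 0), (α j i • c i) (s j 0 • φ) := by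
        rw [Finset.sum_filter_of_ne]
        intro i _ h h'
        exact h (by rw [Pi.smul_apply, h', zero_smul])
      rw [h5, Finset.sum_subtype (p := fun i => α j i ≠ 0)
        (Finset.univ.filter (fun i => α j i ≠ 0)) (by simp)
        (fun i => (α j i • c i) (s j 0 • φ))]
      refine Finset.sum_congr rfl fun i _ => ?_
      change _ = α j i.1 * c i.1 (((s j 0)⁻¹)⁻¹ • φ)
      rw [inv_inv]
      rfl
    rw [h1, map_sum]
    refine Finset.sum_congr rfl fun i _ => ?_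
    rw [map_smul]
  · intro q q' k _ h
    refine hTN q.2.1 _ (Or.inl ⟨(q.1, q'.1, k), rfl⟩) h
  · intro q q' l l' _ h
    refine hTN q.2.1 _ (Or.inr ⟨(q.1, q'.1, l, l'), rfl⟩) h

theorem fiber_zero {X Θ V : Type} [Fintype X] [AddCommGroup V] [Module ℚ V] (key : X → Θ)
    (f : X → ℚ) (E : X → V) (hE : ∀ x y, key x = key y → E x = E y)
    (hf : ∀ y, ∑ x, (open Classical in if key x = key y then f x else 0) = 0) :
    ∑ x, f x • E x = 0 := by
  classical
  rw [← Finset.sum_fiberwise_of_maps_to (t := Finset.univ.image key) (g := key)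
    (fun x _ => Finset.mem_image_of_mem _ (Finset.mem_univ x))]
  refine Finset.sum_eq_zero fun θ hθ => ?_
  obtain ⟨y, -, rfl⟩ := Finset.mem_image.1 hθ
  have h1 : ∑ x with key x = key y, f x • E x = (∑ x with key x = key y, f x) • E y := by
    rw [Finset.sum_smul]
    refine Finset.sum_congr rfl fun x hx => ?_
    rw [hE x y (Finset.mem_filter.1 hx).2]
  rw [h1, Finset.sum_filter]
  have h2 := hf y
  have h3 : ∑ x, (if key x = key y then f x else 0) = 0 := by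
    convert h2
  rw [h3, zero_smul]

theorem bof_heq {C : Type} [SmallCategory C] (F : Coef C) {n : ℕ} {σ τ : Sx C n} (e : σ = τ)
    (y : F.M (σ.o 0)) (y' : F.M (τ.o 0)) (hy : HEq y y') : bof F σ y = bof F τ y' := by
  subst e
  rw [eq_of_heq hy]

theorem cons_inj {C : Type} [SmallCategory C] {p : ℕ} {c : C} {σ : Sx C p} {f f' : c ⟶ σ.o 0}
    (h : Sx.cons c σ f = Sx.cons c σ f') : f = f' := by
  have h1 := eq_of_heq (Sx.ext_iff.1 h).2
  have h2 : f ≫ σ.m 0 0 le_rfl = f' ≫ σ.m 0 0 le_rfl :=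
    congrFun (congrFun (congrFun h1 0) (Fin.succ 0)) (Fin.zero_le _)
  rw [σ.m_self, Category.comp_id, Category.comp_id] at h2
  exact h2

theorem cons_eq_iff {p : ℕ} {c c' : A.Ob} {σ σ' : Sx A.Obj p} {g g' : Γ}
    (hg : A.Adm c g (σ.o 0).o) (hg' : A.Adm c' g' (σ'.o 0).o) (hc : c = c') :
    Sx.cons ⟨c⟩ σ (A.hom g hg) = Sx.cons ⟨c'⟩ σ' (A.hom g' hg') ↔
      σ = σ' ∧ g⁻¹ * g' ∈ A.N c := by
  subst hc
  constructor
  · intro h
    have h1 : σ = σ' := by
      rw [← Eps1.pre_zero_cons ⟨c⟩ σ (A.hom g hg), h, Eps1.pre_zero_cons]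
    subst h1
    exact ⟨rfl, ActCat.hom_eq.1 (cons_inj h)⟩
  · rintro ⟨rfl, hN⟩
    have h1 : A.hom g hg = A.hom g' hg' := ActCat.hom_eq.2 hN
    exact congrArg (fun f => Sx.cons ⟨c⟩ σ f) h1

/-- the value at a flag of the component at a simplex -/
noncomputable def evB {n p : ℕ} (ρ : Sx A.Obj p) (φ : Fl) (u : Fin n → Λ) :
    BarX (K.pF n) p →ₗ[ℚ] ℚ := by
  classical
  exact bdesc (K.pF n) fun σ => if σ = ρ then
    ((Finsupp.lapply u).comp ((LinearMap.proj φ).comp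
      (Submodule.subtype (S.Pin (K.supp (σ.o 0).o) n)))) else 0

open Classical in
theorem evB_bof {n p : ℕ} (ρ : Sx A.Obj p) (φ : Fl) (u : Fin n → Λ) (σ : Sx A.Obj p)
    (y : (K.pF n).M (σ.o 0)) :
    evB K ρ φ u (bof (K.pF n) σ y) = if σ = ρ then (y.1 : FV Λ Fl n) φ u else 0 := by
  unfold evB
  rw [bdesc_bof]
  split_ifs
  · rfl
  · rfl

open Classical in
theorem gen_eval {n : ℕ} (m : Fl → ℚ) (s : Fin n → Γ) (φ : Fl) (u : Fin n → Λ) :
    S.gen m s φ u = if (fun k => S.γ (s k) φ) = u then m φ else 0 := by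
  rw [S.gen_apply, Finsupp.single_apply]

/-- differential of a prepended simplex -/
theorem d_cons {C : Type} [SmallCategory C] (F : Coef C) {p : ℕ} (c : C) (σ : Sx C (p + 1))
    (f : c ⟶ σ.o 0) (y : F.M c) :
    (barC F).d (p + 1) (bof F (Sx.cons c σ f) y) = bof F σ (F.map f y) -
      ∑ l : Fin (p + 2), ((-1 : ℚ) ^ (l : ℕ)) •
        bof F (Sx.cons c (pre (dl l) σ) (f ≫ σ.m 0 (dl l 0) (Fin.zero_le _))) y := by
  change (barS F).alt (p + 1) _ = _
  rw [SMod.alt_apply, Fin.sum_univ_succ, sub_eq_add_neg, ← Finset.sum_neg_distrib]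
  congr 1
  · rw [Fin.val_zero, pow_zero, one_smul]
    refine (barMap_bof F (dl 0) (Sx.cons c σ f) y).trans ?_
    refine bof_heq F (Eps1.pre_zero_cons c σ f) _ _ (heq_of_eq ?_)
    change F.map (f ≫ σ.m 0 0 le_rfl) y = F.map f y
    rw [σ.m_self, Category.comp_id]
  · refine Finset.sum_congr rfl fun l _ => ?_
    rw [Fin.val_succ, pow_succ, mul_neg_one, neg_smul]
    congr 2
    rw [Eps1.dl_succ]
    refine (barMap_bof F (Eps1.consO (dl l)) (Sx.cons c σ f) y).trans ?_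
    refine bof_heq F (Eps1.pre_consO c σ f (dl l)) _ _ (heq_of_eq ?_)
    change F.map (𝟙 c) y = y
    exact F.map_id c y

end GTr

open GTr in
theorem row_exact (hR : K.Refines) (N p : ℕ) (z : BarX (K.pF (N + 1)) (p + 1))
    (hz : (barC (K.pF (N + 1))).d p z = 0) : ∃ w, (barC (K.pF (N + 1))).d (p + 1) w = z := by
  classical
  obtain ⟨F⟩ := fine_ex K hR z
  let _ : Fintype F.Q := F.fQ
  -- germs of the faces
  let H : F.Q → Fin (p + 2) → Γ := fun q l =>
    rep ((F.σ q).m 0 (dl l 0) (Fin.zero_le _)) * F.h q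
  have hHadm : ∀ q l, A.Adm (F.a (F.i q)) (H q l) ((pre (dl l) (F.σ q)).o 0).o := fun q l =>
    A.mul (F.adm q) (rep_adm ((F.σ q).m 0 (dl l 0) (Fin.zero_le _)))
  let y : ∀ q, (K.pF (N + 1)).M ⟨F.a (F.i q)⟩ := fun q =>
    gE K ⟨F.a (F.i q)⟩ (F.c (F.i q)) (F.cM _) (F.cs _) (F.s q)
  let ω : F.Q → Fin (p + 2) → Sx A.Obj (p + 1) := fun q l =>
    Sx.cons ⟨F.a (F.i q)⟩ (pre (dl l) (F.σ q)) (A.hom (H q l) (hHadm q l))
  let key : F.Q × Fin (p + 2) → F.I × Sx A.Obj (p + 1) × (Fin (N + 1) → Λ) := fun x =>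
    (F.i x.1, ω x.1 x.2, fun k => S.γ (F.s x.1 k) (F.x (F.i x.1)))
  let E : F.Q × Fin (p + 2) → BarX (K.pF (N + 1)) (p + 1) := fun x =>
    bof (K.pF (N + 1)) (ω x.1 x.2) (y x.1)
  have hxs : ∀ i, F.x i ∈ K.supp (F.a i) := fun i => F.cs i _ (F.cx i)
  -- the elements depend only on the keys
  have hE : ∀ x x', key x = key x' → E x = E x' := by
    rintro ⟨q, l⟩ ⟨q', l'⟩ h
    have hi : F.i q = F.i q' := congrArg Prod.fst h
    have hω : ω q l = ω q' l' := congrArg (fun u => u.2.1) h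
    have ht : (fun k => S.γ (F.s q k) (F.x (F.i q))) =
      (fun k => S.γ (F.s q' k) (F.x (F.i q'))) := congrArg (fun u => u.2.2) h
    refine bof_congr K hω _ _ ?_
    change S.gen (F.c (F.i q)) (F.s q) = S.gen (F.c (F.i q')) (F.s q')
    rw [← hi]
    funext φ
    rw [S.gen_apply, S.gen_apply]
    by_cases hφ : F.c (F.i q) φ = 0
    · rw [hφ, Finsupp.single_zero, Finsupp.single_zero]
    · congr 1
      funext k
      rw [S.γ_eq_iff]
      refine K.triv (F.t1 q q' k hi ?_) φ (F.cs _ _ hφ)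
      rw [← S.γ_eq_iff]
      have h1 := congrFun ht k
      rw [← hi] at h1
      exact h1
  -- the coefficients of each key add up to zero
  have hf : ∀ x', ∑ x, (if key x = key x' then F.α x.1 * (-1 : ℚ) ^ (x.2 : ℕ) else 0) = 0 := by
    rintro ⟨q', l'⟩
    set c0 := F.c (F.i q') (F.x (F.i q')) with hc0
    have hc0' : c0 ≠ 0 := F.cx _
    set φ : Fl := H q' l' • F.x (F.i q') with hφ
    set u : Fin (N + 1) → Λ := fun k => S.γ (F.s q' k * (H q' l')⁻¹) φ with hu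
    have hinv : S.γ (H q' l')⁻¹ φ = (S.γ (H q' l') (F.x (F.i q')))⁻¹ := S.γ_inv _ _
    have hback : (H q' l')⁻¹ • φ = F.x (F.i q') := inv_smul_smul _ _
    have hev : evB K (pre (dl l') (F.σ q')) φ u ((barC (K.pF (N + 1))).d p z) = 0 := by
      rw [hz, map_zero]
    have hterm : ∀ q l, evB K (pre (dl l') (F.σ q')) φ u
        (barMap (K.pF (N + 1)) (dl l) (bof (K.pF (N + 1)) (F.σ q)
          ((K.pF (N + 1)).map (A.hom (F.h q) (F.adm q)) (y q)))) =
        if key (q, l) = key (q', l') then c0 else 0 := by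
      intro q l
      rw [barMap_bof, evB_bof, map_val]
      have h1 : (((K.pF (N + 1)).map (A.hom (F.h q) (F.adm q)) (y q)).1 : FV Λ Fl (N + 1)) =
        S.tr (F.h q) (S.gen (F.c (F.i q)) (F.s q)) := rfl
      have h2 : S.tr (rep ((F.σ q).m 0 (dl l 0) (Fin.zero_le _)))
          (((K.pF (N + 1)).map (A.hom (F.h q) (F.adm q)) (y q)).1 : FV Λ Fl (N + 1)) =
          S.gen (tl (H q l) (F.c (F.i q))) (fun k => F.s q k * (H q l)⁻¹) := by
        rw [h1, ← S.tr_mul, S.tr_gen]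
      rw [h2, gen_eval]
      by_cases hk : key (q, l) = key (q', l')
      · have hi : F.i q = F.i q' := congrArg Prod.fst hk
        have hω : ω q l = ω q' l' := congrArg (fun u => u.2.1) hk
        have ht : (fun k => S.γ (F.s q k) (F.x (F.i q))) =
          (fun k => S.γ (F.s q' k) (F.x (F.i q'))) := congrArg (fun u => u.2.2) hk
        obtain ⟨h3, h4⟩ := (cons_eq_iff (hHadm q l) (hHadm q' l')
          (congrArg F.a hi)).1 hω
        have h5 : S.γ ((H q l)⁻¹ * H q' l') (F.x (F.i q')) = 1 := by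
          refine K.triv h4 _ ?_
          rw [hi]
          exact hxs _
        have h6 : (H q l)⁻¹ • φ = F.x (F.i q') := by
          rw [hφ, smul_smul, ← S.act, h5, one_smul]
        have h7 : S.γ (H q l)⁻¹ φ = S.γ (H q' l')⁻¹ φ := by
          rw [hinv]
          rw [S.mul] at h5
          exact eq_inv_of_mul_eq_one_left h5
        rw [if_pos h3, if_pos, if_pos hk]
        · change F.c (F.i q) ((H q l)⁻¹ • φ) = _
          rw [h6, hi]
        · funext k
          change S.γ (F.s q k * (H q l)⁻¹) φ = S.γ (F.s q' k * (H q' l')⁻¹) φ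
          rw [S.mul, S.mul, h6, h7, hback]
          congr 1
          have h8 := congrFun ht k
          rw [hi] at h8
          exact h8
      · rw [if_neg hk]
        split_ifs with h3 h4
        · by_contra h5
          apply hk
          have h5' : F.c (F.i q) ((H q l)⁻¹ • φ) ≠ 0 := h5
          have h6 : S.γ (H q l)⁻¹ φ = S.γ (H q' l')⁻¹ φ := by
            have h7 := congrFun h4 0
            change S.γ (F.s q 0 * (H q l)⁻¹) φ = S.γ (F.s q' 0 * (H q' l')⁻¹) φ at h7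
            rw [F.s0, F.s0, one_mul, one_mul] at h7
            exact h7
          have h8 : (H q l)⁻¹ • φ = F.x (F.i q') := by
            rw [← S.act, h6, S.act, hback]
          rw [h8] at h5'
          have hi : F.i q = F.i q' := F.cd _ _ _ h5' (F.cx _)
          have h9 : S.γ ((H q l)⁻¹ * H q' l') (F.x (F.i q)) = 1 := by
            rw [hi, S.mul]
            change S.γ (H q l)⁻¹ φ * _ = 1
            rw [h6, hinv, inv_mul_cancel]
          have h10 := F.t2 q q' (dl l 0) (dl l' 0) hi h9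
          refine Prod.ext hi (Prod.ext ?_ ?_)
          · exact (cons_eq_iff (hHadm q l) (hHadm q' l') (congrArg F.a hi)).2 ⟨h3, h10⟩
          · funext k
            have h11 := congrFun h4 k
            change S.γ (F.s q k * (H q l)⁻¹) φ = S.γ (F.s q' k * (H q' l')⁻¹) φ at h11
            rw [S.mul, S.mul, h8, h6, hback] at h11
            change S.γ (F.s q k) (F.x (F.i q)) = S.γ (F.s q' k) (F.x (F.i q'))
            rw [hi]
            exact mul_right_cancel h11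
        · rfl
        · rfl
    have hz2 : (barC (K.pF (N + 1))).d p z = ∑ q, F.α q • ∑ l : Fin (p + 2),
        ((-1 : ℚ) ^ (l : ℕ)) • barMap (K.pF (N + 1)) (dl l) (bof (K.pF (N + 1)) (F.σ q)
          ((K.pF (N + 1)).map (A.hom (F.h q) (F.adm q)) (y q))) := by
      conv_lhs => rw [F.eq]
      rw [map_sum]
      refine Finset.sum_congr rfl fun q _ => ?_
      rw [map_smul]
      congr 1
      exact SMod.alt_apply _ _ _
    rw [hz2, map_sum] at hev
    have h12 : ∑ q, ∑ l : Fin (p + 2), (F.α q * (-1 : ℚ) ^ (l : ℕ)) *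
        (if key (q, l) = key (q', l') then c0 else 0) = 0 := by
      refine Eq.trans ?_ hev
      refine Finset.sum_congr rfl fun q _ => ?_
      rw [map_smul, map_sum, Finset.smul_sum]
      refine Finset.sum_congr rfl fun l _ => ?_
      rw [map_smul, hterm, smul_smul]
      rfl
    rw [← Fintype.sum_prod_type' (f := fun q (l : Fin (p + 2)) => (F.α q * (-1 : ℚ) ^ (l : ℕ)) *
        (if key (q, l) = key (q', l') then c0 else 0))] at h12
    have h13 : (∑ x, (if key x = key (q', l') then F.α x.1 * (-1 : ℚ) ^ (x.2 : ℕ) else 0)) *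
        c0 = 0 := by
      refine Eq.trans ?_ h12
      rw [Finset.sum_mul]
      refine Finset.sum_congr rfl fun x _ => ?_
      split_ifs <;> ring
    exact (mul_eq_zero.1 h13).resolve_right hc0'
  have hfib := fiber_zero key (fun x => F.α x.1 * (-1 : ℚ) ^ (x.2 : ℕ)) E hE (fun x' => by
    convert hf x')
  refine ⟨∑ q, F.α q • bof (K.pF (N + 1)) (Sx.cons ⟨F.a (F.i q)⟩ (F.σ q)
    (A.hom (F.h q) (F.adm q))) (y q), ?_⟩
  rw [map_sum]
  have h14 : ∀ q, (barC (K.pF (N + 1))).d (p + 1) (F.α q • bof (K.pF (N + 1))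
      (Sx.cons ⟨F.a (F.i q)⟩ (F.σ q) (A.hom (F.h q) (F.adm q))) (y q)) =
      F.α q • bof (K.pF (N + 1)) (F.σ q)
        ((K.pF (N + 1)).map (A.hom (F.h q) (F.adm q)) (y q)) -
      ∑ l : Fin (p + 2), (F.α q * (-1 : ℚ) ^ (l : ℕ)) • E (q, l) := by
    intro q
    rw [map_smul, d_cons, smul_sub, Finset.smul_sum]
    congr 1
    refine Finset.sum_congr rfl fun l _ => ?_
    rw [smul_smul]
    congr 1
    refine bof_congr K ?_ _ _ rfl
    have h15 : A.hom (F.h q) (F.adm q) ≫ (F.σ q).m 0 (dl l 0) (Fin.zero_le _) =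
        A.hom (H q l) (hHadm q l) := by
      conv_lhs => rw [rep_hom ((F.σ q).m 0 (dl l 0) (Fin.zero_le _))]
      rfl
    exact congrArg (fun f => Sx.cons ⟨F.a (F.i q)⟩ (pre (dl l) (F.σ q)) f) h15
  rw [Finset.sum_congr rfl fun q _ => h14 q, Finset.sum_sub_distrib,
    ← Fintype.sum_prod_type' (f := fun q (l : Fin (p + 2)) =>
      (F.α q * (-1 : ℚ) ^ (l : ℕ)) • E (q, l))]
  have h16 : ∑ x : F.Q × Fin (p + 2), (F.α x.1 * (-1 : ℚ) ^ (x.2 : ℕ)) • E (x.1, x.2) = 0 := hfib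
  rw [h16, sub_zero]
  exact F.eq.symm

end CellSys
end C715
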