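import Pool.Agent.Work.MP_c71557_gt.P.Nrm
import Pool.Agent.Work.MP_c71557_gt.P.GTRow1
import Pool.Agent.Work.MP_c71557_gt.H.Defs5

set_option autoImplicit false
set_option linter.unusedVariables false

/-!
# MP_c71557_gt, module P/GTRow0: the rows in degree zero (M-L)

Same notation and method as `P/GTRow1` (read its header), for `p = 0`: `Sx A.Obj 0`, simplices are
objects (`Sx.pt`, `Sx.ext0` in `H/Defs5`).

* `row_surj`: `P (N+1)` is spanned by `gen m s`; `hR` for the family `{m}` and `T = ∅` gives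
  `m = ∑ α_i c_i`, and `gen c_i s ∈ Pin (supp a_i) (N+1)`.
* `row_exact0`: `z = ∑_j bof (pt b_j) (gen m_j s^j)` with `∑_j gen m_j s^j ∈ coin`, i.e.
  (`FlagSys.exists_nrm`) `∑_j gen (tl s^j_0 m_j) (s^j_{k+1} (s^j_0)⁻¹)_k = 0` in `FV Λ Fl N`.
  Refine the family `m'_j = tl (s^j_0) m_j` with `T` = all
  `(s^j_k (s^j_0)⁻¹)⁻¹ s^{j'}_k (s^{j'}_0)⁻¹`; `Adm (a_i) (s^j_0)⁻¹ b_j` if `α_{ji} ≠ 0`.
  `w = ∑_j ∑_i α_{ji} bof (arr [(s^j_0)⁻¹] : a_i → b_j) (gen c_i (s^j_k (s^j_0)⁻¹)_k)`;
  `d w = z - ∑_i bof (pt a_i) r_i`, `r_i = ∑_j α_{ji} gen c_i (s^j_k (s^j_0)⁻¹)_k`, coordinates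
  `k = 0, …, N`, the coordinate `0` being `s^j_0 (s^j_0)⁻¹ = 1`.  To see `r_i = 0` it is enough to
  see `r_i(x_i) = 0` (as in GTRow1), and as the coordinate `0` is constant this is
  `∑_j m'_j(x_i) [γ (s^j_{k+1} (s^j_0)⁻¹) x_i]_k = 0`, the relation above evaluated at `x_i`.
-/

namespace C715

open CategoryTheory

namespace CellSys

variable {Γ Λ Fl : Type} [Group Γ] [Group Λ] [MulAction Γ Fl] [MulAction Λ Fl]
  {S : FlagSys Γ Λ Fl} {A : ActCat Γ} (K : CellSys S A)

theorem row_surj (hR : K.Refines) (N : ℕ) : Function.Surjective (K.rowA.e N) := by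
  classical
  have key : ∀ (v : FV Λ Fl (N + 1)) (hv : v ∈ S.P (N + 1)),
      (Submodule.Quotient.mk (⟨v, hv⟩ : ↥(S.P (N + 1))) : ↥(S.P (N + 1)) ⧸ S.coin (N + 1)) ∈
        LinearMap.range (K.rowA.e N) := by
    intro v hv
    induction hv using Submodule.span_induction with
    | mem f hf =>
      obtain ⟨m, hm, s, rfl⟩ := hf
      obtain ⟨I, _, a, c, x, hcM, hcs, hcx, hcd, hJ, -, -⟩ := hR {m} ∅ (Set.finite_singleton m)
        Set.finite_empty (by
          rintro _ rfl
          exact hm)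
      obtain ⟨α, hα⟩ := (Submodule.mem_span_range_iff_exists_fun ℚ).1 (hJ m rfl)
      have h3 : ∀ t : Finset I, ∑ i ∈ t, α i • S.gen (c i) s = S.gen (∑ i ∈ t, α i • c i) s := by
        intro t
        induction t using Finset.induction_on with
        | empty =>
          rw [Finset.sum_empty, Finset.sum_empty]
          funext φ
          exact (Finsupp.single_zero _).symm
        | insert i t hi ih =>
          rw [Finset.sum_insert hi, Finset.sum_insert hi, ih, S.gen_add, S.gen_smul]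
      have h1 : (⟨S.gen m s, S.gen_mem hm s⟩ : ↥(S.P (N + 1))) =
          ∑ i, α i • (⟨S.gen (c i) s, S.gen_mem (hcM i) s⟩ : ↥(S.P (N + 1))) := by
        refine Subtype.ext ?_
        rw [AddSubmonoidClass.coe_finsetSum]
        change S.gen m s = ∑ i, α i • S.gen (c i) s
        rw [h3, hα]
      have h2 : (Submodule.Quotient.mk (⟨S.gen m s, S.gen_mem hm s⟩ : ↥(S.P (N + 1))) :
          ↥(S.P (N + 1)) ⧸ S.coin (N + 1)) = ∑ i, α i • K.rowA.e N
            (bof (K.pF (N + 1)) (Sx.pt ⟨a i⟩) (GTr.gE K ⟨a i⟩ (c i) (hcM i) (hcs i) s)) := by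
        rw [h1]
        change (S.coin (N + 1)).mkQ _ = _
        rw [map_sum]
        refine Finset.sum_congr rfl fun i _ => ?_
        rw [map_smul]
        congr 1
        exact (bdesc_bof (K.pF (N + 1)) (fun σ => K.toCo (σ.o 0).o (N + 1)) (Sx.pt ⟨a i⟩)
          (GTr.gE K ⟨a i⟩ (c i) (hcM i) (hcs i) s)).symm
      rw [h2]
      exact Submodule.sum_mem _ fun i _ => Submodule.smul_mem _ _ ⟨_, rfl⟩
    | zero => exact Submodule.zero_mem _
    | add x y hx hy ihx ihy => exact Submodule.add_mem _ ihx ihy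
    | smul c x hx ihx => exact Submodule.smul_mem _ c ihx
  intro x
  obtain ⟨⟨v, hv⟩, rfl⟩ := Submodule.Quotient.mk_surjective _ x
  exact key v hv

namespace GTr

/-- differential of a prepended point -/
theorem d_cons0 {C : Type} [SmallCategory C] (F : Coef C) (c : C) (σ : Sx C 0)
    (f : c ⟶ σ.o 0) (y : F.M c) :
    (barC F).d 0 (bof F (Sx.cons c σ f) y) = bof F σ (F.map f y) - bof F (Sx.pt c) y := by
  change (barS F).alt 0 _ = _
  rw [SMod.alt_apply, Fin.sum_univ_two, sub_eq_add_neg]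
  congr 1
  · rw [Fin.val_zero, pow_zero, one_smul]
    refine (barMap_bof F (dl 0) (Sx.cons c σ f) y).trans ?_
    refine bof_heq F (Eps1.pre_zero_cons c σ f) _ _ (heq_of_eq ?_)
    change F.map (f ≫ σ.m 0 0 le_rfl) y = F.map f y
    rw [σ.m_self, Category.comp_id]
  · rw [Fin.val_one, pow_one, neg_smul, one_smul]
    congr 1
    refine (barMap_bof F (dl 1) (Sx.cons c σ f) y).trans ?_
    have e : pre (dl 1) (Sx.cons c σ f) = Sx.pt c := Sx.ext0 rfl
    refine bof_heq F e _ _ (heq_of_eq ?_)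
    change F.map (𝟙 c) y = y
    exact F.map_id c y

end GTr

open GTr in
theorem row_exact0 (hR : K.Refines) (N : ℕ) (z : BarX (K.pF (N + 1)) 0)
    (hz : K.rowA.e N z = 0) : ∃ w, (barC (K.pF (N + 1))).d 0 w = z := by
  classical
  obtain ⟨F⟩ := fine_ex K hR z
  let _ : Fintype F.Q := F.fQ
  let y : ∀ q, (K.pF (N + 1)).M ⟨F.a (F.i q)⟩ := fun q =>
    gE K ⟨F.a (F.i q)⟩ (F.c (F.i q)) (F.cM _) (F.cs _) (F.s q)
  let key : F.Q → F.I × (Fin (N + 1) → Λ) := fun q =>
    (F.i q, fun k => S.γ (F.s q k) (F.x (F.i q)))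
  let E : F.Q → BarX (K.pF (N + 1)) 0 := fun q =>
    bof (K.pF (N + 1)) (Sx.pt ⟨F.a (F.i q)⟩) (y q)
  -- the elements depend only on the keys
  have hE : ∀ x x', key x = key x' → E x = E x' := by
    intro q q' h
    have hi : F.i q = F.i q' := congrArg Prod.fst h
    have ht : (fun k => S.γ (F.s q k) (F.x (F.i q))) =
      (fun k => S.γ (F.s q' k) (F.x (F.i q'))) := congrArg Prod.snd h
    have hσ : (Sx.pt (⟨F.a (F.i q)⟩ : A.Obj)) = Sx.pt ⟨F.a (F.i q')⟩ := by rw [hi]
    refine bof_congr K hσ _ _ ?_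
    change S.gen (F.c (F.i q)) (F.s q) = S.gen (F.c (F.i q')) (F.s q')
    rw [← hi]
    funext φ
    rw [S.gen_apply, S.gen_apply]
    by_cases hφ : F.c (F.i q) φ = 0
    · rw [hφ, Finsupp.single_zero, Finsupp.single_zero]
    · congr 1
      funext k
      rw [S.γ_eq_iff]
      refine K.triv (F.t1 q q' k hi ?_) φ (F.cs _ _ hφ)
      rw [← S.γ_eq_iff]
      have h1 := congrFun ht k
      rw [← hi] at h1
      exact h1
  obtain ⟨Nl, hN1, -, hN3, -⟩ := S.exists_nrm N
  -- the relation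
  have hrel : ∑ q, F.α q • S.gen (F.c (F.i q)) (fun k : Fin N => F.s q k.succ) = 0 := by
    have hmem : ∀ q, tl (F.h q) (F.c (F.i q)) ∈ S.M := fun q => S.smul_mem _ _ (F.cM _)
    have h1 : K.rowA.e N z = (S.coin (N + 1)).mkQ (∑ q, F.α q •
        (⟨S.gen (tl (F.h q) (F.c (F.i q))) (fun k => F.s q k * (F.h q)⁻¹),
          S.gen_mem (hmem q) _⟩ : ↥(S.P (N + 1)))) := by
      conv_lhs => rw [F.eq]
      rw [map_sum, map_sum]
      refine Finset.sum_congr rfl fun q _ => ?_
      rw [map_smul, map_smul]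
      congr 1
      refine (bdesc_bof _ _ _ _).trans ?_
      change Submodule.Quotient.mk _ = Submodule.Quotient.mk _
      congr 1
      refine Subtype.ext ?_
      exact S.tr_gen (F.h q) (F.c (F.i q)) (F.s q)
    rw [h1] at hz
    have h2 := (Submodule.Quotient.mk_eq_zero _).1 hz
    have h3 := (hN3 _).2 h2
    rw [map_sum] at h3
    rw [← h3]
    refine Finset.sum_congr rfl fun q _ => ?_
    rw [map_smul, hN1 _ (hmem q)]
    congr 1
    rw [F.s0, one_mul, inv_inv]
    have h4 : tl (F.h q)⁻¹ (tl (F.h q) (F.c (F.i q))) = F.c (F.i q) := by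
      funext φ
      change F.c (F.i q) ((F.h q)⁻¹ • ((F.h q)⁻¹)⁻¹ • φ) = _
      rw [inv_inv, inv_smul_smul]
    rw [h4]
    congr 1
    funext k
    rw [inv_mul_cancel_right]
  have hf : ∀ q', ∑ q, (if key q = key q' then F.α q else 0) = 0 := by
    intro q'
    set c0 := F.c (F.i q') (F.x (F.i q')) with hc0
    have hc0' : c0 ≠ 0 := F.cx _
    have h1 := congrArg (fun v : FV Λ Fl N => v (F.x (F.i q'))
      (fun k => S.γ (F.s q' k.succ) (F.x (F.i q')))) hrel
    have h2 : (∑ q, F.α q • S.gen (F.c (F.i q)) (fun k : Fin N => F.s q k.succ))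
        (F.x (F.i q')) (fun k => S.γ (F.s q' k.succ) (F.x (F.i q'))) =
        ∑ q, F.α q * (if key q = key q' then c0 else 0) := by
      rw [Finset.sum_apply, Finsupp.finsetSum_apply]
      refine Finset.sum_congr rfl fun q _ => ?_
      change F.α q * (S.gen (F.c (F.i q)) (fun k : Fin N => F.s q k.succ) (F.x (F.i q'))
        (fun k => S.γ (F.s q' k.succ) (F.x (F.i q')))) = _
      congr 1
      rw [gen_eval]
      by_cases hk : key q = key q'
      · have hi : F.i q = F.i q' := congrArg Prod.fst hk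
        have ht : (fun k => S.γ (F.s q k) (F.x (F.i q))) =
          (fun k => S.γ (F.s q' k) (F.x (F.i q'))) := congrArg Prod.snd hk
        rw [if_pos hk, if_pos, hi]
        funext k
        have h3 := congrFun ht k.succ
        rw [hi] at h3
        exact h3
      · rw [if_neg hk]
        split_ifs with h4
        · by_contra h5
          apply hk
          have hi : F.i q = F.i q' := F.cd _ _ _ h5 (F.cx _)
          refine Prod.ext hi ?_
          funext k
          change S.γ (F.s q k) (F.x (F.i q)) = S.γ (F.s q' k) (F.x (F.i q'))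
          rw [hi]
          refine Fin.cases ?_ (fun k => ?_) k
          · rw [F.s0, F.s0]
          · exact congrFun h4 k
        · rfl
    have h6 : ∑ q, F.α q * (if key q = key q' then c0 else 0) = 0 := h2.symm.trans h1
    have h13 : (∑ q, (if key q = key q' then F.α q else 0)) * c0 = 0 := by
      refine Eq.trans ?_ h6
      rw [Finset.sum_mul]
      refine Finset.sum_congr rfl fun x _ => ?_
      split_ifs <;> ring
    exact (mul_eq_zero.1 h13).resolve_right hc0'
  have hfib := fiber_zero key F.α E hE (fun x' => by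
    convert hf x')
  refine ⟨∑ q, F.α q • bof (K.pF (N + 1)) (Sx.cons ⟨F.a (F.i q)⟩ (F.σ q)
    (A.hom (F.h q) (F.adm q))) (y q), ?_⟩
  rw [map_sum]
  have h14 : ∀ q, (barC (K.pF (N + 1))).d 0 (F.α q • bof (K.pF (N + 1))
      (Sx.cons ⟨F.a (F.i q)⟩ (F.σ q) (A.hom (F.h q) (F.adm q))) (y q)) =
      F.α q • bof (K.pF (N + 1)) (F.σ q)
        ((K.pF (N + 1)).map (A.hom (F.h q) (F.adm q)) (y q)) - F.α q • E q := by
    intro q
    rw [map_smul, d_cons0, smul_sub]
  rw [Finset.sum_congr rfl fun q _ => h14 q, Finset.sum_sub_distrib, hfib, sub_zero]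
  exact F.eq.symm

end CellSys
end C715
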