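import Pool.Agent.Work.MP_c71557_gt.P.Th

set_option autoImplicit false
set_option linter.unusedVariables false

/-!
# MP_c71557_gt, block P: morphisms of flag systems over the same group, naturality of `theta`
(definitions, proved)
-/

namespace C715

open CategoryTheory

theorem FlagSys.P_ins {Γ Λ Fl : Type} [Group Γ] [Group Λ] [MulAction Γ Fl] [MulAction Λ Fl]
    (S : FlagSys Γ Λ Fl) {n : ℕ} (s : Fin n → Γ) : S.P 0 ≤ (S.P n).comap (S.ins s) := by
  refine Submodule.span_le.2 ?_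
  rintro f ⟨m, hm, t, rfl⟩
  rw [SetLike.mem_coe, Submodule.mem_comap, S.ins_gen]
  exact S.gen_mem hm _

/-- morphisms of flag systems over the same group -/
structure FsMor {Γ Λ Fl Λ' Fl' : Type} [Group Γ] [Group Λ] [MulAction Γ Fl] [MulAction Λ Fl]
    [Group Λ'] [MulAction Γ Fl'] [MulAction Λ' Fl']
    (S : FlagSys Γ Λ Fl) (S' : FlagSys Γ Λ' Fl') where
  f : ∀ n, ↥(S.P n) →ₗ[ℚ] ↥(S'.P n)
  res : ∀ {m n : ℕ} (e : Fin m → Fin n) (x : ↥(S.P n)),
    f m ((FV.res e).restrict (S.P_res e) x) = (FV.res e).restrict (S'.P_res e) (f n x)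
  tr : ∀ (g : Γ) (n : ℕ) (x : ↥(S.P n)),
    f n ((S.tr g).restrict (S.P_tr g) x) = (S'.tr g).restrict (S'.P_tr g) (f n x)
  ins : ∀ (n : ℕ) (s : Fin n → Γ) (x : ↥(S.P 0)),
    f n ((S.ins s).restrict (S.P_ins s) x) = (S'.ins s).restrict (S'.P_ins s) (f 0 x)

namespace FsMor

variable {Γ Λ Fl Λ' Fl' : Type} [Group Γ] [Group Λ] [MulAction Γ Fl] [MulAction Λ Fl]
    [Group Λ'] [MulAction Γ Fl'] [MulAction Λ' Fl']
    {S : FlagSys Γ Λ Fl} {S' : FlagSys Γ Λ' Fl'}

/-- the underlying morphism -/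
noncomputable def toHom (h : FsMor S S') : FsHom S S' where
  f := h.f
  res := h.res
  coin n := by
    refine Submodule.span_le.2 ?_
    rintro _ ⟨g, y, rfl⟩
    rw [SetLike.mem_coe, Submodule.mem_comap, map_sub, h.tr]
    exact Submodule.subset_span ⟨g, h.f n y, rfl⟩

/-- value on generators -/
theorem f_gen (h : FsMor S S') {n : ℕ} {m : Fl → ℚ} (hm : m ∈ S.M) (s : Fin n → Γ) :
    (h.f n ⟨S.gen m s, S.gen_mem hm s⟩).1 =
      S'.ins s (h.f 0 ⟨S.gen m Fin.elim0, S.gen_mem hm _⟩).1 := by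
  have h1 := h.ins n s ⟨S.gen m Fin.elim0, S.gen_mem hm _⟩
  have h2 : (S.ins s).restrict (S.P_ins s) ⟨S.gen m Fin.elim0, S.gen_mem hm _⟩ =
      ⟨S.gen m s, S.gen_mem hm s⟩ := Subtype.ext (S.ins_gen s m _)
  rw [h2] at h1
  exact congrArg Subtype.val h1

/-- a morphism between cell systems, over a functor which is the identity on group elements -/
structure Cell {A A' : ActCat Γ} (h : FsMor S S') (K : CellSys S A) (K' : CellSys S' A')
    (F : A.Ob → A'.Ob) : Prop where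
  adm : ∀ {a b : A.Ob} {g : Γ}, A.Adm a g b → A'.Adm (F a) g (F b)
  nN : ∀ {a : A.Ob} {n : Γ}, n ∈ A.N a → n ∈ A'.N (F a)
  supp0 : ∀ (a : A.Ob) (x : ↥(S.P 0)), x.1 ∈ S.Pin (K.supp a) 0 →
    (h.f 0 x).1 ∈ S'.Pin (K'.supp (F a)) 0

namespace Cell

variable {A A' : ActCat Γ} {h : FsMor S S'} {K : CellSys S A} {K' : CellSys S' A'}
  {F : A.Ob → A'.Ob}

theorem supp (c : Cell h K K' F) (a : A.Ob) (n : ℕ) (x : ↥(S.P n))
    (hx : x.1 ∈ S.Pin (K.supp a) n) : (h.f n x).1 ∈ S'.Pin (K'.supp (F a)) n := by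
  obtain ⟨x, hxP⟩ := x
  have hx' : x ∈ S.Pin (K.supp a) n := hx
  induction hx' using Submodule.span_induction with
  | mem x hx1 =>
    obtain ⟨m, hm, hW, s, rfl⟩ := hx1
    have h1 := h.f_gen hm s
    rw [h1]
    exact S'.Pin_ins _ s (c.supp0 a _ (S.gen_mem_Pin hm hW _))
  | zero =>
    have : (⟨0, hxP⟩ : ↥(S.P n)) = 0 := rfl
    rw [this, map_zero]
    exact Submodule.zero_mem _
  | add x y hx1 hy1 hx2 hy2 =>
    have hxP' := S.Pin_le_P _ _ hx1
    have hyP' := S.Pin_le_P _ _ hy1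
    have : (⟨x + y, hxP⟩ : ↥(S.P n)) = ⟨x, hxP'⟩ + ⟨y, hyP'⟩ := rfl
    rw [this, map_add]
    exact Submodule.add_mem _ (hx2 hxP' hx1) (hy2 hyP' hy1)
  | smul r x hx1 hx2 =>
    have hxP' := S.Pin_le_P _ _ hx1
    have : (⟨r • x, hxP⟩ : ↥(S.P n)) = r • ⟨x, hxP'⟩ := rfl
    rw [this, map_smul]
    exact Submodule.smul_mem _ _ (hx2 hxP' hx1)

/-- the functor -/
abbrev fun' (c : Cell h K K' F) : A.Obj ⥤ A'.Obj := ActCat.idFun F c.adm c.nN

/-- the map of coefficient systems -/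
noncomputable def co (c : Cell h K K' F) (n : ℕ) :
    Coef.Hom (K.pF n) ((K'.pF n).pull c.fun') where
  f a := LinearMap.codRestrict (S'.Pin (K'.supp (F a.o)) n)
    ((S'.P n).subtype.comp ((h.f n).comp (Submodule.inclusion (S.Pin_le_P (K.supp a.o) n))))
    (fun x => c.supp a.o n _ x.2)
  comm {a b} u x := by
    induction u using ActCat.ind with
    | h g hg =>
      refine Subtype.ext ?_
      have h1 := congrArg Subtype.val (h.tr g n ⟨x.1, S.Pin_le_P _ _ x.2⟩)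
      exact h1

/-- the chain map of bar complexes -/
noncomputable def bar (c : Cell h K K' F) (n : ℕ) : Cx.Hom (barC (K.pF n)) (barC (K'.pF n)) :=
  (barHom (c.co n)).comp (barPush c.fun' (K'.pF n))

theorem bar_bof (c : Cell h K K' F) (n p : ℕ) (σ : Sx A.Obj p) (y : (K.pF n).M (σ.o 0)) :
    (c.bar n).f p (bof (K.pF n) σ y) = bof (K'.pF n) (σ.push c.fun') ((c.co n).f _ y) := by
  change (barPush c.fun' (K'.pF n)).f p ((barHom (c.co n)).f p (bof (K.pF n) σ y)) = _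
  have h1 : (barHom (c.co n)).f p (bof (K.pF n) σ y) =
    bof ((K'.pF n).pull c.fun') σ ((c.co n).f _ y) := bdesc_bof _ _ _ _
  rw [h1]
  exact bdesc_bof _ _ _ _

/-- naturality of `theta` -/
theorem theta_nat (c : Cell h K K' F) (p : ℕ) (x : (barC (K.pF 0)).X p) :
    h.toHom.ch.f p (K.theta.f p x) = K'.theta.f p ((c.bar 0).f p x) := by
  induction x using bar_ind with
  | h0 => simp only [map_zero]
  | h1 σ y =>
    rw [c.bar_bof, K.theta_bof, K'.theta_bof]
    refine congrArg Submodule.Quotient.mk (Subtype.ext ?_)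
    have h1 := congrArg Subtype.val (h.ins (p + 1)
      (fun i => CellSys.rep (σ.m 0 i (Fin.zero_le i))) ⟨y.1, S.Pin_le_P _ _ y.2⟩)
    refine h1.trans ?_
    change S'.ins _ _ = S'.ins _ _
    refine S'.ins_congr (W := K'.supp (F (σ.o 0).o)) (fun i φ hφ => ?_) (c.supp _ 0 _ y.2)
    have h2 := CellSys.rep_hom (σ.m 0 i (Fin.zero_le i))
    have h3 := CellSys.rep_adm (σ.m 0 i (Fin.zero_le i))
    have h4 : (σ.push c.fun').m 0 i (Fin.zero_le i) =
        A'.hom (CellSys.rep (σ.m 0 i (Fin.zero_le i))) (c.adm h3) := by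
      change c.fun'.map (σ.m 0 i (Fin.zero_le i)) = _
      conv_lhs => rw [h2]
      rfl
    exact (K'.rep_γ _ _ _ h4 hφ).symm
  | h2 x y hx hy => simp only [map_add, hx, hy]

end Cell

end FsMor
end C715
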