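import Pool.Agent.Work.MP_c71557_gt.P.Th

set_option autoImplicit false
set_option linter.unusedVariables false

/-!
# MP_c71557_gt, module P/Nrm: normal form of the coinvariants (M-L)

`nrmF f φ τ = ∑ᶠ_{λ ∈ Λ} f (λ⁻¹ φ) (λ, τ_1 λ, …, τ_n λ)` for `f ∈ FV Λ Fl (n+1)`.

1. `nrmF_gen`: for `f = gen m s` the summand at `λ` is nonzero only if, with `ψ = λ⁻¹ φ`,
   `λ = γ (s 0) ψ` (coordinate `0`), so `s_0 ψ = γ (s_0) ψ • ψ = λ ψ = φ` (`FlagSys.act`), i.e.
   `ψ = s_0⁻¹ φ` and `λ = γ (s_0) (s_0⁻¹ φ)`: one value of `λ` (`finsum_eq_single`).  For this `λ`,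
   `λ⁻¹ φ = s_0⁻¹ φ` and the value is `m (s_0⁻¹ φ)` if `τ_i λ = γ (s_{i+1}) (s_0⁻¹ φ)` for all `i`,
   that is `τ_i = γ (s_{i+1} s_0⁻¹) φ` (cocycle, `γ_inv`), and `0` otherwise.  This is
   `gen (tl s_0 m) (i ↦ s_{i+1} s_0⁻¹) φ τ`.
2. `nrmF` is additive and homogeneous on `P (n+1)`: for `f` in the span, for all `φ, τ` the family
   `λ ↦ f (λ⁻¹ φ) (λ, τ λ)` has finite support (true for generators by 1, stable under sums and
   multiples; `finsum_add_distrib`, `smul_finsum`).  So there is a linear map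
   `N : P (n+1) → (Fl → (Fin n → Λ) → ℚ)`.
3. `exists_nrm`: its values are finitely supported in `τ` for each `φ` (span induction): a linear map
   into `FV Λ Fl n` with `N (gen m s) = gen (tl s_0 m) (s_{i+1} s_0⁻¹)`.  (Easiest: the set of
   `f ∈ P (n+1)` for which there is `g ∈ P n` with `g φ τ = nrmF f φ τ` for all `φ, τ` is a
   submodule containing the generators; `g` is unique.)  Range `= P n`: `gen m s = N (gen m (cons 1 s))`.
4. Kernel.  `N (tr g f) = N f` for generators, hence `coin ≤ ker`: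
   `tr g (gen m s) = gen (tl g m) (s g⁻¹)` and `N` of it is
   `gen (tl (s_0 g⁻¹) (tl g m)) (s_{i+1} g⁻¹ (s_0 g⁻¹)⁻¹) = gen (tl s_0 m) (s_{i+1} s_0⁻¹)`.
   Conversely let `C : FV n → FV (n+1)` be insertion of `1` as coordinate `0` (linear,
   `C (gen m s) = gen m (cons 1 s)`).  Modulo `coin`: `gen m s ≡ tr (s_0) (gen m s) =
   gen (tl s_0 m) (s_i s_0⁻¹)_{i ≥ 0} = C (N (gen m s))`.  By linearity `f ≡ C (N f)` for all
   `f ∈ P (n+1)`; so `N f = 0` implies `f ∈ coin`.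
-/

namespace C715

open CategoryTheory

/-- the normal form, as a function -/
noncomputable def nrmF {Λ Fl : Type} [Group Λ] [MulAction Λ Fl] {n : ℕ}
    (f : FV Λ Fl (n + 1)) (φ : Fl) (τ : Fin n → Λ) : ℚ :=
  ∑ᶠ l : Λ, f (l⁻¹ • φ) (Fin.cons l fun i => τ i * l)

namespace FlagSys

variable {Γ Λ Fl : Type} [Group Γ] [Group Λ] [MulAction Γ Fl] [MulAction Λ Fl]
  (S : FlagSys Γ Λ Fl)

theorem nrmF_gen {n : ℕ} (m : Fl → ℚ) (s : Fin (n + 1) → Γ) (φ : Fl) (τ : Fin n → Λ) :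
    nrmF (S.gen m s) φ τ = S.gen (tl (s 0) m) (fun i => s i.succ * (s 0)⁻¹) φ τ := by
  classical
  obtain ⟨ψ, rfl⟩ : ∃ ψ, φ = s 0 • ψ := ⟨(s 0)⁻¹ • φ, (smul_inv_smul (s 0) φ).symm⟩
  have hl : (S.γ (s 0) ψ)⁻¹ • (s 0 • ψ) = ψ := by rw [← S.act, inv_smul_smul]
  unfold nrmF
  rw [finsum_eq_single _ (S.γ (s 0) ψ)]
  · rw [hl, gen_apply, gen_apply, Finsupp.single_apply, Finsupp.single_apply]
    have h1 : tl (s 0) m (s 0 • ψ) = m ψ := by
      unfold tl
      rw [inv_smul_smul]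
    rw [h1]
    refine if_congr ⟨fun h => ?_, fun h => ?_⟩ rfl rfl
    · funext i
      have h2 := congrFun h i.succ
      simp only [Fin.cons_succ] at h2
      rw [S.mul, inv_smul_smul, S.γ_inv, h2, mul_inv_cancel_right]
    · funext i
      refine Fin.cases ?_ (fun j => ?_) i
      · rw [Fin.cons_zero]
      · rw [Fin.cons_succ, ← congrFun h j, S.mul, inv_smul_smul, S.γ_inv, inv_mul_cancel_right]
  · intro l hl'
    rw [gen_apply, Finsupp.single_apply, if_neg]
    intro h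
    have h2 := congrFun h 0
    simp only [Fin.cons_zero] at h2
    have h3 : s 0 • (l⁻¹ • (s 0 • ψ)) = s 0 • ψ := by
      rw [← S.act (s 0) (l⁻¹ • (s 0 • ψ)), h2, smul_inv_smul]
    have h4 := (MulAction.injective (s 0)) h3
    rw [h4] at h2
    exact hl' h2.symm

private theorem nrm_supp {n : ℕ} (m : Fl → ℚ) (s : Fin (n + 1) → Γ) (φ : Fl) (τ : Fin n → Λ) :
    (Function.support fun l : Λ => (S.gen m s) (l⁻¹ • φ)
      (Fin.cons l fun i => τ i * l : Fin (n + 1) → Λ)).Finite := by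
  classical
  obtain ⟨ψ, rfl⟩ : ∃ ψ, φ = s 0 • ψ := ⟨(s 0)⁻¹ • φ, (smul_inv_smul (s 0) φ).symm⟩
  refine (Set.finite_singleton (S.γ (s 0) ψ)).subset fun l hl => ?_
  by_contra hne
  apply hl
  change (S.gen m s) (l⁻¹ • (s 0 • ψ)) (Fin.cons l fun i => τ i * l : Fin (n + 1) → Λ) = 0
  rw [gen_apply, Finsupp.single_apply, if_neg]
  intro h
  have h2 := congrFun h 0
  simp only [Fin.cons_zero] at h2
  have h3 : s 0 • (l⁻¹ • (s 0 • ψ)) = s 0 • ψ := by
    rw [← S.act (s 0) (l⁻¹ • (s 0 • ψ)), h2, smul_inv_smul]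
  have h4 := (MulAction.injective (s 0)) h3
  rw [h4] at h2
  exact hne h2.symm

private def Fsu {n : ℕ} (f : FV Λ Fl (n + 1)) : Prop :=
  ∀ (φ : Fl) (τ : Fin n → Λ), (Function.support fun l : Λ => f (l⁻¹ • φ)
      (Fin.cons l fun i => τ i * l : Fin (n + 1) → Λ)).Finite

private theorem nrm_fsu {n : ℕ} {f : FV Λ Fl (n + 1)} (hf : f ∈ S.P (n + 1)) : Fsu f := by
  induction hf using Submodule.span_induction with
  | mem f hf =>
    obtain ⟨m, hm, s, rfl⟩ := hf
    exact fun φ τ => S.nrm_supp m s φ τ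
  | zero =>
    intro φ τ
    refine Set.finite_empty.subset fun l hl => ?_
    exact absurd rfl hl
  | add x y _ _ hx hy =>
    intro φ τ
    refine ((hx φ τ).union (hy φ τ)).subset ?_
    exact Function.support_add _ _
  | smul c x _ hx =>
    intro φ τ
    refine (hx φ τ).subset ?_
    exact Function.support_const_smul_subset c _

private theorem nrm_add {n : ℕ} {f g : FV Λ Fl (n + 1)} (hf : Fsu f) (hg : Fsu g) (φ : Fl)
    (τ : Fin n → Λ) : nrmF (f + g) φ τ = nrmF f φ τ + nrmF g φ τ :=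
  finsum_add_distrib (hf φ τ) (hg φ τ)

private theorem nrm_smul {n : ℕ} (c : ℚ) {f : FV Λ Fl (n + 1)} (hf : Fsu f) (φ : Fl)
    (τ : Fin n → Λ) : nrmF (c • f) φ τ = c • nrmF f φ τ :=
  (smul_finsum' c (hf φ τ)).symm

private theorem nrm_zero {n : ℕ} (φ : Fl) (τ : Fin n → Λ) :
    nrmF (0 : FV Λ Fl (n + 1)) φ τ = 0 := finsum_zero

private theorem nrm_ex {n : ℕ} {f : FV Λ Fl (n + 1)} (hf : f ∈ S.P (n + 1)) :
    ∃ g ∈ S.P n, ∀ φ τ, g φ τ = nrmF f φ τ := by
  induction hf using Submodule.span_induction with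
  | mem f hf =>
    obtain ⟨m, hm, s, rfl⟩ := hf
    exact ⟨_, S.gen_mem (S.smul_mem (s 0) m hm) _, fun φ τ => (S.nrmF_gen m s φ τ).symm⟩
  | zero => exact ⟨0, Submodule.zero_mem _, fun φ τ => (nrm_zero φ τ).symm⟩
  | add x y hx' hy' hx hy =>
    obtain ⟨g, hg, h1⟩ := hx
    obtain ⟨k, hk, h2⟩ := hy
    refine ⟨g + k, Submodule.add_mem _ hg hk, fun φ τ => ?_⟩
    rw [nrm_add (S.nrm_fsu hx') (S.nrm_fsu hy'), ← h1, ← h2]
    rfl
  | smul c x hx' hx =>
    obtain ⟨g, hg, h1⟩ := hx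
    refine ⟨c • g, Submodule.smul_mem _ c hg, fun φ τ => ?_⟩
    rw [nrm_smul c (S.nrm_fsu hx'), ← h1]
    rfl

/-- insertion of `1` as coordinate `0` -/
private noncomputable def ncons {Λ Fl : Type} [Group Λ] {n : ℕ} :
    FV Λ Fl n →ₗ[ℚ] FV Λ Fl (n + 1) :=
  LinearMap.pi fun φ =>
    (Finsupp.lmapDomain ℚ ℚ (fun t : Fin n → Λ => (Fin.cons 1 t : Fin (n + 1) → Λ))).comp
      (LinearMap.proj φ)

private theorem ncons_apply {Λ Fl : Type} [Group Λ] {n : ℕ} (f : FV Λ Fl n) (φ : Fl) :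
    ncons f φ = Finsupp.mapDomain (fun t : Fin n → Λ => (Fin.cons 1 t : Fin (n + 1) → Λ)) (f φ) :=
  rfl

private theorem ncons_gen {n : ℕ} (m : Fl → ℚ) (s : Fin n → Γ) :
    ncons (S.gen m s) = S.gen m (Fin.cons 1 s : Fin (n + 1) → Γ) := funext fun φ => by
  rw [ncons_apply, gen_apply, gen_apply, Finsupp.mapDomain_single]
  congr 1
  funext i
  refine Fin.cases ?_ (fun j => ?_) i
  · rw [Fin.cons_zero, Fin.cons_zero, S.γ_one]
  · rw [Fin.cons_succ, Fin.cons_succ]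

private theorem ncons_P (n : ℕ) : S.P n ≤ (S.P (n + 1)).comap ncons := by
  refine Submodule.span_le.2 ?_
  rintro f ⟨m, hm, s, rfl⟩
  rw [SetLike.mem_coe, Submodule.mem_comap, ncons_gen]
  exact S.gen_mem hm _

private theorem tl_one (m : Fl → ℚ) : tl (1 : Γ) m = m := by
  funext φ
  unfold tl
  rw [inv_one, one_smul]

theorem exists_nrm (n : ℕ) : ∃ N : ↥(S.P (n + 1)) →ₗ[ℚ] FV Λ Fl n,
    (∀ (m : Fl → ℚ) (hm : m ∈ S.M) (s : Fin (n + 1) → Γ), N ⟨S.gen m s, S.gen_mem hm s⟩ =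
      S.gen (tl (s 0) m) (fun i => s i.succ * (s 0)⁻¹)) ∧
    (∀ x φ τ, N x φ τ = nrmF x.1 φ τ) ∧
    (∀ x, N x = 0 ↔ x ∈ S.coin (n + 1)) ∧ LinearMap.range N = S.P n := by
  have hex := fun x : ↥(S.P (n + 1)) => S.nrm_ex x.2
  choose N0 hN0 hN1 using hex
  let N : ↥(S.P (n + 1)) →ₗ[ℚ] FV Λ Fl n :=
    { toFun := N0
      map_add' := fun x y => by
        funext φ
        ext τ
        rw [hN1]
        change _ = N0 x φ τ + N0 y φ τ
        rw [hN1, hN1]
        exact nrm_add (S.nrm_fsu x.2) (S.nrm_fsu y.2) φ τ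
      map_smul' := fun c x => by
        funext φ
        ext τ
        rw [hN1]
        change _ = c • N0 x φ τ
        rw [hN1]
        exact nrm_smul c (S.nrm_fsu x.2) φ τ }
  have hgen : ∀ (m : Fl → ℚ) (hm : m ∈ S.M) (s : Fin (n + 1) → Γ),
      N ⟨S.gen m s, S.gen_mem hm s⟩ = S.gen (tl (s 0) m) (fun i => s i.succ * (s 0)⁻¹) := by
    intro m hm s
    funext φ
    ext τ
    exact (hN1 _ φ τ).trans (S.nrmF_gen m s φ τ)
  refine ⟨N, hgen, hN1, fun x => ⟨fun hx => ?_, fun hx => ?_⟩, ?_⟩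
  · -- `x - C (N x)` is in `coin`
    have key : ∀ (f : FV Λ Fl (n + 1)) (hf : f ∈ S.P (n + 1)),
        (⟨f, hf⟩ : ↥(S.P (n + 1))) - ⟨ncons (N ⟨f, hf⟩), S.ncons_P n (hN0 ⟨f, hf⟩)⟩ ∈
          S.coin (n + 1) := by
      intro f hf
      induction hf using Submodule.span_induction with
      | mem f hf =>
        obtain ⟨m, hm, s, rfl⟩ := hf
        refine Submodule.subset_span ⟨s 0, ⟨S.gen m s, S.gen_mem hm s⟩, ?_⟩
        congr 1
        refine Subtype.ext ?_
        change ncons (N ⟨S.gen m s, _⟩) = S.tr (s 0) (S.gen m s)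
        rw [hgen m hm s, ncons_gen, tr_gen]
        congr 1
        funext i
        refine Fin.cases ?_ (fun j => ?_) i
        · rw [Fin.cons_zero, mul_inv_cancel]
        · rw [Fin.cons_succ]
      | zero =>
        have h0 : (⟨0, Submodule.zero_mem _⟩ : ↥(S.P (n + 1))) = 0 := rfl
        convert Submodule.zero_mem (S.coin (n + 1)) using 1
        refine Subtype.ext ?_
        change (0 : FV Λ Fl (n + 1)) - ncons (N ⟨0, _⟩) = 0
        rw [h0, map_zero, map_zero, sub_zero]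
      | add x y hx' hy' hx hy =>
        have h := Submodule.add_mem _ hx hy
        convert h using 1
        refine Subtype.ext ?_
        change (x + y) - ncons (N ⟨x + y, _⟩) = (x - ncons (N ⟨x, _⟩)) + (y - ncons (N ⟨y, _⟩))
        have h1 : (⟨x + y, Submodule.add_mem _ hx' hy'⟩ : ↥(S.P (n + 1))) =
            ⟨x, hx'⟩ + ⟨y, hy'⟩ := rfl
        rw [h1, map_add, map_add]
        abel
      | smul c x hx' hx =>
        have h := Submodule.smul_mem _ c hx
        convert h using 1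
        refine Subtype.ext ?_
        change (c • x) - ncons (N ⟨c • x, _⟩) = c • (x - ncons (N ⟨x, _⟩))
        have h1 : (⟨c • x, Submodule.smul_mem _ c hx'⟩ : ↥(S.P (n + 1))) = c • ⟨x, hx'⟩ := rfl
        rw [h1, map_smul, map_smul, smul_sub]
    have h1 := key x.1 x.2
    have h2 : (⟨ncons (N ⟨x.1, x.2⟩), S.ncons_P n (hN0 ⟨x.1, x.2⟩)⟩ : ↥(S.P (n + 1))) = 0 := by
      refine Subtype.ext ?_
      change ncons (N x) = 0
      rw [hx, map_zero]
    rw [h2, sub_zero] at h1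
    exact h1
  · have key : ∀ (g : Γ) (f : FV Λ Fl (n + 1)) (hf : f ∈ S.P (n + 1)),
        N ((S.tr g).restrict (S.P_tr g) ⟨f, hf⟩) = N ⟨f, hf⟩ := by
      intro g f hf
      induction hf using Submodule.span_induction with
      | mem f hf =>
        obtain ⟨m, hm, s, rfl⟩ := hf
        have h1 : (S.tr g).restrict (S.P_tr g) ⟨S.gen m s, S.gen_mem hm s⟩ =
            (⟨S.gen (tl g m) (fun i => s i * g⁻¹), S.gen_mem (S.smul_mem g m hm) _⟩ :
              ↥(S.P (n + 1))) := Subtype.ext (S.tr_gen g m s)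
        refine (congrArg N h1).trans ?_
        refine (hgen (tl g m) (S.smul_mem g m hm) fun i => s i * g⁻¹).trans ?_
        refine Eq.trans ?_ (hgen m hm s).symm
        have h2 : tl (s 0 * g⁻¹) (tl g m) = tl (s 0) m := by
          funext φ
          unfold tl
          rw [smul_smul, mul_inv_rev, inv_inv, inv_mul_cancel_left]
        have h3 : (fun i : Fin n => s i.succ * g⁻¹ * (s 0 * g⁻¹)⁻¹) =
            fun i : Fin n => s i.succ * (s 0)⁻¹ := by
          funext i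
          group
        rw [h2, h3]
      | zero =>
        have h0 : (⟨0, Submodule.zero_mem _⟩ : ↥(S.P (n + 1))) = 0 := rfl
        rw [h0, map_zero]
      | add x y hx' hy' hx hy =>
        have h1 : (⟨x + y, Submodule.add_mem _ hx' hy'⟩ : ↥(S.P (n + 1))) =
            ⟨x, hx'⟩ + ⟨y, hy'⟩ := rfl
        rw [h1, map_add, map_add, map_add, hx, hy]
      | smul c x hx' hx =>
        have h1 : (⟨c • x, Submodule.smul_mem _ c hx'⟩ : ↥(S.P (n + 1))) = c • ⟨x, hx'⟩ := rfl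
        rw [h1, map_smul, map_smul, map_smul, hx]
    induction hx using Submodule.span_induction with
    | mem x hx =>
      obtain ⟨g, y, rfl⟩ := hx
      rw [map_sub, key g y.1 y.2, sub_self]
    | zero => exact map_zero N
    | add x y _ _ hx hy => rw [map_add, hx, hy, add_zero]
    | smul c x _ hx => rw [map_smul, hx, smul_zero]
  · refine le_antisymm ?_ ?_
    · rintro _ ⟨x, rfl⟩
      exact hN0 x
    · refine Submodule.span_le.2 ?_
      rintro f ⟨m, hm, s, rfl⟩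
      refine ⟨⟨S.gen m (Fin.cons 1 s : Fin (n + 1) → Γ), S.gen_mem hm _⟩, ?_⟩
      rw [hgen m hm, Fin.cons_zero, tl_one]
      congr 1
      funext i
      rw [Fin.cons_succ, inv_one, mul_one]

/-- the relations do not depend on the group `Γ` -/
theorem coin_iff {n : ℕ} (x : ↥(S.P (n + 1))) :
    x ∈ S.coin (n + 1) ↔ ∀ (φ : Fl) (τ : Fin n → Λ), nrmF x.1 φ τ = 0 := by
  obtain ⟨N, -, h1, h2, -⟩ := S.exists_nrm n
  rw [← h2 x]
  constructor
  · intro h φ τ
    rw [← h1, h]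
    rfl
  · intro h
    funext φ
    ext τ
    rw [h1]
    exact h φ τ

end FlagSys
end C715
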