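import Pool.Agent.Work.MP_c71557_gt.P.Shear

set_option autoImplicit false
set_option linter.unusedVariables false

/-!
# MP_c71557_gt, module P/Push: pushing outwards away from a square (M)

`a ⊆ b` squares, `N ⊇ a` open: there is `k ∈ E a` with `b ⊆ k '' N`.

PROOF.  Let `a = closedBall p r`; choose `r < r0 < r'` with `closedBall p r' ⊆ N`
(`IsCompact.exists_cthickening_subset_open`, or a Lebesgue number) and `R > r'` with
`b ⊆ closedBall p R`.  `pushOne` : for `c < c' `, `R' > 0` and `M` there is `g ∈ GU {x | c < x.1}` with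
`(g x).2 = x.2`, `x.1 ≤ (g x).1` for all `x` and `M ≤ (g x).1` whenever `c' ≤ x.1` and `|x.2| ≤ R'`:
`g x = (x.1 + φ x, x.2)`, `φ x = min (κ (x.1 - c'')⁺) (min (θ (L - x.1)⁺) (λ (2 R' - |x.2|)⁺))`,
`c < c'' < c'`, `L` with `c' + θ (L - c') ≥ M`, e.g. `θ = 1/2`, `L = 2 max(M,c') - c' + 1`, `κ` and `λ`
with `κ (c' - c'') ≥ θ L'`, `λ R' ≥ θ L'`, `L' = L - c'`; slope in `x.1` is `≥ -θ`; for
`x.1 ≥ c'` use monotonicity of `t ↦ t + φ (t, y)` and the value at `t = c'`.
Use it four times: `k1` (right, half plane `{x.1 > p.1 + r}`, `c' = p.1 + r'`), `k2` (left, by symmetry),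
`k3` (up), `k4` (down).  Each is a fragment off `a` (`h = 1`, `U` the open half plane, which is disjoint
from `a.set`, `K` the compact support).  `k1 k2` maps `[p.1-r', p.1+r'] × {y}`, `|y - p.2| ≤ R`, onto a set
containing `[p.1-R, p.1+R] × {y}` (monotone and continuous on horizontals, intermediate values;
`k1`, `k2` have disjoint supports), and `k3 k4` maps `{x} × [p.2-r', p.2+r']`, `|x - p.1| ≤ R`, onto a set
containing `{x} × [p.2-R, p.2+R]`.  So
`k3 k4 k1 k2 (closedBall p r') ⊇ k3 k4 ([p.1-R, p.1+R] × [p.2-r', p.2+r']) ⊇ closedBall p R ⊇ b`.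
-/

namespace C715

private noncomputable def ph (κ c L θ l R : ℝ) (x : P2) : ℝ :=
  min (κ * max 0 (x.1 - c)) (min (θ * max 0 (L - x.1)) (l * max 0 (R - |x.2|)))

private theorem ph_pl (κ c L θ l R : ℝ) : IsPLf (ph κ c L θ l R) := by
  refine IsPLf.min ?_ (IsPLf.min ?_ ?_)
  · exact ((IsPLf.const 0).max (IsPLf.fst.sub (IsPLf.const c))).smul κ
  · exact ((IsPLf.const 0).max ((IsPLf.const L).sub IsPLf.fst)).smul θ
  · exact ((IsPLf.const 0).max ((IsPLf.const R).sub IsPLf.snd.abs)).smul l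

private theorem ph_nonneg (κ c L θ l R : ℝ) (h1 : 0 ≤ κ) (h2 : 0 ≤ θ) (h3 : 0 ≤ l) (x : P2) :
    0 ≤ ph κ c L θ l R x :=
  le_min (mul_nonneg h1 (le_max_left _ _))
    (le_min (mul_nonneg h2 (le_max_left _ _)) (mul_nonneg h3 (le_max_left _ _)))

private theorem ph_slope (κ c L θ l R : ℝ) (h1 : 0 ≤ κ) (h2 : 0 ≤ θ) (y s t : ℝ) (h : s ≤ t) :
    ph κ c L θ l R (s, y) - θ * (t - s) ≤ ph κ c L θ l R (t, y) := by
  unfold ph
  simp only
  have hts : 0 ≤ θ * (t - s) := mul_nonneg h2 (by linarith)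
  refine le_min ?_ (le_min ?_ ?_)
  · have e1 : κ * max 0 (s - c) ≤ κ * max 0 (t - c) :=
      mul_le_mul_of_nonneg_left (max_le_max le_rfl (by linarith)) h1
    have e2 := min_le_left (κ * max 0 (s - c)) (min (θ * max 0 (L - s)) (l * max 0 (R - |y|)))
    linarith
  · have e1 : max 0 (L - s) - (t - s) ≤ max 0 (L - t) := by
      rcases le_total (L - s) 0 with h3 | h3
      · rw [max_eq_left h3]
        have := le_max_left 0 (L - t)
        linarith
      · rw [max_eq_right h3]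
        have := le_max_right 0 (L - t)
        linarith
    have e3 : θ * (max 0 (L - s) - (t - s)) ≤ θ * max 0 (L - t) :=
      mul_le_mul_of_nonneg_left e1 h2
    have e2 := (min_le_right (κ * max 0 (s - c))
      (min (θ * max 0 (L - s)) (l * max 0 (R - |y|)))).trans (min_le_left _ _)
    rw [mul_sub] at e3
    linarith
  · have e2 := (min_le_right (κ * max 0 (s - c))
      (min (θ * max 0 (L - s)) (l * max 0 (R - |y|)))).trans (min_le_right _ _)
    linarith

theorem pushOne (c c' M R' : ℝ) (h : c < c') (hR : 0 < R') :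
    ∃ g ∈ GU {x : P2 | c < x.1}, (∀ x : P2, (g x).2 = x.2 ∧ x.1 ≤ (g x).1) ∧
      ∀ x : P2, c' ≤ x.1 → |x.2| ≤ R' → M ≤ (g x).1 := by
  set d : ℝ := (c + c') / 2 with hd
  have hcd : c < d := by rw [hd]; linarith
  have hdc : d < c' := by rw [hd]; linarith
  set L : ℝ := 2 * max M c' - c' + 1 with hL
  have hM := le_max_left M c'
  have hM' := le_max_right M c'
  have hLc : 0 < L - c' := by rw [hL]; linarith
  set κ : ℝ := (L - c') / (c' - d) with hκ
  set l : ℝ := (L - c') / R' with hl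
  have hκ0 : 0 < κ := div_pos hLc (by linarith)
  have hl0 : 0 < l := div_pos hLc hR
  set K : Set P2 := Set.Icc d L ×ˢ Set.Icc (-(2 * R')) (2 * R') with hK
  have hKc : IsCompact K := isCompact_Icc.prod isCompact_Icc
  obtain ⟨g, hg, hgx⟩ := shear1 (ph κ d L (1 / 2) l (2 * R')) (ph_pl _ _ _ _ _ _)
    {x : P2 | c < x.1} K (fun x hx => lt_of_lt_of_le hcd hx.1.1) hKc (fun x hx => by
      refine le_antisymm ?_ (ph_nonneg _ _ _ _ _ _ hκ0.le (by norm_num) hl0.le x)
      unfold ph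
      by_contra hcon
      rw [not_le] at hcon
      have e1 := lt_min_iff.1 hcon
      have e2 := lt_min_iff.1 e1.2
      have f1 : 0 < max 0 (x.1 - d) := by
        by_contra h9
        have h10 : max 0 (x.1 - d) = 0 := le_antisymm (not_lt.1 h9) (le_max_left _ _)
        rw [h10, mul_zero] at e1
        exact lt_irrefl _ e1.1
      have f2 : 0 < max 0 (L - x.1) := by
        by_contra h9
        have h10 : max 0 (L - x.1) = 0 := le_antisymm (not_lt.1 h9) (le_max_left _ _)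
        rw [h10, mul_zero] at e2
        exact lt_irrefl _ e2.1
      have f3 : 0 < max 0 (2 * R' - |x.2|) := by
        by_contra h9
        have h10 : max 0 (2 * R' - |x.2|) = 0 := le_antisymm (not_lt.1 h9) (le_max_left _ _)
        rw [h10, mul_zero] at e2
        exact lt_irrefl _ e2.2
      rw [lt_max_iff] at f1 f2 f3
      have g1 := f1.resolve_left (lt_irrefl _)
      have g2 := f2.resolve_left (lt_irrefl _)
      have g3 := f3.resolve_left (lt_irrefl _)
      refine hx ⟨⟨by linarith, by linarith⟩, ?_⟩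
      have g4 : |x.2| ≤ 2 * R' := by linarith
      exact abs_le.1 g4)
    (fun y => strictMono_of_slope _ (1 / 2) (by norm_num) fun s t hst => by
      have := ph_slope κ d L (1 / 2) l (2 * R') hκ0.le (by norm_num) y s t hst.le
      linarith)
  refine ⟨g, hg, fun x => ?_, fun x hx1 hx2 => ?_⟩
  · rw [hgx]
    have := ph_nonneg κ d L (1 / 2) l (2 * R') hκ0.le (by norm_num) hl0.le x
    exact ⟨rfl, by simp only; linarith⟩
  · rw [hgx]
    have e1 := ph_slope κ d L (1 / 2) l (2 * R') hκ0.le (by norm_num) x.2 c' x.1 hx1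
    have e2 : (L - c') / 2 ≤ ph κ d L (1 / 2) l (2 * R') (c', x.2) := by
      unfold ph
      simp only
      refine le_min ?_ (le_min ?_ ?_)
      · rw [max_eq_right (by linarith : (0 : ℝ) ≤ c' - d), hκ,
          div_mul_cancel₀ _ (by linarith : c' - d ≠ 0)]
        linarith
      · rw [max_eq_right hLc.le]
        linarith
      · have e3 : R' ≤ max 0 (2 * R' - |x.2|) := le_max_of_le_right (by linarith)
        have e4 : l * R' ≤ l * max 0 (2 * R' - |x.2|) := mul_le_mul_of_nonneg_left e3 hl0.le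
        rw [hl, div_mul_cancel₀ _ hR.ne'] at e4
        rw [hl]
        linarith
    have e5 : (x.1, x.2) = x := rfl
    rw [e5] at e1
    simp only
    have e6 : L = 2 * max M c' - c' + 1 := hL
    linarith

private theorem conjGU (σ : Equiv.Perm P2) (hσ : σ ∈ PLH) (U : Set P2) (g : Equiv.Perm P2)
    (hg : g ∈ GU U) : σ * g * σ⁻¹ ∈ GU (σ '' U) := by
  obtain ⟨hgc, K, hKU, hK, h1⟩ := hg
  refine GU_of _ ?_ _ (σ '' K) (Set.image_mono hKU) (hK.image hσ.1.cont) fun x hx => ?_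
  · exact (PLH.mul_mem (PLH.mul_mem hσ hgc.1) (PLH.inv_mem hσ)).1
  · have e : σ (σ⁻¹ x) = x := σ.apply_symm_apply x
    rw [Equiv.Perm.mul_apply, Equiv.Perm.mul_apply, h1 (σ⁻¹ x), e]
    intro h2
    exact hx ⟨_, h2, e⟩

private theorem GU_off {U : Set P2} {g : Equiv.Perm P2} (hg : g ∈ GU U) (x : P2) (hx : x ∉ U) :
    g x = x := by
  obtain ⟨hgc, K, hKU, hK, h1⟩ := hg
  exact h1 x fun h => hx (hKU h)

/-- reflection -/
private def rf : Equiv.Perm P2 where
  toFun x := (-x.1, x.2)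
  invFun x := (-x.1, x.2)
  left_inv x := by simp
  right_inv x := by simp

/-- swap -/
private def sw : Equiv.Perm P2 where
  toFun x := (x.2, x.1)
  invFun x := (x.2, x.1)
  left_inv x := rfl
  right_inv x := rfl

private theorem rf_mem : rf ∈ PLH :=
  PLH_aff rf ⟨-1, 0, 0⟩ ⟨0, 1, 0⟩ ⟨-1, 0, 0⟩ ⟨0, 1, 0⟩ (fun x => by simp [rf, L3.ev])
    (fun x => by simp [rf, L3.ev])

private theorem sw_mem : sw ∈ PLH :=
  PLH_aff sw ⟨0, 1, 0⟩ ⟨1, 0, 0⟩ ⟨0, 1, 0⟩ ⟨1, 0, 0⟩ (fun x => by simp [sw, L3.ev])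
    (fun x => by simp [sw, L3.ev])

private theorem rf_apply (x : P2) : rf x = (-x.1, x.2) := rfl

private theorem rf_inv_apply (x : P2) : rf⁻¹ x = (-x.1, x.2) := rfl

private theorem sw_apply (x : P2) : sw x = (x.2, x.1) := rfl

private theorem sw_inv_apply (x : P2) : sw⁻¹ x = (x.2, x.1) := rfl

private theorem pushL (c c' M R' : ℝ) (h : c' < c) (hR : 0 < R') :
    ∃ g ∈ GU {x : P2 | x.1 < c}, (∀ x : P2, (g x).2 = x.2) ∧
      ∀ x : P2, x.1 ≤ c' → |x.2| ≤ R' → (g x).1 ≤ M := by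
  obtain ⟨g, hg, h1, h2⟩ := pushOne (-c) (-c') (-M) R' (by linarith) hR
  refine ⟨rf * g * rf⁻¹, ?_, fun x => ?_, fun x h3 h4 => ?_⟩
  · have h5 := conjGU rf rf_mem _ g hg
    refine GU_mono ?_ h5
    rintro _ ⟨x, hx, rfl⟩
    rw [rf_apply]
    simp only [Set.mem_ofPred_eq] at hx ⊢
    linarith
  · rw [Equiv.Perm.mul_apply, Equiv.Perm.mul_apply, rf_apply, rf_inv_apply]
    exact (h1 _).1
  · rw [Equiv.Perm.mul_apply, Equiv.Perm.mul_apply, rf_apply, rf_inv_apply]
    have := h2 (-x.1, x.2) (by simpa using h3) h4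
    simp only
    linarith

private theorem pushU (c c' M R' : ℝ) (h : c < c') (hR : 0 < R') :
    ∃ g ∈ GU {x : P2 | c < x.2}, (∀ x : P2, (g x).1 = x.1) ∧
      ∀ x : P2, c' ≤ x.2 → |x.1| ≤ R' → M ≤ (g x).2 := by
  obtain ⟨g, hg, h1, h2⟩ := pushOne c c' M R' h hR
  refine ⟨sw * g * sw⁻¹, ?_, fun x => ?_, fun x h3 h4 => ?_⟩
  · have h5 := conjGU sw sw_mem _ g hg
    refine GU_mono ?_ h5
    rintro _ ⟨x, hx, rfl⟩
    exact hx
  · rw [Equiv.Perm.mul_apply, Equiv.Perm.mul_apply, sw_apply, sw_inv_apply]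
    exact (h1 _).1
  · rw [Equiv.Perm.mul_apply, Equiv.Perm.mul_apply, sw_apply, sw_inv_apply]
    exact h2 (x.2, x.1) h3 h4

private theorem pushD (c c' M R' : ℝ) (h : c' < c) (hR : 0 < R') :
    ∃ g ∈ GU {x : P2 | x.2 < c}, (∀ x : P2, (g x).1 = x.1) ∧
      ∀ x : P2, x.2 ≤ c' → |x.1| ≤ R' → (g x).2 ≤ M := by
  obtain ⟨g, hg, h1, h2⟩ := pushL c c' M R' h hR
  refine ⟨sw * g * sw⁻¹, ?_, fun x => ?_, fun x h3 h4 => ?_⟩
  · have h5 := conjGU sw sw_mem _ g hg
    refine GU_mono ?_ h5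
    rintro _ ⟨x, hx, rfl⟩
    exact hx
  · rw [Equiv.Perm.mul_apply, Equiv.Perm.mul_apply, sw_apply, sw_inv_apply]
    exact h1 _
  · rw [Equiv.Perm.mul_apply, Equiv.Perm.mul_apply, sw_apply, sw_inv_apply]
    exact h2 (x.2, x.1) h3 h4

private theorem frag_of (S U : Set P2) (hU : IsOpen U) (hc : Convex ℝ U) (hd : Disjoint U S)
    (g : Equiv.Perm P2) (hg : g ∈ GU U) : g ∈ E S := by
  obtain ⟨hgc, K, hKU, hK, h1⟩ := hg
  refine Frag.mem ⟨hgc, 1, Gc.one_mem, U, K, hU, hc, hK, hKU, ?_, ?_⟩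
  · intro x hx
    refine h1 x fun h => hx ?_
    exact ⟨x, h, rfl⟩
  · have : (fun x => (1 : Equiv.Perm P2) x) '' U = U := by
      ext x
      simp
    simpa using hd

private theorem sweepH (g : Equiv.Perm P2) (hg : Continuous g) (h1 : ∀ x : P2, (g x).2 = x.2)
    (y u v z : ℝ) (huv : u ≤ v) (h2 : (g (u, y)).1 ≤ z) (h3 : z ≤ (g (v, y)).1) :
    ∃ t ∈ Set.Icc u v, g (t, y) = (z, y) := by
  have hc : ContinuousOn (fun t : ℝ => (g (t, y)).1) (Set.Icc u v) := by
    apply Continuous.continuousOn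
    fun_prop
  obtain ⟨t, ht, e⟩ := intermediate_value_Icc huv hc ⟨h2, h3⟩
  exact ⟨t, ht, Prod.ext e (h1 _)⟩

private theorem sweepV (g : Equiv.Perm P2) (hg : Continuous g) (h1 : ∀ x : P2, (g x).1 = x.1)
    (y u v z : ℝ) (huv : u ≤ v) (h2 : (g (y, u)).2 ≤ z) (h3 : z ≤ (g (y, v)).2) :
    ∃ t ∈ Set.Icc u v, g (y, t) = (y, z) := by
  have hc : ContinuousOn (fun t : ℝ => (g (y, t)).2) (Set.Icc u v) := by
    apply Continuous.continuousOn
    fun_prop
  obtain ⟨t, ht, e⟩ := intermediate_value_Icc huv hc ⟨h2, h3⟩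
  exact ⟨t, ht, Prod.ext (h1 _) e⟩

theorem push (a b : Sq) (N : Set P2) (hN : IsOpen N) (haN : a.set ⊆ N) (hab : a.set ⊆ b.set) :
    ∃ k ∈ E a.set, b.set ⊆ k '' N := by
  obtain ⟨⟨p, r⟩, hr⟩ := a
  simp only [Sq.set] at haN hab ⊢
  simp only at hr
  obtain ⟨δ, hδ, hδN⟩ := (isCompact_closedBall p r).exists_cthickening_subset_open hN haN
  rw [cthickening_closedBall hδ.le hr.le] at hδN
  set r' := δ + r with hr'
  have hr'' : Metric.closedBall p r' ⊆ N := by
    simpa [hr', add_comm] using hδN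
  have hrr : r < r' := by rw [hr']; linarith
  obtain ⟨R, hRr, hbR⟩ : ∃ R, r' < R ∧ Metric.closedBall b.1.1 b.1.2 ⊆ Metric.closedBall p R := by
    refine ⟨max (r' + 1) (b.1.2 + dist b.1.1 p), lt_of_lt_of_le (by linarith) (le_max_left _ _), ?_⟩
    exact (Metric.closedBall_subset_closedBall' le_rfl).trans
      (Metric.closedBall_subset_closedBall (le_max_right _ _))
  have hR0 : 0 < R := by linarith
  obtain ⟨k1, hk1, h1, h1'⟩ := pushOne (p.1 + r) (p.1 + r') (p.1 + R) (|p.2| + R) (by linarith)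
    (by positivity)
  obtain ⟨k2, hk2, h2, h2'⟩ := pushL (p.1 - r) (p.1 - r') (p.1 - R) (|p.2| + R) (by linarith)
    (by positivity)
  obtain ⟨k3, hk3, h3, h3'⟩ := pushU (p.2 + r) (p.2 + r') (p.2 + R) (|p.1| + R) (by linarith)
    (by positivity)
  obtain ⟨k4, hk4, h4, h4'⟩ := pushD (p.2 - r) (p.2 - r') (p.2 - R) (|p.1| + R) (by linarith)
    (by positivity)
  have memb : ∀ (ρ : ℝ) (x : P2), x ∈ Metric.closedBall p ρ ↔ |x.1 - p.1| ≤ ρ ∧ |x.2 - p.2| ≤ ρ := by
    intro ρ x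
    rw [Metric.mem_closedBall, Prod.dist_eq, max_le_iff, Real.dist_eq, Real.dist_eq]
  have E1 : k1 ∈ E (Metric.closedBall p r) := by
    refine frag_of _ {x : P2 | p.1 + r < x.1} (isOpen_lt continuous_const continuous_fst) ?_ ?_ k1 hk1
    · exact convex_halfSpace_gt ((LinearMap.fst ℝ ℝ ℝ).isLinear) _
    · rw [Set.disjoint_left]
      intro x hx hx'
      have h5 := abs_le.1 ((memb _ _).1 hx').1
      have h6 : p.1 + r < x.1 := hx
      linarith [h5.2]
  have E2 : k2 ∈ E (Metric.closedBall p r) := by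
    refine frag_of _ {x : P2 | x.1 < p.1 - r} (isOpen_lt continuous_fst continuous_const) ?_ ?_ k2 hk2
    · exact convex_halfSpace_lt ((LinearMap.fst ℝ ℝ ℝ).isLinear) _
    · rw [Set.disjoint_left]
      intro x hx hx'
      have h5 := abs_le.1 ((memb _ _).1 hx').1
      have h6 : x.1 < p.1 - r := hx
      linarith [h5.1]
  have E3 : k3 ∈ E (Metric.closedBall p r) := by
    refine frag_of _ {x : P2 | p.2 + r < x.2} (isOpen_lt continuous_const continuous_snd) ?_ ?_ k3 hk3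
    · exact convex_halfSpace_gt ((LinearMap.snd ℝ ℝ ℝ).isLinear) _
    · rw [Set.disjoint_left]
      intro x hx hx'
      have h5 := abs_le.1 ((memb _ _).1 hx').2
      have h6 : p.2 + r < x.2 := hx
      linarith [h5.2]
  have E4 : k4 ∈ E (Metric.closedBall p r) := by
    refine frag_of _ {x : P2 | x.2 < p.2 - r} (isOpen_lt continuous_snd continuous_const) ?_ ?_ k4 hk4
    · exact convex_halfSpace_lt ((LinearMap.snd ℝ ℝ ℝ).isLinear) _
    · rw [Set.disjoint_left]
      intro x hx hx'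
      have h5 := abs_le.1 ((memb _ _).1 hx').2
      have h6 : x.2 < p.2 - r := hx
      linarith [h5.1]
  refine ⟨k3 * k4 * (k1 * k2), (E _).mul_mem ((E _).mul_mem E3 E4) ((E _).mul_mem E1 E2), ?_⟩
  have c1 := Gc_cont ((GU_le _) hk1)
  have c2 := Gc_cont ((GU_le _) hk2)
  have c3 := Gc_cont ((GU_le _) hk3)
  have c4 := Gc_cont ((GU_le _) hk4)
  intro z hz
  have hz' := (memb _ _).1 (hbR hz)
  have hz1 := abs_le.1 hz'.1
  have hz2 := abs_le.1 hz'.2
  have hab1 : |z.1| ≤ |p.1| + R := by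
    have := abs_sub_abs_le_abs_sub z.1 p.1
    linarith [hz'.1]
  -- vertical
  obtain ⟨t, ht, et⟩ := sweepV (k3 * k4) (c3.comp c4) (fun x => by
      rw [Equiv.Perm.mul_apply, h3, h4]) z.1 (p.2 - r') (p.2 + r') z.2 (by linarith)
    (by
      rw [Equiv.Perm.mul_apply]
      have e1 := h4' (z.1, p.2 - r') le_rfl hab1
      rw [GU_off hk3]
      · linarith [hz2.1]
      · simp only [Set.mem_ofPred_eq, not_lt]
        linarith)
    (by
      rw [Equiv.Perm.mul_apply, GU_off hk4]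
      · have e1 := h3' (z.1, p.2 + r') le_rfl hab1
        linarith [hz2.2]
      · simp only [Set.mem_ofPred_eq, not_lt]
        linarith)
  have hab2 : |t| ≤ |p.2| + R := by
    have h5 := abs_sub_abs_le_abs_sub t p.2
    have h6 : |t - p.2| ≤ r' := abs_le.2 ⟨by linarith [ht.1], by linarith [ht.2]⟩
    linarith
  obtain ⟨w, hw, ew⟩ := sweepH (k1 * k2) (c1.comp c2) (fun x => by
      rw [Equiv.Perm.mul_apply, (h1 _).1, h2]) t (p.1 - r') (p.1 + r') z.1 (by linarith)
    (by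
      rw [Equiv.Perm.mul_apply]
      have e1 := h2' (p.1 - r', t) le_rfl hab2
      rw [GU_off hk1]
      · linarith [hz1.1]
      · simp only [Set.mem_ofPred_eq, not_lt]
        linarith)
    (by
      rw [Equiv.Perm.mul_apply, GU_off hk2]
      · have e1 := h1' (p.1 + r', t) le_rfl hab2
        linarith [hz1.2]
      · simp only [Set.mem_ofPred_eq, not_lt]
        linarith)
  refine ⟨(w, t), hr'' ((memb _ _).2 ⟨abs_le.2 ⟨?_, ?_⟩, abs_le.2 ⟨?_, ?_⟩⟩), ?_⟩
  · simp only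
    linarith [hw.1]
  · simp only
    linarith [hw.2]
  · simp only
    linarith [ht.1]
  · simp only
    linarith [ht.2]
  · rw [Equiv.Perm.mul_apply, ew, et]

end C715
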