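import Pool.Agent.Work.MP_c71557_gt.P.GTCol
import Pool.Agent.Work.MP_c71557_gt.P.GTRow0
import Pool.Agent.Work.MP_c71557_gt.P.GTRow1

set_option autoImplicit false
set_option linter.unusedVariables false

/-!
# MP_c71557_gt, module P/ThQ: `theta` is a quasi-isomorphism (M)

`rowA_qis`: `DCx.RowAug.qis` (`H/Rows`) with `row_surj`, `row_exact0`, `row_exact` (the horizontal
differential of `hoco` is by definition `(barC (K.pF (q+1))).d p`).

`theta_htpy`: `theta ∘ colA.hom` and `rowA.hom : Tot hoco → S.Ch` are chain homotopic.  For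
`x ∈ X p q = ⨁_{σ ∈ Sx p} Pin (supp σ_0) (q+1)` define
`h (bof σ (gen m (s_0,…,s_q))) = [gen m (β_0, …, β_p, s_0, …, s_q)] ∈ Ch (p+q+1)`,
`β_i = rep (σ.m 0 i)`, with the sign `(-1)^p`.
-/

namespace C715

open CategoryTheory

namespace FlagSys

variable {Γ Λ Fl : Type} [Group Γ] [Group Λ] [MulAction Γ Fl] [MulAction Λ Fl]
  (S : FlagSys Γ Λ Fl)

/-- insertion of germs of group elements and reindexing -/
private noncomputable def mix {k n : ℕ} (J : Fin n → Γ ⊕ Fin k) : FV Λ Fl k →ₗ[ℚ] FV Λ Fl n :=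
  LinearMap.pi fun φ =>
    (Finsupp.lmapDomain ℚ ℚ (fun (t : Fin k → Λ) (i : Fin n) =>
      Sum.elim (fun g => S.γ g φ) t (J i))).comp (LinearMap.proj φ)

private theorem mix_apply {k n : ℕ} (J : Fin n → Γ ⊕ Fin k) (f : FV Λ Fl k) (φ : Fl) :
    S.mix J f φ = Finsupp.mapDomain (fun (t : Fin k → Λ) (i : Fin n) =>
      Sum.elim (fun g => S.γ g φ) t (J i)) (f φ) := rfl

private theorem mix_gen {k n : ℕ} (J : Fin n → Γ ⊕ Fin k) (m : Fl → ℚ) (s : Fin k → Γ) :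
    S.mix J (S.gen m s) = S.gen m (fun i => Sum.elim id s (J i)) := funext fun φ => by
  rw [mix_apply, gen_apply, gen_apply, Finsupp.mapDomain_single]
  congr 1
  funext i
  cases J i with
  | inl g => rfl
  | inr j => rfl

private theorem Pin_mix (W : Set Fl) {k n : ℕ} (J : Fin n → Γ ⊕ Fin k) :
    S.Pin W k ≤ (S.Pin W n).comap (S.mix J) := by
  refine Submodule.span_le.2 ?_
  rintro f ⟨m, hm, hW, t, rfl⟩
  rw [SetLike.mem_coe, Submodule.mem_comap, mix_gen]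
  exact S.gen_mem_Pin hm hW _

private theorem res_mix {l k n : ℕ} (e : Fin l → Fin n) (J : Fin n → Γ ⊕ Fin k) (f : FV Λ Fl k) :
    FV.res e (S.mix J f) = S.mix (J ∘ e) f := funext fun φ => by
  rw [FV.res_apply, mix_apply, mix_apply, ← Finsupp.mapDomain_comp]
  rfl

private theorem mix_res {l k n : ℕ} (J : Fin n → Γ ⊕ Fin l) (e : Fin l → Fin k) (f : FV Λ Fl k) :
    S.mix J (FV.res e f) = S.mix (fun i => Sum.map id e (J i)) f := funext fun φ => by
  rw [mix_apply, FV.res_apply, mix_apply, ← Finsupp.mapDomain_comp]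
  congr 1
  funext t i
  change Sum.elim (fun g => S.γ g φ) (t ∘ e) (J i) =
    Sum.elim (fun g => S.γ g φ) t (Sum.map id e (J i))
  cases J i with
  | inl g => rfl
  | inr j => rfl

private theorem tr_mix (g : Γ) {k n : ℕ} (J : Fin n → Γ ⊕ Fin k) (f : FV Λ Fl k) :
    S.tr g (S.mix J f) = S.mix (fun i => Sum.map (fun h => h * g⁻¹) id (J i)) (S.tr g f) :=
  funext fun φ => by
  rw [tr_apply, mix_apply, mix_apply, tr_apply, ← Finsupp.mapDomain_comp,
    ← Finsupp.mapDomain_comp]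
  congr 1
  funext t i
  change Sum.elim (fun h => S.γ h (g⁻¹ • φ)) t (J i) * S.γ g⁻¹ φ =
    Sum.elim (fun h => S.γ h φ) (fun i => t i * S.γ g⁻¹ φ) (Sum.map (fun h => h * g⁻¹) id (J i))
  cases J i with
  | inl h => exact (S.mul _ _ _).symm
  | inr j => rfl

/-- only the germs matter -/
private theorem mix_congr {W : Set Fl} {k n : ℕ} {J J' : Fin n → Γ ⊕ Fin k}
    (h : ∀ i, ∀ φ ∈ W, ∀ t : Fin k → Λ, Sum.elim (fun g => S.γ g φ) t (J i) =
      Sum.elim (fun g => S.γ g φ) t (J' i)) {f : FV Λ Fl k} (hf : f ∈ S.Pin W k) :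
    S.mix J f = S.mix J' f := by
  induction hf using Submodule.span_induction with
  | mem f hf =>
    obtain ⟨m, hm, hW, t, rfl⟩ := hf
    funext φ
    rw [mix_apply, mix_apply, gen_apply, Finsupp.mapDomain_single, Finsupp.mapDomain_single]
    by_cases h1 : m φ = 0
    · rw [h1, Finsupp.single_zero, Finsupp.single_zero]
    · congr 1
      funext i
      exact h i φ (hW φ h1) _
  | zero => rw [map_zero, map_zero]
  | add x y _ _ hx hy => rw [map_add, map_add, hx, hy]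
  | smul c x _ hx => rw [map_smul, map_smul, hx]

private theorem mix_ins {n : ℕ} (s : Fin n → Γ) (f : FV Λ Fl 0) :
    S.ins s f = S.mix (fun i => Sum.inl (s i)) f := rfl

private theorem mix_inr {n : ℕ} (f : FV Λ Fl n) : S.mix (fun i => Sum.inr i) f = f :=
  funext fun φ => Finsupp.mapDomain_id

end FlagSys

namespace CellSys

variable {Γ Λ Fl : Type} [Group Γ] [Group Λ] [MulAction Γ Fl] [MulAction Λ Fl]
  {S : FlagSys Γ Λ Fl} {A : ActCat Γ} (K : CellSys S A)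

theorem rowA_qis (hR : K.Refines) : Cx.Qis K.rowA.hom :=
  DCx.RowAug.qis K.rowA (K.row_surj hR) (fun q x hx => K.row_exact0 hR q x hx)
    (fun p q x hx => K.row_exact hR q p x hx)

/-- the index map -/
private noncomputable def jj {p q n : ℕ} (h : p + q = n) (β : Fin (p + 1) → Γ) (i : Fin (n + 2)) :
    Γ ⊕ Fin (q + 1) :=
  if hi : i.1 < p + 1 then Sum.inl (β ⟨i.1, hi⟩) else Sum.inr ⟨i.1 - (p + 1), by
    have := i.2
    omega⟩

omit [Group Γ] in
private theorem jj_lt {p q n : ℕ} (h : p + q = n) (β : Fin (p + 1) → Γ) (i : Fin (n + 2))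
    (hi : i.1 < p + 1) : jj h β i = Sum.inl (β ⟨i.1, hi⟩) := dif_pos hi

omit [Group Γ] in
private theorem jj_ge {p q n : ℕ} (h : p + q = n) (β : Fin (p + 1) → Γ) (i : Fin (n + 2))
    (hi : ¬ i.1 < p + 1) : jj h β i = Sum.inr ⟨i.1 - (p + 1), by
    have := i.2
    omega⟩ := dif_neg hi

/-- `[mix J y]` -/
private noncomputable def cm (a : A.Ob) {k n : ℕ} (J : Fin n → Γ ⊕ Fin k) :
    ↥(S.Pin (K.supp a) k) →ₗ[ℚ] (↥(S.P n) ⧸ S.coin n) :=
  (K.toCo a n).comp ((S.mix J).restrict (S.Pin_mix (K.supp a) J))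

private theorem cm_mk (a : A.Ob) {k n : ℕ} (J : Fin n → Γ ⊕ Fin k) (y : ↥(S.Pin (K.supp a) k)) :
    K.cm a J y = K.toCo a n ⟨S.mix J y.1, S.Pin_mix (K.supp a) J y.2⟩ := rfl

private theorem cm_face (a : A.Ob) {k m n : ℕ} (e : Fin (m + 1) →o Fin (n + 1))
    (J : Fin (n + 1) → Γ ⊕ Fin k) (y : ↥(S.Pin (K.supp a) k)) :
    S.sC.map e (K.cm a J y) = K.cm a (J ∘ e) y := by
  change Submodule.Quotient.mk _ = Submodule.Quotient.mk _
  congr 1
  refine Subtype.ext ?_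
  change FV.res e (S.mix J y.1) = S.mix (J ∘ e) y.1
  exact S.res_mix _ _ _

private theorem cm_res (a : A.Ob) {k l n : ℕ} (J : Fin n → Γ ⊕ Fin l) (e : Fin l → Fin k)
    (y : ↥(S.Pin (K.supp a) k)) :
    K.cm a J ((FV.res e).restrict (S.Pin_res (K.supp a) e) y) =
      K.cm a (fun i => Sum.map id e (J i)) y := by
  change Submodule.Quotient.mk _ = Submodule.Quotient.mk _
  congr 1
  refine Subtype.ext ?_
  exact S.mix_res _ _ _

/-- the homotopy on generators -/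
private noncomputable def hg {p q n : ℕ} (h : p + q = n) (σ : Sx A.Obj p) :
    (K.pF (q + 1)).M (σ.o 0) →ₗ[ℚ] (↥(S.P (n + 2)) ⧸ S.coin (n + 2)) :=
  K.cm (σ.o 0).o (jj h fun i => rep (σ.m 0 i (Fin.zero_le i)))

/-- faces of the simplex -/
private theorem hg_pre {p' p q n' : ℕ} (h' : p' + q = n') (e : Fin (p' + 1) →o Fin (p + 1))
    (σ : Sx A.Obj p) (y : (K.pF (q + 1)).M (σ.o 0)) :
    K.hg h' (pre e σ) ((K.pF (q + 1)).map (σ.m 0 (e 0) (Fin.zero_le _)) y) =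
      K.cm (σ.o 0).o (jj h' fun i => rep (σ.m 0 (e i) (Fin.zero_le _))) y := by
  have hg := rep_hom (σ.m 0 (e 0) (Fin.zero_le _))
  set g := rep (σ.m 0 (e 0) (Fin.zero_le _)) with hgdef
  have hadm := rep_adm (σ.m 0 (e 0) (Fin.zero_le _))
  rw [← hgdef] at hadm
  set J := jj h' fun i => rep (σ.m 0 (e i) (Fin.zero_le _)) with hJ
  let x : ↥(S.Pin (K.supp (σ.o 0).o) (n' + 2)) := ⟨S.mix J y.1, S.Pin_mix _ _ y.2⟩
  have h1 : K.cm (σ.o 0).o J y = K.toCo (σ.o 0).o (n' + 2) x := rfl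
  rw [h1, ← K.toCo_map (σ.m 0 (e 0) (Fin.zero_le _)) x]
  change K.toCo _ _ _ = K.toCo _ _ _
  congr 1
  refine Subtype.ext ?_
  have h2 : (((K.pF (n' + 2)).map (σ.m 0 (e 0) (Fin.zero_le _)) x).1 : FV Λ Fl (n' + 2)) =
      S.tr g x.1 := by
    rw [hg]
    rfl
  have h3 : (((K.pF (q + 1)).map (σ.m 0 (e 0) (Fin.zero_le _)) y).1 : FV Λ Fl (q + 1)) =
      S.tr g y.1 := by
    rw [hg]
    rfl
  change S.mix _ (((K.pF (q + 1)).map (σ.m 0 (e 0) (Fin.zero_le _)) y).1) =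
    (((K.pF (n' + 2)).map (σ.m 0 (e 0) (Fin.zero_le _)) x).1 : FV Λ Fl (n' + 2))
  rw [h2, h3]
  change S.mix _ (S.tr g y.1) = S.tr g (S.mix _ y.1)
  rw [S.tr_mix]
  have hmem : S.tr g y.1 ∈ S.Pin {φ | g⁻¹ • φ ∈ K.supp (σ.o 0).o} (q + 1) := by
    refine S.Pin_tr g (W := K.supp (σ.o 0).o) (fun φ hφ => ?_) y.2
    rw [Set.mem_ofPred_eq, inv_smul_smul]
    exact hφ
  refine S.mix_congr (fun i φ hφ t => ?_) hmem
  by_cases hi : i.1 < p' + 1
  · rw [hJ, jj_lt _ _ _ hi, jj_lt _ _ _ hi]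
    change S.γ (rep ((pre e σ).m 0 ⟨i.1, hi⟩ (Fin.zero_le _))) φ =
      S.γ (rep (σ.m 0 (e ⟨i.1, hi⟩) (Fin.zero_le _)) * g⁻¹) φ
    have hφ' : g⁻¹ • φ ∈ K.supp (σ.o 0).o := hφ
    obtain ⟨ψ, hψ, rfl⟩ : ∃ ψ, ψ ∈ K.supp (σ.o 0).o ∧ φ = g • ψ :=
      ⟨g⁻¹ • φ, hφ', (smul_inv_smul g φ).symm⟩
    set u := rep ((pre e σ).m 0 ⟨i.1, hi⟩ (Fin.zero_le _)) with hu
    have hu1 := rep_hom ((pre e σ).m 0 ⟨i.1, hi⟩ (Fin.zero_le _))
    have hu2 := rep_adm ((pre e σ).m 0 ⟨i.1, hi⟩ (Fin.zero_le _))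
    rw [← hu] at hu2
    -- `u g` represents `σ.m 0 (e i)`
    have h4 : σ.m 0 (e ⟨i.1, hi⟩) (Fin.zero_le _) = A.hom (u * g) (A.mul hadm hu2) := by
      have h5 := σ.m_comp 0 (e 0) (e ⟨i.1, hi⟩) (Fin.zero_le _) (e.monotone (Fin.zero_le _))
      rw [← h5, hg]
      have h6 : σ.m (e 0) (e ⟨i.1, hi⟩) (e.monotone (Fin.zero_le _)) = A.hom u hu2 := hu1
      rw [h6]
      exact ActCat.hom_comp hadm hu2
    have h7 := K.rep_γ _ _ _ h4 hψ
    have h8 : S.γ (rep (σ.m 0 (e ⟨i.1, hi⟩) (Fin.zero_le _)) * g⁻¹) (g • ψ) =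
        S.γ (rep (σ.m 0 (e ⟨i.1, hi⟩) (Fin.zero_le _))) ψ * (S.γ g ψ)⁻¹ := by
      rw [S.mul, inv_smul_smul, S.γ_inv]
    rw [h8, h7, S.mul, mul_inv_cancel_right]
  · rw [hJ, jj_ge _ _ _ hi, jj_ge _ _ _ hi]
    rfl

private theorem dl_val {n : ℕ} (i : Fin (n + 2)) (k : Fin (n + 1)) :
    ((dl i k : Fin (n + 2)) : ℕ) = if (k : ℕ) < i then (k : ℕ) else (k : ℕ) + 1 := by
  rw [dl_apply, Fin.succAbove]
  by_cases h : (k : ℕ) < i
  · rw [if_pos (show k.castSucc < i from h), if_pos h]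
    rfl
  · rw [if_neg (show ¬ k.castSucc < i from h), if_neg h]
    rfl

/-- horizontal faces -/
private theorem face_h {p q n : ℕ} (h' : p + q = n) (h : (p + 1) + q = n + 1) (i : Fin (p + 2))
    (k : Fin (n + 3)) (hk : k.1 = i.1) (σ : Sx A.Obj (p + 1)) (y : (K.pF (q + 1)).M (σ.o 0)) :
    S.sC.map (dl k) (K.hg h σ y) =
      K.hg h' (pre (dl i) σ) ((K.pF (q + 1)).map (σ.m 0 (dl i 0) (Fin.zero_le _)) y) := by
  rw [hg_pre, hg, cm_face]
  refine congrArg (fun J => K.cm (σ.o 0).o J y) ?_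
  funext l
  have hl : ((dl k l : Fin (n + 3)) : ℕ) = if (l : ℕ) < i then (l : ℕ) else (l : ℕ) + 1 := by
    rw [dl_val, hk]
  have hi := i.2
  change jj h _ (dl k l) = _
  by_cases h1 : l.1 < p + 1
  · have h2 : (dl k l : Fin (n + 3)).1 < p + 1 + 1 := by
      rw [hl]
      split_ifs <;> omega
    rw [jj_lt _ _ _ h1, jj_lt _ _ _ h2]
    have h3 : (⟨(dl k l : Fin (n + 3)).1, h2⟩ : Fin (p + 2)) = dl i ⟨l.1, h1⟩ := by
      exact Fin.ext (hl.trans (dl_val i ⟨l.1, h1⟩).symm)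
    change Sum.inl (rep (σ.m 0 (⟨(dl k l : Fin (n + 3)).1, h2⟩ : Fin (p + 2)) (Fin.zero_le _))) = _
    rw [h3]
  · have h2 : ¬ (dl k l : Fin (n + 3)).1 < p + 1 + 1 := by
      rw [hl]
      split_ifs <;> omega
    rw [jj_ge _ _ _ h1, jj_ge _ _ _ h2]
    refine congrArg Sum.inr (Fin.ext ?_)
    change (dl k l : Fin (n + 3)).1 - (p + 1 + 1) = l.1 - (p + 1)
    rw [hl]
    split_ifs <;> omega

/-- vertical faces -/
private theorem face_v {p q n : ℕ} (h' : p + q = n) (h : p + (q + 1) = n + 1) (j : Fin (q + 2))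
    (k : Fin (n + 3)) (hk : k.1 = p + 1 + j.1) (σ : Sx A.Obj p)
    (y : (K.pF (q + 1 + 1)).M (σ.o 0)) :
    S.sC.map (dl k) (K.hg h σ y) = K.hg h' σ ((S.sPin (K.supp (σ.o 0).o)).map (dl j) y) := by
  have h0 : K.hg h' σ ((S.sPin (K.supp (σ.o 0).o)).map (dl j) y) =
      K.cm (σ.o 0).o (fun i => Sum.map id (dl j)
        (jj h' (fun i => rep (σ.m 0 i (Fin.zero_le i))) i)) y := K.cm_res _ _ _ _
  rw [h0, hg, cm_face]
  refine congrArg (fun J => K.cm (σ.o 0).o J y) ?_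
  funext l
  have hl : ((dl k l : Fin (n + 3)) : ℕ) = if (l : ℕ) < p + 1 + j.1 then (l : ℕ) else (l : ℕ) + 1 := by
    rw [dl_val, hk]
  have hj := j.2
  change jj h _ (dl k l) = _
  by_cases h1 : l.1 < p + 1
  · have h2 : (dl k l : Fin (n + 3)).1 < p + 1 := by
      rw [hl]
      split_ifs <;> omega
    rw [jj_lt _ _ _ h1, jj_lt _ _ _ h2]
    have h3 : (⟨(dl k l : Fin (n + 3)).1, h2⟩ : Fin (p + 1)) = ⟨l.1, h1⟩ := by
      refine Fin.ext ?_
      change (dl k l : Fin (n + 3)).1 = l.1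
      rw [hl]
      split_ifs <;> omega
    rw [h3]
    rfl
  · have h2 : ¬ (dl k l : Fin (n + 3)).1 < p + 1 := by
      rw [hl]
      split_ifs <;> omega
    rw [jj_ge _ _ _ h1, jj_ge _ _ _ h2]
    refine congrArg Sum.inr (Fin.ext (Eq.trans ?_ (dl_val j _).symm))
    change (dl k l : Fin (n + 3)).1 - (p + 1) = if l.1 - (p + 1) < j.1 then l.1 - (p + 1)
      else l.1 - (p + 1) + 1
    rw [hl]
    split_ifs <;> omega

/-- the face forgetting the only vertex `β_0` -/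
private theorem face_row {q n : ℕ} (h : 0 + q = n) (hq : q = n) (σ : Sx A.Obj 0)
    (y : (K.pF (q + 1)).M (σ.o 0)) :
    S.sC.map (dl 0) (K.hg h σ y) = hq ▸ K.toCo (σ.o 0).o (q + 1) y := by
  subst hq
  rw [hg, cm_face]
  change Submodule.Quotient.mk _ = Submodule.Quotient.mk _
  congr 1
  refine Subtype.ext ?_
  change S.mix _ y.1 = y.1
  have h1 : (jj h (fun i => rep (σ.m 0 i (Fin.zero_le i))) ∘ dl 0 : Fin (q + 1) → Γ ⊕ Fin (q + 1)) =
      fun i => Sum.inr i := by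
    funext l
    have hl : ((dl 0 l : Fin (q + 2)) : ℕ) = l.1 + 1 := by
      rw [dl_val]
      simp
    have h2 : ¬ (dl 0 l : Fin (q + 2)).1 < 0 + 1 := by
      rw [hl]
      omega
    change jj h _ (dl 0 l) = _
    rw [jj_ge _ _ _ h2]
    refine congrArg Sum.inr (Fin.ext ?_)
    change (dl 0 l : Fin (q + 2)).1 - (0 + 1) = l.1
    rw [hl]
    omega
  rw [h1, S.mix_inr]

/-- the face forgetting the only vertex `s_0` -/
private theorem face_col {p : ℕ} (h : p + 0 = p) (k : Fin (p + 2)) (hk : k.1 = p + 1)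
    (σ : Sx A.Obj p) (y : (K.pF (0 + 1)).M (σ.o 0)) :
    S.sC.map (dl k) (K.hg h σ y) = K.thf p σ ((K.pFres (Fin.elim0 : Fin 0 → Fin 1)).f (σ.o 0) y) := by
  rw [hg, cm_face]
  change Submodule.Quotient.mk _ = Submodule.Quotient.mk _
  congr 1
  refine Subtype.ext ?_
  change S.mix _ y.1 = S.ins _ (FV.res (Fin.elim0 : Fin 0 → Fin 1) y.1)
  rw [S.mix_ins, S.mix_res]
  refine congrArg (fun J => S.mix J y.1) ?_
  funext l
  have hl : ((dl k l : Fin (p + 2)) : ℕ) = l.1 := by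
    rw [dl_val, if_pos]
    rw [hk]
    exact l.2
  have h2 : (dl k l : Fin (p + 2)).1 < p + 1 := by
    rw [hl]
    exact l.2
  change jj h _ (dl k l) = _
  rw [jj_lt _ _ _ h2]
  have h3 : (⟨(dl k l : Fin (p + 2)).1, h2⟩ : Fin (p + 1)) = l := Fin.ext hl
  rw [h3]
  rfl

/-- the homotopy -/
private noncomputable def Hc (n p q : ℕ) : BarX (K.pF (q + 1)) p →ₗ[ℚ] S.Ch.X (n + 1) :=
  if h : p + q = n then ((-1 : ℚ) ^ p) • bdesc (K.pF (q + 1)) (K.hg h) else 0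

private theorem Hc_bof {n p q : ℕ} (h : p + q = n) (σ : Sx A.Obj p)
    (y : (K.pF (q + 1)).M (σ.o 0)) :
    K.Hc n p q (bof (K.pF (q + 1)) σ y) = ((-1 : ℚ) ^ p) • K.hg h σ y := by
  rw [Hc, dif_pos h, LinearMap.smul_apply, bdesc_bof]

private theorem Hc_ne {n p q : ℕ} (h : p + q ≠ n) (x : BarX (K.pF (q + 1)) p) :
    K.Hc n p q x = 0 := by
  rw [Hc, dif_neg h]
  rfl

/-- the faces forgetting group elements -/
private noncomputable def U (n p q : ℕ) : BarX (K.pF (q + 1)) p →ₗ[ℚ] S.Ch.X n :=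
  if h : p + q = n then ((-1 : ℚ) ^ p) • bdesc (K.pF (q + 1)) (fun σ =>
    (∑ i : Fin (p + 1), ((-1 : ℚ) ^ (i : ℕ)) •
      S.sC.map (dl (n := n) (Fin.cast (by omega) (Fin.castAdd (q + 1) i)))).comp (K.hg h σ))
  else 0

/-- the faces forgetting coordinates -/
private noncomputable def V (n p q : ℕ) : BarX (K.pF (q + 1)) p →ₗ[ℚ] S.Ch.X n :=
  if h : p + q = n then ((-1 : ℚ) ^ p) • bdesc (K.pF (q + 1)) (fun σ =>
    (∑ j : Fin (q + 1), ((-1 : ℚ) ^ (p + 1 + (j : ℕ))) •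
      S.sC.map (dl (n := n) (Fin.cast (by omega) (Fin.natAdd (p + 1) j)))).comp (K.hg h σ))
  else 0

private theorem U_bof {n p q : ℕ} (h : p + q = n) (σ : Sx A.Obj p)
    (y : (K.pF (q + 1)).M (σ.o 0)) :
    K.U n p q (bof (K.pF (q + 1)) σ y) = ((-1 : ℚ) ^ p) • ∑ i : Fin (p + 1),
      ((-1 : ℚ) ^ (i : ℕ)) • S.sC.map (dl (n := n) (Fin.cast (by omega)
        (Fin.castAdd (q + 1) i))) (K.hg h σ y) := by
  rw [U, dif_pos h, LinearMap.smul_apply, bdesc_bof, LinearMap.comp_apply, LinearMap.sum_apply]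
  rfl

private theorem V_bof {n p q : ℕ} (h : p + q = n) (σ : Sx A.Obj p)
    (y : (K.pF (q + 1)).M (σ.o 0)) :
    K.V n p q (bof (K.pF (q + 1)) σ y) = ((-1 : ℚ) ^ p) • ∑ j : Fin (q + 1),
      ((-1 : ℚ) ^ (p + 1 + (j : ℕ))) • S.sC.map (dl (n := n) (Fin.cast (by omega)
        (Fin.natAdd (p + 1) j))) (K.hg h σ y) := by
  rw [V, dif_pos h, LinearMap.smul_apply, bdesc_bof, LinearMap.comp_apply, LinearMap.sum_apply]
  rfl

private theorem d_Hc {n p q : ℕ} (h : p + q = n) (x : BarX (K.pF (q + 1)) p) :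
    S.Ch.d n (K.Hc n p q x) = K.U n p q x + K.V n p q x := by
  induction x using bar_ind with
  | h0 => simp only [map_zero, add_zero]
  | h1 σ y =>
    have e : (p + 1) + (q + 1) = n + 2 := by omega
    rw [K.Hc_bof h, K.U_bof h, K.V_bof h, map_smul, ← smul_add]
    congr 1
    change S.sC.alt n _ = _
    rw [SMod.alt_apply, ← Fin.sum_congr' _ e, Fin.sum_univ_add]
    rfl
  | h2 x y hx hy =>
    rw [map_add, map_add, map_add, map_add, hx, hy]
    abel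

private theorem U_zero (n : ℕ) (x : BarX (K.pF (n + 1)) 0) : K.U n 0 n x = K.rowA.e n x := by
  induction x using bar_ind with
  | h0 => simp only [map_zero]
  | h1 σ y =>
    rw [K.U_bof (Nat.zero_add n)]
    have h1 : K.rowA.e n (bof (K.pF (n + 1)) σ y) = K.toCo (σ.o 0).o (n + 1) y := bdesc_bof _ _ _ _
    rw [h1, pow_zero, one_smul]
    refine (Fin.sum_univ_one _).trans ?_
    rw [Fin.val_zero, pow_zero, one_smul]
    exact K.face_row (Nat.zero_add n) rfl σ y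
  | h2 x y hx hy => rw [map_add, map_add, hx, hy]

private theorem V_zero (n : ℕ) (x : BarX (K.pF (0 + 1)) n) :
    K.V n n 0 x = - K.theta.f n (K.colA.e n x) := by
  induction x using bar_ind with
  | h0 => simp only [map_zero, neg_zero]
  | h1 σ y =>
    rw [K.V_bof (Nat.add_zero n)]
    have h1 : K.colA.e n (bof (K.pF (0 + 1)) σ y) = bof (K.pF 0) σ
        ((K.pFres (Fin.elim0 : Fin 0 → Fin 1)).f (σ.o 0) y) := bdesc_bof _ _ _ _
    rw [h1, K.theta_bof]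
    refine (congrArg _ (Fin.sum_univ_one _)).trans ?_
    rw [K.face_col (Nat.add_zero n) _ rfl σ y, smul_smul, ← pow_add]
    have h2 : ((-1 : ℚ)) ^ (n + (n + 1 + ((0 : Fin 1) : ℕ))) = -1 := by
      rw [Fin.val_zero, add_zero, show n + (n + 1) = 2 * n + 1 by omega, pow_succ, pow_mul]
      norm_num
    rw [h2, neg_one_smul]
  | h2 x y hx hy => rw [map_add, map_add, map_add, hx, hy, neg_add]

private theorem U_succ {n p q : ℕ} (h : p + q = n) (x : BarX (K.pF (q + 1)) (p + 1)) :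
    K.U (n + 1) (p + 1) q x = - K.Hc n p q (K.pL.hoco.dh p q x) := by
  induction x using bar_ind with
  | h0 => simp only [map_zero, neg_zero]
  | h1 σ y =>
    have h' : p + 1 + q = n + 1 := by omega
    rw [K.U_bof h']
    have h1 : K.pL.hoco.dh p q (bof (K.pF (q + 1)) σ y) = ∑ i : Fin (p + 2),
        ((-1 : ℚ) ^ (i : ℕ)) • bof (K.pF (q + 1)) (pre (dl i) σ)
          ((K.pF (q + 1)).map (σ.m 0 (dl i 0) (Fin.zero_le _)) y) := by
      change (barS (K.pF (q + 1))).alt p _ = _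
      rw [SMod.alt_apply]
      refine Finset.sum_congr rfl fun i _ => ?_
      congr 1
      exact barMap_bof _ _ _ _
    rw [h1, map_sum, Finset.smul_sum, ← Finset.sum_neg_distrib]
    refine Finset.sum_congr rfl fun i _ => ?_
    rw [K.face_h h h' i _ rfl, map_smul, K.Hc_bof h, smul_smul, smul_smul, ← neg_smul]
    congr 1
    ring
  | h2 x y hx hy => rw [map_add, map_add, map_add, hx, hy, neg_add]

private theorem V_succ {n p q : ℕ} (h : p + q = n) (x : BarX (K.pF (q + 1 + 1)) p) :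
    K.V (n + 1) p (q + 1) x = - (((-1 : ℚ) ^ p) • K.Hc n p q (K.pL.hoco.dv p q x)) := by
  induction x using bar_ind with
  | h0 => simp only [map_zero, neg_zero, smul_zero]
  | h1 σ y =>
    have h' : p + (q + 1) = n + 1 := by omega
    rw [K.V_bof h']
    have h1 : K.pL.hoco.dv p q (bof (K.pF (q + 1 + 1)) σ y) = bof (K.pF (q + 1)) σ
        ((S.sPin (K.supp (σ.o 0).o)).alt q y) := bdesc_bof _ _ _ _
    rw [h1, K.Hc_bof h, SMod.alt_apply, map_sum, Finset.smul_sum, Finset.smul_sum,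
      Finset.smul_sum, ← Finset.sum_neg_distrib]
    refine Finset.sum_congr rfl fun j _ => ?_
    rw [K.face_v h h' j _ rfl, map_smul, smul_smul, smul_smul, smul_smul, ← neg_smul]
    congr 1
    ring
  | h2 x y hx hy => rw [map_add, map_add, map_add, hx, hy, smul_add, neg_add]

/-- the homotopy -/
private noncomputable def HH (n : ℕ) : K.pL.hoco.Tot.X n →ₗ[ℚ] S.Ch.X (n + 1) :=
  ∑ x ∈ Finset.HasAntidiagonal.antidiagonal n, (K.Hc n x.1 x.2).comp
    ((LinearMap.proj x.2).comp ((LinearMap.proj x.1).comp (K.pL.hoco.totX n).subtype))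

private theorem HH_apply (n : ℕ) (a : K.pL.hoco.Tot.X n) :
    K.HH n a = ∑ x ∈ Finset.HasAntidiagonal.antidiagonal n, K.Hc n x.1 x.2 (a.1 x.1 x.2) := by
  rw [HH, LinearMap.sum_apply]
  rfl

private theorem d_HH (n : ℕ) (a : K.pL.hoco.Tot.X n) :
    S.Ch.d n (K.HH n a) = ∑ x ∈ Finset.HasAntidiagonal.antidiagonal n, K.U n x.1 x.2 (a.1 x.1 x.2) +
      ∑ x ∈ Finset.HasAntidiagonal.antidiagonal n, K.V n x.1 x.2 (a.1 x.1 x.2) := by
  rw [HH_apply, map_sum, ← Finset.sum_add_distrib]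
  exact Finset.sum_congr rfl fun x hx => K.d_Hc (Finset.HasAntidiagonal.mem_antidiagonal.1 hx) _

theorem theta_htpy : Cx.Htpy K.rowA.hom (K.colA.hom.comp K.theta) := by
  refine ⟨K.HH, fun a => ?_, fun n a => ?_⟩
  · rw [d_HH, Finset.Nat.antidiagonal_zero, Finset.sum_singleton, Finset.sum_singleton,
      K.U_zero 0, K.V_zero 0]
    exact sub_eq_add_neg _ _
  · rw [d_HH, Finset.Nat.sum_antidiagonal_succ, Finset.Nat.sum_antidiagonal_succ',
      K.U_zero (n + 1), K.V_zero (n + 1), HH_apply]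
    have h1 : ∑ x ∈ Finset.HasAntidiagonal.antidiagonal n, K.U (n + 1) (x.1 + 1) x.2 (a.1 (x.1 + 1) x.2) =
        ∑ x ∈ Finset.HasAntidiagonal.antidiagonal n, - K.Hc n x.1 x.2 (K.pL.hoco.dh x.1 x.2
          (a.1 (x.1 + 1) x.2)) :=
      Finset.sum_congr rfl fun x hx => K.U_succ (Finset.HasAntidiagonal.mem_antidiagonal.1 hx) _
    have h2 : ∑ x ∈ Finset.HasAntidiagonal.antidiagonal n, K.V (n + 1) x.1 (x.2 + 1) (a.1 x.1 (x.2 + 1)) =
        ∑ x ∈ Finset.HasAntidiagonal.antidiagonal n, - (((-1 : ℚ) ^ x.1) • K.Hc n x.1 x.2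
          (K.pL.hoco.dv x.1 x.2 (a.1 x.1 (x.2 + 1)))) :=
      Finset.sum_congr rfl fun x hx => K.V_succ (Finset.HasAntidiagonal.mem_antidiagonal.1 hx) _
    have h3 : ∑ x ∈ Finset.HasAntidiagonal.antidiagonal n, K.Hc n x.1 x.2 ((K.pL.hoco.Tot.d n a).1 x.1 x.2) =
        ∑ x ∈ Finset.HasAntidiagonal.antidiagonal n, K.Hc n x.1 x.2 (K.pL.hoco.dh x.1 x.2
          (a.1 (x.1 + 1) x.2)) +
        ∑ x ∈ Finset.HasAntidiagonal.antidiagonal n, ((-1 : ℚ) ^ x.1) • K.Hc n x.1 x.2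
          (K.pL.hoco.dv x.1 x.2 (a.1 x.1 (x.2 + 1))) := by
      rw [← Finset.sum_add_distrib]
      refine Finset.sum_congr rfl fun x _ => ?_
      rw [← map_smul, ← map_add]
      rfl
    rw [h1, h2, h3, Finset.sum_neg_distrib, Finset.sum_neg_distrib]
    have h4 : K.rowA.hom.f (n + 1) a = K.rowA.e (n + 1) (a.1 0 (n + 1)) := rfl
    have h5 : (K.colA.hom.comp K.theta).f (n + 1) a =
      K.theta.f (n + 1) (K.colA.e (n + 1) (a.1 (n + 1) 0)) := rfl
    rw [h4, h5]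
    abel

theorem theta_qis (hR : K.Refines) : Cx.Qis K.theta := by
  refine Cx.Qis.of_comp_left K.colA_qis fun n => ?_
  rw [← K.theta_htpy.H_eq n]
  exact K.rowA_qis hR n

end CellSys
end C715
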