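import Pool.Agent.Work.MP_c71557_gt.H.DC

set_option autoImplicit false
set_option linter.unusedVariables false

/-!
# MP_c71557_gt, block P: double complexes with two or three columns (definitions, proved)
-/

namespace C715

namespace DCx

/-- two columns `A1 → A0` -/
def two (A1 A0 : Cx) (d : Cx.Hom A1 A0) : DCx where
  X p q := match p with
    | 0 => A0.X q
    | 1 => A1.X q
    | _ + 2 => PUnit
  ac p q := match p with
    | 0 => A0.ac q
    | 1 => A1.ac q
    | _ + 2 => inferInstanceAs (AddCommGroup PUnit)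
  mo p q := match p with
    | 0 => A0.mo q
    | 1 => A1.mo q
    | _ + 2 => inferInstanceAs (Module ℚ PUnit)
  dh p q := match p with
    | 0 => d.f q
    | _ + 1 => 0
  dv p q := match p with
    | 0 => A0.d q
    | 1 => A1.d q
    | _ + 2 => 0
  hh p q x := match p with
    | 0 => map_zero _
    | _ + 1 => rfl
  vv p q x := match p with
    | 0 => A0.dd q x
    | 1 => A1.dd q x
    | _ + 2 => rfl
  hv p q x := match p with
    | 0 => d.comm q x
    | 1 => (map_zero (A1.d q)).symm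
    | _ + 2 => rfl

/-- three columns `A2 → A1 → A0` -/
def three (A2 A1 A0 : Cx) (d2 : Cx.Hom A2 A1) (d1 : Cx.Hom A1 A0)
    (h : ∀ n x, d1.f n (d2.f n x) = 0) : DCx where
  X p q := match p with
    | 0 => A0.X q
    | 1 => A1.X q
    | 2 => A2.X q
    | _ + 3 => PUnit
  ac p q := match p with
    | 0 => A0.ac q
    | 1 => A1.ac q
    | 2 => A2.ac q
    | _ + 3 => inferInstanceAs (AddCommGroup PUnit)
  mo p q := match p with
    | 0 => A0.mo q
    | 1 => A1.mo q
    | 2 => A2.mo q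
    | _ + 3 => inferInstanceAs (Module ℚ PUnit)
  dh p q := match p with
    | 0 => d1.f q
    | 1 => d2.f q
    | _ + 2 => 0
  dv p q := match p with
    | 0 => A0.d q
    | 1 => A1.d q
    | 2 => A2.d q
    | _ + 3 => 0
  hh p q x := match p with
    | 0 => h q x
    | 1 => map_zero (d2.f q)
    | _ + 2 => rfl
  vv p q x := match p with
    | 0 => A0.dd q x
    | 1 => A1.dd q x
    | 2 => A2.dd q x
    | _ + 3 => rfl
  hv p q x := match p with
    | 0 => d1.comm q x
    | 1 => d2.comm q x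
    | 2 => (map_zero (A2.d q)).symm
    | _ + 3 => rfl

/-- morphisms of two column complexes -/
def twoMap {A1 A0 B1 B0 : Cx} {d : Cx.Hom A1 A0} {e : Cx.Hom B1 B0} (α1 : Cx.Hom A1 B1)
    (α0 : Cx.Hom A0 B0) (h : ∀ n x, α0.f n (d.f n x) = e.f n (α1.f n x)) :
    Hom (two A1 A0 d) (two B1 B0 e) where
  f p q := match p with
    | 0 => α0.f q
    | 1 => α1.f q
    | _ + 2 => 0
  hcomm p q x := match p with
    | 0 => h q x
    | 1 => map_zero (α1.f q)
    | _ + 2 => rfl
  vcomm p q x := match p with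
    | 0 => α0.comm q x
    | 1 => α1.comm q x
    | _ + 2 => rfl

/-- morphisms of three column complexes -/
def threeMap {A2 A1 A0 B2 B1 B0 : Cx} {d2 : Cx.Hom A2 A1} {d1 : Cx.Hom A1 A0}
    {hd : ∀ n x, d1.f n (d2.f n x) = 0} {e2 : Cx.Hom B2 B1} {e1 : Cx.Hom B1 B0}
    {he : ∀ n x, e1.f n (e2.f n x) = 0} (α2 : Cx.Hom A2 B2) (α1 : Cx.Hom A1 B1)
    (α0 : Cx.Hom A0 B0) (h2 : ∀ n x, α1.f n (d2.f n x) = e2.f n (α2.f n x))
    (h1 : ∀ n x, α0.f n (d1.f n x) = e1.f n (α1.f n x)) :
    Hom (three A2 A1 A0 d2 d1 hd) (three B2 B1 B0 e2 e1 he) where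
  f p q := match p with
    | 0 => α0.f q
    | 1 => α1.f q
    | 2 => α2.f q
    | _ + 3 => 0
  hcomm p q x := match p with
    | 0 => h1 q x
    | 1 => h2 q x
    | 2 => map_zero (α2.f q)
    | _ + 3 => rfl
  vcomm p q x := match p with
    | 0 => α0.comm q x
    | 1 => α1.comm q x
    | 2 => α2.comm q x
    | _ + 3 => rfl

/-- augmentation of a two column complex: `A1 → A0 → B` with zero composite -/
def twoAug {A1 A0 B : Cx} {d : Cx.Hom A1 A0} (ε : Cx.Hom A0 B)
    (h : ∀ n x, ε.f n (d.f n x) = 0) : RowAug (two A1 A0 d) B where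
  e q := ε.f q
  comm q x := ε.comm q x
  zero q x := h q x

/-- augmentation of a three column complex -/
def threeAug {A2 A1 A0 B : Cx} {d2 : Cx.Hom A2 A1} {d1 : Cx.Hom A1 A0}
    {hd : ∀ n x, d1.f n (d2.f n x) = 0} (ε : Cx.Hom A0 B)
    (h : ∀ n x, ε.f n (d1.f n x) = 0) : RowAug (three A2 A1 A0 d2 d1 hd) B where
  e q := ε.f q
  comm q x := ε.comm q x
  zero q x := h q x

end DCx

/-- kernel complex -/
def Cx.ker {A B : Cx} (f : Cx.Hom A B) : Cx where
  X n := ↥(LinearMap.ker (f.f n))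
  d n := (A.d n).restrict (fun x hx => by
    rw [LinearMap.mem_ker] at hx ⊢
    rw [f.comm, hx, map_zero])
  dd n x := Subtype.ext (A.dd n x.1)

/-- inclusion of the kernel -/
def Cx.kerIncl {A B : Cx} (f : Cx.Hom A B) : Cx.Hom (Cx.ker f) A where
  f n := (LinearMap.ker (f.f n)).subtype
  comm _ _ := rfl

/-- induced maps of kernels -/
def Cx.kerMap {A B A' B' : Cx} {f : Cx.Hom A B} {f' : Cx.Hom A' B'} (a : Cx.Hom A A')
    (b : Cx.Hom B B') (h : ∀ n x, b.f n (f.f n x) = f'.f n (a.f n x)) :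
    Cx.Hom (Cx.ker f) (Cx.ker f') where
  f n := (a.f n).restrict (fun x hx => by
    rw [LinearMap.mem_ker] at hx ⊢
    rw [← h, hx, map_zero])
  comm n x := Subtype.ext (a.comm n x.1)

end C715
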